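import Pool.Agent.Lib.H76T.TD4

/-!
# Counting eigenvalues
-/

set_option autoImplicit false
set_option linter.unusedSectionVars false
namespace Pool.Agent.H76T
open Module Matrix Pool.Agent.H53Toric
open Pool.Agent.H76RM (Split)

variable {ι : Type*} [Fintype ι] [DecidableEq ι] {K : Type*} [Field K] [CharZero K]

theorem rank_eq_trace {p : Matrix ι ι K} (hp : p * p = p) :
    (p.rank : K) = LinearMap.trace K (ι → K) (phi p) := by
  rw [trace_idem (f := phi p) (by rw [← map_mul, hp])]
  rfl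

section
variable {x : Matrix ι ι K} {P Q : Matrix ι ι K} {d : ι → K}
  (hx : x = P * Matrix.diagonal d * Q) (hPQ : P * Q = 1) (hQP : Q * P = 1)

open Classical in
include hx hPQ hQP in
/-- The rank of an idempotent is the sum of the ranks on the eigenspaces. -/
theorem rank_sum {p : Matrix ι ι K} (hp : p * p = p) (hpx : p * x = x * p) :
    p.rank = ∑ a ∈ Finset.univ.image d, (pj P Q d a * p).rank := by
  have hc : ∀ a, p * pj P Q d a = pj P Q d a * p := fun a => pj_comm hx hQP hPQ hpx a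
  have hid : ∀ a, (pj P Q d a * p) * (pj P Q d a * p) = pj P Q d a * p := by
    intro a
    calc (pj P Q d a * p) * (pj P Q d a * p) = pj P Q d a * (p * pj P Q d a) * p := by
          noncomm_ring
      _ = (pj P Q d a * pj P Q d a) * (p * p) := by rw [hc]; noncomm_ring
      _ = _ := by rw [pj_mul hQP, hp]
  have h1 : (p.rank : K) = ((∑ a ∈ Finset.univ.image d, (pj P Q d a * p).rank : ℕ) : K) := by
    rw [Nat.cast_sum, rank_eq_trace hp]
    simp only [rank_eq_trace (hid _)]
    rw [← map_sum, ← map_sum, ← Finset.sum_mul, pj_sum hPQ, one_mul]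
  exact_mod_cast h1

end

section
variable {B : Type*} [Fintype B] [DecidableEq B] {J : Matrix ι ι K}
  {DD : Submodule K (Matrix ι ι K)} {e : B → Matrix ι ι K} (h : Split J DD e)
  (hJ : Jᵀ = -J) (hdet : IsUnit J.det) {x : Matrix ι ι K} {q : K} (hq : q ≠ 0)
  (hsim : xᵀ * J * x = q • J) (hxD : ∀ d ∈ DD, x * d = d * x)
  {P Q : Matrix ι ι K} {d : ι → K}
  (hx : x = P * Matrix.diagonal d * Q) (hPQ : P * Q = 1) (hQP : Q * P = 1)
  (hd : ∀ k, d k ≠ 0)

open Classical in
include h hxD hx hPQ hQP in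
theorem rank_total : ∑ b, (e b).rank =
    ∑ a ∈ Finset.univ.image d, ∑ b, (pj P Q d a * e b).rank := by
  rw [Finset.sum_comm]
  exact Finset.sum_congr rfl fun b _ => rank_sum hx hPQ hQP (h.idem b) (hxD _ (h.mem b)).symm

theorem rank_pos_of_ne {A : Matrix ι ι K} (hA : A ≠ 0) : 1 ≤ A.rank := by
  rw [Nat.one_le_iff_ne_zero]
  intro h0
  apply hA
  have h2 : finrank K (LinearMap.range A.mulVecLin) = 0 := h0
  rw [Submodule.finrank_eq_zero, LinearMap.range_eq_bot] at h2
  apply Matrix.toLin'.injective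
  rw [map_zero]
  exact h2

include h hxD hx hPQ hQP in
/-- every eigenvalue occurs somewhere -/
theorem mult_pos (k : ι) : 1 ≤ ∑ b, (pj P Q d (d k) * e b).rank := by
  obtain ⟨b, z, hz0, hbz, hz⟩ := eig_comp h hxD hx hPQ hQP k
  have h1 : pj P Q d (d k) * e b ≠ 0 := by
    intro h0
    apply hz0
    have h2 := congrArg (fun X => X *ᵥ z) h0
    simp only [← Matrix.mulVec_mulVec, hbz, Matrix.zero_mulVec] at h2
    rwa [pj_eig hx hQP hPQ hz] at h2
  exact (rank_pos_of_ne h1).trans
    (Finset.single_le_sum (f := fun b => (pj P Q d (d k) * e b).rank)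
      (fun _ _ => Nat.zero_le _) (Finset.mem_univ b))

variable (hlie : ∀ b u, e b *ᵥ u = u → ∃ X : Matrix ι ι K, Xᵀ * J + J * X = 0 ∧
    (∀ d ∈ DD, X * d = d * X) ∧ (∀ z, X *ᵥ (e b *ᵥ z) = om J z u • u) ∧ ∀ c, c ≠ b → X * e c = 0)
  (htor : ∀ y : Matrix ι ι K, y.det ≠ 0 → (∀ d ∈ DD, y * d = d * y) →
    (∃ c : K, yᵀ * J * y = c • J) → y * x = x * y → y ∈ zar {m | ∃ n : ℕ, m = x ^ n})

include h hJ hdet hq hsim hxD hx hPQ hQP hd hlie htor in
/-- every eigenvalue has total multiplicity one -/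
theorem mult_one (k : ι) : ∑ b, (pj P Q d (d k) * e b).rank = 1 := by
  obtain ⟨b, v, w, hbv, hbw, hv, hw, hvw⟩ := eig_pair h hdet hq hsim hxD hx hPQ hQP hd k
  obtain ⟨h1, h2, -⟩ := torus_simple h hJ hdet hq hsim hxD hx hPQ hQP hd hlie htor hbv hbw hv hw
    hvw
  have hxpj : ∀ z, x *ᵥ (pj P Q d (d k) *ᵥ z) = d k • (pj P Q d (d k) *ᵥ z) := by
    intro z
    rw [Matrix.mulVec_mulVec, x_pj hx hQP, Matrix.smul_mulVec]
  have hc : ∀ c, pj P Q d (d k) * e c = e c * pj P Q d (d k) := fun c =>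
    (pj_comm hx hQP hPQ (hxD _ (h.mem c)).symm (d k)).symm
  rw [Finset.sum_eq_single b]
  · apply le_antisymm
    · have h3 : (pj P Q d (d k) * e b).rank ≤ 1 := by
        apply finrank_le_one (R := K) (M := LinearMap.range (pj P Q d (d k) * e b).mulVecLin)
          ⟨v, ⟨v, by
            rw [Matrix.mulVecLin_apply, ← Matrix.mulVec_mulVec, hbv, pj_eig hx hQP hPQ hv]⟩⟩
        rintro ⟨_, ⟨z, rfl⟩⟩
        refine ⟨om J (pj P Q d (d k) *ᵥ z) w, ?_⟩
        apply Subtype.ext
        change om J (pj P Q d (d k) *ᵥ z) w • v = (pj P Q d (d k) * e b) *ᵥ z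
        rw [hc, ← Matrix.mulVec_mulVec, h2 _ (hxpj z)]
      exact h3
    · apply rank_pos_of_ne
      intro h0
      have hv0 : v ≠ 0 := by
        rintro rfl
        rw [map_zero, LinearMap.zero_apply] at hvw
        exact zero_ne_one hvw
      apply hv0
      have h3 := congrArg (fun X => X *ᵥ v) h0
      simp only [← Matrix.mulVec_mulVec, hbv, Matrix.zero_mulVec] at h3
      rwa [pj_eig hx hQP hPQ hv] at h3
  · intro c _ hcb
    have h3 : pj P Q d (d k) * e c = 0 := by
      apply mat_ext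
      intro z
      rw [hc, ← Matrix.mulVec_mulVec, h1 c hcb _ (hxpj z), Matrix.zero_mulVec]
    rw [h3, Matrix.rank_zero]
  · intro hb
    exact absurd (Finset.mem_univ b) hb

open Classical in
include h hJ hdet hq hsim hxD hx hPQ hQP hd hlie htor in
/-- the number of eigenvalues -/
theorem card_eig : (Finset.univ.image d).card = ∑ b, (e b).rank := by
  rw [rank_total h hxD hx hPQ hQP, Finset.card_eq_sum_ones]
  apply Finset.sum_congr rfl
  intro a ha
  obtain ⟨k, -, rfl⟩ := Finset.mem_image.1 ha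
  exact (mult_one h hJ hdet hq hsim hxD hx hPQ hQP hd hlie htor k).symm

open Classical in
include h hxD hx hPQ hQP in
/-- If there are enough eigenvalues they are simple on one component. -/
theorem mult_one_of_card (hcard : (Finset.univ.image d).card = ∑ b, (e b).rank) (k : ι) :
    ∑ b, (pj P Q d (d k) * e b).rank = 1 := by
  rw [rank_total h hxD hx hPQ hQP, Finset.card_eq_sum_ones] at hcard
  have h1 : ∀ a ∈ Finset.univ.image d, 1 ≤ ∑ b, (pj P Q d a * e b).rank := by
    intro a ha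
    obtain ⟨k, -, rfl⟩ := Finset.mem_image.1 ha
    exact mult_pos h hxD hx hPQ hQP k
  exact ((Finset.sum_eq_sum_iff_of_le h1).1 hcard (d k)
    (Finset.mem_image_of_mem d (Finset.mem_univ k))).symm

end

end Pool.Agent.H76T
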