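import Pool.Agent.Lib.H76T.TA3

/-!
# The dimension is an odd power
-/

set_option autoImplicit false
set_option linter.unusedSectionVars false
namespace Pool.Agent.H76T
open Module Matrix Pool.Agent.H53Toric

section
variable {K : Type*} [Field K] {V : Type*} [AddCommGroup V] [Module K V]

theorem adjoin_comm {s t : Set (Module.End K V)} (h : ∀ X ∈ s, ∀ Y ∈ t, X * Y = Y * X)
    {X Y : Module.End K V} (hX : X ∈ Algebra.adjoin K s) (hY : Y ∈ Algebra.adjoin K t) :
    X * Y = Y * X := by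
  have h1 : ∀ X ∈ s, ∀ Y ∈ Algebra.adjoin K t, X * Y = Y * X := by
    intro X hX Y hY
    induction hY using Algebra.adjoin_induction with
    | mem Y hY => exact h X hX Y hY
    | algebraMap r => exact (Algebra.commutes r X).symm
    | add a b _ _ ha hb => rw [mul_add, add_mul, ha, hb]
    | mul a b _ _ ha hb => rw [← mul_assoc, ha, mul_assoc, hb, mul_assoc]
  induction hX using Algebra.adjoin_induction with
  | mem X hX => exact h1 X hX Y hY
  | algebraMap r => exact Algebra.commutes r Y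
  | add a b _ _ ha hb => rw [mul_add, add_mul, ha, hb]
  | mul a b _ _ ha hb => rw [mul_assoc, hb, ← mul_assoc, ha, mul_assoc]

theorem adjoin_semi {σ : K ≃+* K} {θ : Module.End K V ≃+* Module.End K V}
    (hθ : ∀ (c : K) X, θ (c • X) = σ c • θ X) {s t : Set (Module.End K V)}
    (h : ∀ X ∈ s, θ X ∈ t) {X : Module.End K V} (hX : X ∈ Algebra.adjoin K s) :
    θ X ∈ Algebra.adjoin K t := by
  induction hX using Algebra.adjoin_induction with
  | mem X hX => exact Algebra.subset_adjoin (h X hX)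
  | algebraMap r =>
    rw [Algebra.algebraMap_eq_smul_one, hθ, map_one]
    exact Subalgebra.smul_mem _ (Subalgebra.one_mem _) _
  | add a b _ _ ha hb => rw [map_add]; exact Subalgebra.add_mem _ ha hb
  | mul a b _ _ ha hb => rw [map_mul]; exact Subalgebra.mul_mem _ ha hb

theorem adjoin_anti {α : Module.End K V →ₗ[K] Module.End K V}
    (hα : ∀ X Y, α (X * Y) = α Y * α X) (hα1 : α 1 = 1) {s : Set (Module.End K V)}
    (h : ∀ X ∈ s, α X = -X) {X : Module.End K V} (hX : X ∈ Algebra.adjoin K s) :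
    α X ∈ Algebra.adjoin K s := by
  induction hX using Algebra.adjoin_induction with
  | mem X hX =>
    rw [h X hX]
    exact Subalgebra.neg_mem _ (Algebra.subset_adjoin hX)
  | algebraMap r =>
    rw [Algebra.algebraMap_eq_smul_one, map_smul, hα1]
    exact Subalgebra.smul_mem _ (Subalgebra.one_mem _) _
  | add a b _ _ ha hb => rw [map_add]; exact Subalgebra.add_mem _ ha hb
  | mul a b _ _ ha hb => rw [hα]; exact Subalgebra.mul_mem _ hb ha

end

section
variable {κ : Type*} [Fintype κ] [DecidableEq κ] {K : Type*} [Field K] [CharZero K]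

theorem adjE_one {J : Matrix κ κ K} (hJ : Jᵀ = -J) (hJd : IsUnit J.det) :
    adjE J (1 : Module.End K (κ → K)) = 1 := by
  have h2 := adjE_mul hJd (adjE J 1) (1 : Module.End K (κ → K))
  rw [mul_one, adjE_adjE hJ hJd, mul_one] at h2
  exact h2.symm

theorem trace_adjE {J : Matrix κ κ K} (hJ : Jᵀ = -J) (hJd : IsUnit J.det) :
    LinearMap.trace K _ (adjE J) = -(Fintype.card κ : K) := by
  rw [← H49M.B9_mat hJ hJd.ne_zero (adjL J) (adjL_apply J)]
  apply H49M.B9a_conj (adjE J) (phi (ι := κ) (K := K)).toLinearEquiv (adjL J)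
  ext X v
  rfl

variable {L : Submodule K (Module.End K (κ → K))} {J : Matrix κ κ K} {Δ : Type*}
    {σ : Δ → K ≃+* K} {θ : Δ → Module.End K (κ → K) ≃+* Module.End K (κ → K)}
    {y : Module.End K (κ → K)}
variable [IsAlgClosed K] [Nonempty κ] {m : ℕ} {I : Fin m → Submodule K (Module.End K (κ → K))}

theorem Fam.sup_top (hF : Fam L I) (hirr : Irr L) :
    (⨆ j, Algebra.adjoin K (I j : Set (Module.End K (κ → K)))) = ⊤ := by
  rw [eq_top_iff, ← hF.top hirr]
  apply Algebra.adjoin_le
  intro X hX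
  obtain ⟨j, hj⟩ := Set.mem_iUnion.1 hX
  exact (le_iSup (fun j => Algebra.adjoin K (I j : Set (Module.End K (κ → K)))) j)
    (Algebra.subset_adjoin hj)

theorem Fam.acomm (hF : Fam L I) : ∀ i j, i ≠ j →
    ∀ X ∈ Algebra.adjoin K (I i : Set (Module.End K (κ → K))),
    ∀ Y ∈ Algebra.adjoin K (I j : Set (Module.End K (κ → K))), X * Y = Y * X :=
  fun i j hij _ hX _ hY => adjoin_comm (hF.comm i j hij) hX hY

/-- The dimension of the space is an odd power. -/
theorem Orb.power (h : Orb L J σ θ y) (hF : Fam L I) :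
    ∃ a : ℕ, Odd m ∧ finrank K (κ → K) = a ^ m ∧
      ∀ j, finrank K (Algebra.adjoin K (I j : Set (Module.End K (κ → K)))) = a * a := by
  classical
  obtain ⟨j₀, hj₀, htrans⟩ := h.trans hF
  let A : Fin m → Subalgebra K (Module.End K (κ → K)) := fun j =>
    Algebra.adjoin K (I j : Set (Module.End K (κ → K)))
  have hAc : ∀ i j, i ≠ j → ∀ X ∈ A i, ∀ Y ∈ A j, X * Y = Y * X := hF.acomm
  have hAt : (⨆ j, A j) = ⊤ := hF.sup_top h.irr
  obtain ⟨a, ha1, ha2⟩ := H49M.B8_many m (κ → K) A hAc hAt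
  have hmul := adjE_mul (J := J) h.Jd
  have hone := adjE_one h.Jt h.Jd
  have hsk : ∀ j, ∀ X ∈ (I j : Set (Module.End K (κ → K))), adjE J X = -X := fun j X hX =>
    h.skew X ((hF.ideal j).1 hX)
  have hst : ∀ j, ∀ X ∈ Subalgebra.toSubmodule (A j), adjE J X ∈ Subalgebra.toSubmodule (A j) :=
    fun j X hX => adjoin_anti hmul hone (hsk j) hX
  -- transport
  have hmove : ∀ k, ∃ δ, (∀ X ∈ A j₀, θ δ X ∈ A k) ∧ ∀ X ∈ A k, (θ δ).symm X ∈ A j₀ := by
    intro k
    obtain ⟨δ, hδ⟩ := htrans k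
    refine ⟨δ, fun X hX => adjoin_semi (h.semi δ) (fun X hX => ?_) hX, fun X hX => ?_⟩
    · rw [← hδ]
      exact mem_mv'.2 hX
    · have hsemi : ∀ (c : K) X, (θ δ).symm (c • X) = (σ δ).symm c • (θ δ).symm X := by
        intro c X
        apply (θ δ).injective
        rw [h.semi, RingEquiv.apply_symm_apply, RingEquiv.apply_symm_apply,
          RingEquiv.apply_symm_apply]
      refine adjoin_semi (σ := (σ δ).symm) (θ := (θ δ).symm) hsemi (fun X hX => ?_) hX
      rw [← hδ] at hX
      exact mem_mv.1 hX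
  have hfin : ∀ k, finrank K (A j₀) = finrank K (A k) := by
    intro k
    obtain ⟨δ, h1, h2⟩ := hmove k
    exact rank_mv (h.semi δ) (Subalgebra.toSubmodule (A j₀)) (Subalgebra.toSubmodule (A k)) h1 h2
  have hak : ∀ k, a k = a j₀ := by
    intro k
    have h1 := hfin k
    rw [ha1, ha1] at h1
    exact (Nat.mul_self_inj.1 h1).symm
  have hpow : finrank K (κ → K) = a j₀ ^ m := by
    rw [ha2, Finset.prod_congr rfl fun k _ => hak k, Finset.prod_const, Finset.card_univ,
      Fintype.card_fin]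
  refine ⟨a j₀, ?_, hpow, fun j => by rw [← hak j]; exact ha1 j⟩
  -- parity
  let P : Fin m → Submodule K (Module.End K (κ → K)) := fun j =>
    Subalgebra.toSubmodule (A j) ⊓ LinearMap.ker (adjE J - LinearMap.id)
  have hP : ∀ j x, x ∈ P j ↔ x ∈ Subalgebra.toSubmodule (A j) ∧ adjE J x = x := by
    intro j x
    rw [Submodule.mem_inf, LinearMap.mem_ker, LinearMap.sub_apply, LinearMap.id_apply,
      sub_eq_zero]
  have hPfin : ∀ k, finrank K (P j₀) = finrank K (P k) := by
    intro k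
    obtain ⟨δ, h1, h2⟩ := hmove k
    apply rank_mv (h.semi δ)
    · intro X hX
      rw [hP] at hX ⊢
      exact ⟨h1 X hX.1, by rw [h.adjθ, hX.2]⟩
    · intro X hX
      rw [hP] at hX ⊢
      refine ⟨h2 X hX.1, ?_⟩
      apply (θ δ).injective
      rw [← h.adjθ, RingEquiv.apply_symm_apply, hX.2]
  have htrj := fun j => H49M.B9d_trace (Subalgebra.toSubmodule (A j)) (P j) (adjE J) (hst j)
    (adjE_adjE h.Jt h.Jd) (hP j)
  have hall := H49M.B9_many m (κ → K) A hAc hAt (adjE J) hmul hone hst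
  rw [trace_adjE h.Jt h.Jd] at hall
  have hfin' : ∀ k, finrank K (Subalgebra.toSubmodule (A k)) =
      finrank K (Subalgebra.toSubmodule (A j₀)) := fun k => (hfin k).symm
  rw [Finset.prod_congr rfl fun k _ => by
    rw [htrj k, ← hPfin k, hfin' k], Finset.prod_const, Finset.card_univ,
    Fintype.card_fin] at hall
  set t : ℤ := 2 * (finrank K (P j₀) : ℤ) - (finrank K (Subalgebra.toSubmodule (A j₀)) : ℤ)
  have hz : (-(Fintype.card κ : ℤ)) = t ^ m := by exact_mod_cast hall
  rw [← Nat.not_even_iff_odd]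
  intro hev
  have h1 : 0 ≤ t ^ m := hev.pow_nonneg t
  have h2 : (0 : ℤ) < Fintype.card κ := by exact_mod_cast Fintype.card_pos
  omega

end

end Pool.Agent.H76T
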