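import Pool.Agent.Lib.H76T.TF1

/-!
# The final theorem, for all primes
-/

set_option autoImplicit false
set_option linter.unusedSectionVars false
namespace Pool.Agent.H76T
open Module Matrix Polynomial Pool.Agent.H53Toric
open Pool.Agent.H76U (IsSplitting rank_idem_map)
open Pool.Agent.H76RM (spanK similD)
open Pool.Agent.H49M (idc TorusCond)

theorem finalT {ι : Type*} [Fintype ι] [DecidableEq ι] {ψ : Matrix ι ι ℚ} (hψ : ψᵀ = -ψ)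
    (hψ0 : ψ.det ≠ 0) (D : Subalgebra ℚ (Matrix ι ι ℚ)) {M : Type*} [Field M] [NumberField M]
    {m : ℕ} (e : Fin m → Matrix ι ι M) (hspl : IsSplitting D ψ id e) {G : Type*} [Group G]
    (ρ : ∀ (l : ℕ) [Fact l.Prime], G →* Matrix.GeneralLinearGroup ι ℚ_[l]) (Λ : Set ℕ)
    (lin : ∀ (l : ℕ) [Fact l.Prime], l ∈ Λ → ∀ σ : G, ∀ d ∈ D,
      (ρ l σ).1 * d.map (algebraMap ℚ ℚ_[l]) = d.map (algebraMap ℚ ℚ_[l]) * (ρ l σ).1)
    (sim : ∀ (l : ℕ) [Fact l.Prime], l ∈ Λ → ∀ σ : G, ∃ c : ℚ_[l],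
      (ρ l σ).1ᵀ * ψ.map (algebraMap ℚ ℚ_[l]) * (ρ l σ).1 = c • ψ.map (algebraMap ℚ ℚ_[l]))
    (semis : ∀ (l : ℕ) [Fact l.Prime], l ∈ Λ → ∀ H : Subgroup G, H.FiniteIndex →
      ∀ W : Submodule (AlgebraicClosure ℚ_[l]) (ι → AlgebraicClosure ℚ_[l]),
      (∀ s ∈ img (AlgebraicClosure ℚ_[l]) (ρ l) H, ∀ w ∈ W, s *ᵥ w ∈ W) →
      ∃ W' : Submodule (AlgebraicClosure ℚ_[l]) (ι → AlgebraicClosure ℚ_[l]),
        (∀ s ∈ img (AlgebraicClosure ℚ_[l]) (ρ l) H, ∀ w ∈ W', s *ᵥ w ∈ W') ∧ IsCompl W W')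
    (commt : ∀ (l : ℕ) [Fact l.Prime], l ∈ Λ → ∀ H : Subgroup G, H.FiniteIndex →
      ∀ y : Matrix ι ι (AlgebraicClosure ℚ_[l]),
      (∀ s ∈ img (AlgebraicClosure ℚ_[l]) (ρ l) H, y * s = s * y) →
        y ∈ spanK (AlgebraicClosure ℚ_[l]) D)
    (σ : G) (q : ℚ) (hq : ∀ n : ℕ, n ≠ 0 → q ^ n ≠ 1) (F : ℚ[X])
    (mult : ∀ (l : ℕ) [Fact l.Prime], l ∈ Λ →
      (ρ l σ).1ᵀ * ψ.map (algebraMap ℚ ℚ_[l]) * (ρ l σ).1 =
        algebraMap ℚ ℚ_[l] q • ψ.map (algebraMap ℚ ℚ_[l]))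
    (char : ∀ (l : ℕ) [Fact l.Prime], l ∈ Λ →
      (ρ l σ).1.charpoly = F.map (algebraMap ℚ ℚ_[l]))
    (diag : ∀ (l : ℕ) [Fact l.Prime], l ∈ Λ →
      Diagonalisable ((ρ l σ).1.map (algebraMap ℚ_[l] (AlgebraicClosure ℚ_[l]))))
    (l₁ : ℕ) [Fact l₁.Prime] (hl₁ : l₁ ∈ Λ)
    (torus : TorusCond (AlgebraicClosure ℚ_[l₁]) (ρ l₁) σ)
    (L₁ : IntermediateField ℚ_[l₁] (AlgebraicClosure ℚ_[l₁])) (i : M →+* L₁)
    (h : Matrix ι ι (AlgebraicClosure ℚ_[l₁]))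
    (hh : h ∈ hodgeProj (img (AlgebraicClosure ℚ_[l₁]) (ρ l₁) ⊤)) (h0 : h ≠ 0) (h1 : h ≠ 1)
    (H' : Subgroup G) (hH' : H'.FiniteIndex)
    (hgen : img (AlgebraicClosure ℚ_[l₁]) (ρ l₁) H' ⊆
      zar (Submonoid.closure (cocharConj L₁ (AlgebraicClosure ℚ_[l₁]) (ρ l₁) h) :
        Set (Matrix ι ι (AlgebraicClosure ℚ_[l₁]))))
    (num : ∀ b, NumCond L₁ (AlgebraicClosure ℚ_[l₁]) (ρ l₁) h
      ((e b).map ((algebraMap L₁ (AlgebraicClosure ℚ_[l₁])).comp i)) (e b).rank) :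
    ∀ (l : ℕ) [Fact l.Prime], l ∈ Λ → ∀ H : Subgroup G, H.FiniteIndex →
      monodromy (AlgebraicClosure ℚ_[l]) (ρ l) H = similD (AlgebraicClosure ℚ_[l]) ψ D := by
  classical
  have hspl1 : IsSplitting D ψ id (fun b => (e b).map i) := hspl.map i
  have hrank1 : ∀ b, ((e b).map i).rank = (e b).rank := fun b => rank_idem_map (hspl.idem b) _
  obtain ⟨hq0, hind, hcard⟩ := at_one hψ hψ0 D (ρ l₁) (lin l₁ hl₁) (sim l₁ hl₁) (semis l₁ hl₁)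
    (commt l₁ hl₁) hspl1 hh h0 h1 hH' hgen (by
      intro b
      rw [hrank1, Matrix.map_map]
      exact num b) hq (mult l₁ hl₁) (char l₁ hl₁) (diag l₁ hl₁) torus
  intro l _ hl H hH
  let j : M →+* AlgebraicClosure ℚ_[l] := (IsAlgClosed.lift : M →ₐ[ℚ] AlgebraicClosure ℚ_[l])
  have hspl2 : IsSplitting D ψ id (fun b => (e b).map j) := hspl.map j
  refine full_other hψ hψ0 D (ρ l) (lin l hl) (sim l hl) (semis l hl) (commt l hl) hspl2 hq0 hq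
    (mult l hl) (char l hl) (diag l hl) hind ?_ H hH
  rw [hcard]
  exact Finset.sum_congr rfl fun b _ => by
    rw [hrank1, rank_idem_map (hspl.idem b)]

end Pool.Agent.H76T
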