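import Pool.Agent.Lib.H76T.TE3

/-!
# The Lie algebra at the first prime; independence of the roots
-/

set_option autoImplicit false
set_option linter.unusedSectionVars false
namespace Pool.Agent.H76T
open Module Matrix Polynomial Pool.Agent.H53Toric
open Pool.Agent.H76U (IsSplitting rank_idem_map)
open Pool.Agent.H76RM (van spanK similD Seed Setup Split comm_span split_of mk_setup exists_prime
  zlie_commute)
open Pool.Agent.H49M (idc TorusCond)

variable {ι : Type*} [Fintype ι] [DecidableEq ι]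
variable {L : Type*} [Field L] {K : Type*} [Field K] [Algebra L K] {G : Type*} [Group G]

/-- The Lie algebra contains the natural extensions of all transvections. -/
theorem lie_seed {ψ : Matrix ι ι ℚ}
    (hψ : ψᵀ = -ψ) (hψ0 : ψ.det ≠ 0) (D : Subalgebra ℚ (Matrix ι ι ℚ)) [CharZero L]
    [IsAlgClosed K] [CharZero K]
    (ρ : G →* Matrix.GeneralLinearGroup ι L)
    (lin : ∀ σ : G, ∀ d ∈ D, (ρ σ).1 * d.map (algebraMap ℚ L) =
      d.map (algebraMap ℚ L) * (ρ σ).1)
    (sim : ∀ σ : G, ∃ c : L, (ρ σ).1ᵀ * ψ.map (algebraMap ℚ L) * (ρ σ).1 =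
      c • ψ.map (algebraMap ℚ L))
    (semis : ∀ H : Subgroup G, H.FiniteIndex → ∀ W : Submodule K (ι → K),
      (∀ s ∈ img K ρ H, ∀ w ∈ W, s *ᵥ w ∈ W) →
      ∃ W' : Submodule K (ι → K), (∀ s ∈ img K ρ H, ∀ w ∈ W', s *ᵥ w ∈ W') ∧ IsCompl W W')
    (commt : ∀ H : Subgroup G, H.FiniteIndex → ∀ y : Matrix ι ι K,
      (∀ s ∈ img K ρ H, y * s = s * y) → y ∈ spanK K D)
    {m : ℕ} {e : Fin m → Matrix ι ι K} (hspl : IsSplitting D ψ id e)
    (seed : ∀ H₀ : Subgroup G, H₀.FiniteIndex → (van (img K ρ H₀)).IsPrime →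
      ∀ b, Seed (om (ψ.map (algebraMap ℚ K))) (fun b => phi (e b))
        (lieE (ψ.map (algebraMap ℚ K)) (img K ρ H₀)) b) (b : Fin m) (u : ι → K)
    (hu : e b *ᵥ u = u) :
    ∃ X : Matrix ι ι K, Xᵀ * ψ.map (algebraMap ℚ K) + ψ.map (algebraMap ℚ K) * X = 0 ∧
      (∀ d ∈ spanK K D, X * d = d * X) ∧
      (∀ z, X *ᵥ (e b *ᵥ z) = om (ψ.map (algebraMap ℚ K)) z u • u) ∧
      ∀ c, c ≠ b → X * e c = 0 := by
  classical
  obtain ⟨hJ, hdet⟩ := gram_basic hψ hψ0 K
  have hsplR : H76RM.IsSplitting D ψ e :=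
    ⟨hspl.mem, hspl.idem, hspl.adj, hspl.corner, hspl.orth, hspl.full⟩
  have hspl' := split_of hsplR
  set J : Matrix ι ι K := ψ.map (algebraMap ℚ K) with hJdef
  have hlinK : ∀ σ : G, ∀ d ∈ D, (ρ σ).1.map (algebraMap L K) * d.map (algebraMap ℚ K) =
      d.map (algebraMap ℚ K) * (ρ σ).1.map (algebraMap L K) := by
    intro σ d hd
    have h1 := congrArg (fun m : Matrix ι ι L => m.map (algebraMap L K)) (lin σ d hd)
    have h2 : (d.map (algebraMap ℚ L)).map (algebraMap L K) = d.map (algebraMap ℚ K) := by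
      ext i j
      simp
    simp only [Matrix.map_mul] at h1
    rw [h2] at h1
    exact h1
  have hsimG : ∀ x : G, ∃ c : K, ((ρ x).1.map (algebraMap L K))ᵀ * J *
      (ρ x).1.map (algebraMap L K) = c • J := by
    intro x
    obtain ⟨c, hc⟩ := sim x
    exact ⟨_, sim_map hc⟩
  have hne : J ≠ 0 := by
    intro h0
    apply hspl.ne_zero b
    have hι : IsEmpty ι := by
      by_contra hcon
      rw [not_isEmpty_iff] at hcon
      rw [h0, Matrix.det_zero] at hdet
      exact not_isUnit_zero hdet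
    ext i
    exact (hι.false i).elim
  obtain ⟨H₀, hle, hfin, hprime⟩ := exists_prime (K := K) ρ ⊤ inferInstance
  have hrange := range_rep K ρ H₀
  set R := rep K ρ H₀ with hR
  have hsetup : Setup (om J) (fun b => phi (e b)) (lieE J (Set.range R)) (H76RM.opr R) := by
    apply mk_setup hspl' hJ hdet hne R
    · intro y
      exact hsimG y.1
    · intro y d hd
      exact comm_span (hlinK y.1) d hd
    · rw [hrange]; exact hprime
    · intro W hW
      obtain ⟨W', h1, h2⟩ := semis H₀ hfin W (by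
        rw [← hrange]
        rintro _ ⟨y, rfl⟩ w hw
        exact hW y w hw)
      refine ⟨W', ?_, h2⟩
      intro y w hw
      apply h1 _ _ _ hw
      rw [← hrange]
      exact Set.mem_range_self y
    · intro y hy
      apply commt H₀ hfin y
      rw [← hrange]
      rintro _ ⟨z, rfl⟩
      exact hy z
  rw [hrange] at hsetup
  obtain ⟨A, hA, h1, h2⟩ := hsetup.main (seed H₀ hfin hprime) (b := b) (w := u)
    (by rw [phi_apply]; exact hu)
  obtain ⟨X, rfl⟩ := (phi (ι := ι) (K := K)).surjective A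
  obtain ⟨hX1, hX2⟩ := mem_lieE.1 hA
  refine ⟨X, (skew_iff hdet X).1 hX2, ?_, ?_, ?_⟩
  · intro d hd
    refine zlie_commute (img_one ρ H₀) ?_ hX1
    rintro _ ⟨y, -, rfl⟩
    exact comm_span (hlinK y) d hd
  · intro z
    have h3 : (phi X * phi (e b)) z = trv (om J) u z :=
      congrArg (fun f : Module.End K (ι → K) => f z) h1
    rw [← phi_apply, ← phi_apply]
    exact h3
  · intro c hc
    apply (phi (ι := ι) (K := K)).injective
    rw [map_mul, map_zero]
    exact h2 c hc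

/-- **The roots are independent** if the monodromy group at one prime is known. -/
theorem indep_one {ψ : Matrix ι ι ℚ}
    (hψ : ψᵀ = -ψ) (hψ0 : ψ.det ≠ 0) (D : Subalgebra ℚ (Matrix ι ι ℚ)) [CharZero L]
    [IsAlgClosed K] [CharZero K]
    (ρ : G →* Matrix.GeneralLinearGroup ι L)
    (lin : ∀ σ : G, ∀ d ∈ D, (ρ σ).1 * d.map (algebraMap ℚ L) =
      d.map (algebraMap ℚ L) * (ρ σ).1)
    {m : ℕ} {e : Fin m → Matrix ι ι K} (hspl : IsSplitting D ψ id e)
    (hlie : ∀ (b : Fin m) (u : ι → K), e b *ᵥ u = u →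
      ∃ X : Matrix ι ι K, Xᵀ * ψ.map (algebraMap ℚ K) + ψ.map (algebraMap ℚ K) * X = 0 ∧
      (∀ d ∈ spanK K D, X * d = d * X) ∧
      (∀ z, X *ᵥ (e b *ᵥ z) = om (ψ.map (algebraMap ℚ K)) z u • u) ∧
      ∀ c, c ≠ b → X * e c = 0)
    (hmon : ∀ H : Subgroup G, H.FiniteIndex → monodromy K ρ H = similD K ψ D)
    {σ : G} {q : ℚ} (hq0 : q ≠ 0)
    (hmult : (ρ σ).1ᵀ * ψ.map (algebraMap ℚ L) * (ρ σ).1 =
      algebraMap ℚ L q • ψ.map (algebraMap ℚ L))
    {F : ℚ[X]} (hchar : (ρ σ).1.charpoly = F.map (algebraMap ℚ L))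
    (hss : Diagonalisable ((ρ σ).1.map (algebraMap L K))) (torus : TorusCond K ρ σ) :
    AllIndep F q (AlgebraicClosure ℚ) ∧
      nroots F (AlgebraicClosure ℚ) = ∑ b, (e b).rank := by
  classical
  obtain ⟨hJ, hdet⟩ := gram_basic hψ hψ0 K
  obtain ⟨P, Q, d, hPQ, hQP, hx, hd, hF⟩ := diag_data ρ hchar hss
  have hsplR : H76RM.IsSplitting D ψ e :=
    ⟨hspl.mem, hspl.idem, hspl.adj, hspl.corner, hspl.orth, hspl.full⟩
  have hspl' := split_of hsplR
  set J : Matrix ι ι K := ψ.map (algebraMap ℚ K) with hJdef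
  set x := (ρ σ).1.map (algebraMap L K) with hxdef
  have hlinK : ∀ d ∈ D, x * d.map (algebraMap ℚ K) = d.map (algebraMap ℚ K) * x := by
    intro d hd
    have h1 := congrArg (fun m : Matrix ι ι L => m.map (algebraMap L K)) (lin σ d hd)
    have h2 : (d.map (algebraMap ℚ L)).map (algebraMap L K) = d.map (algebraMap ℚ K) := by
      ext i j
      simp
    simp only [Matrix.map_mul] at h1
    rw [h2] at h1
    exact h1
  have hxD : ∀ d ∈ spanK K D, x * d = d * x := comm_span hlinK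
  have hsim : xᵀ * J * x = algebraMap ℚ K q • J := by
    have := sim_map (K := K) hmult
    rwa [show algebraMap L K (algebraMap ℚ L q) = algebraMap ℚ K q by simp] at this
  have hq0K : algebraMap ℚ K q ≠ 0 := by
    rw [Ne, map_eq_zero]
    exact hq0
  have htor : ∀ y : Matrix ι ι K, y.det ≠ 0 → (∀ d ∈ spanK K D, y * d = d * y) →
      (∃ c : K, yᵀ * J * y = c • J) → y * x = x * y → y ∈ zar {m | ∃ n : ℕ, m = x ^ n} := by
    intro y hy0 hyD hyc hyx
    refine torus y ⟨hy0, fun H hH => ?_⟩ hyx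
    have h1 : y ∈ similD K ψ D :=
      ⟨hy0, fun d hd => hyD _ (Submodule.subset_span ⟨d, hd, rfl⟩), hyc⟩
    rw [← hmon H hH] at h1
    exact h1.2
  constructor
  · exact all_indep hspl' hJ hdet hq0K hsim hxD hx hPQ hQP hd hlie htor hF
  · rw [← nroots_eq hF]
    exact card_eig hspl' hJ hdet hq0K hsim hxD hx hPQ hQP hd hlie htor

end Pool.Agent.H76T
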