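import Pool.Agent.Lib.H76T.TD6

/-!
# Independence of all roots from one prime
-/

set_option autoImplicit false
set_option linter.unusedSectionVars false
namespace Pool.Agent.H76T
open Module Matrix Polynomial Pool.Agent.H53Toric
open Pool.Agent.H76RM (Split)

variable {ι : Type*} [Fintype ι] [DecidableEq ι] {K : Type*} [Field K] [CharZero K]
variable {B : Type*} [Fintype B] [DecidableEq B] {J : Matrix ι ι K}
  {DD : Submodule K (Matrix ι ι K)} {e : B → Matrix ι ι K} (h : Split J DD e)
  (hJ : Jᵀ = -J) (hdet : IsUnit J.det) {x : Matrix ι ι K} {q : ℚ}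
  (hq : algebraMap ℚ K q ≠ 0)
  (hsim : xᵀ * J * x = algebraMap ℚ K q • J) (hxD : ∀ d ∈ DD, x * d = d * x)
  {P Q : Matrix ι ι K} {d : ι → K}
  (hx : x = P * Matrix.diagonal d * Q) (hPQ : P * Q = 1) (hQP : Q * P = 1)
  (hd : ∀ k, d k ≠ 0)
  (hlie : ∀ b u, e b *ᵥ u = u → ∃ X : Matrix ι ι K, Xᵀ * J + J * X = 0 ∧
    (∀ d ∈ DD, X * d = d * X) ∧ (∀ z, X *ᵥ (e b *ᵥ z) = om J z u • u) ∧ ∀ c, c ≠ b → X * e c = 0)
  (htor : ∀ y : Matrix ι ι K, y.det ≠ 0 → (∀ d ∈ DD, y * d = d * y) →
    (∃ c : K, yᵀ * J * y = c • J) → y * x = x * y → y ∈ zar {m | ∃ n : ℕ, m = x ^ n})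
  [IsAlgClosed K] {F : ℚ[X]} (hchar : F.map (algebraMap ℚ K) = ∏ k, (X - C (d k)))

include h hJ hdet hq hsim hxD hx hPQ hQP hd hlie htor hchar in
theorem all_indep : AllIndep F q (AlgebraicClosure ℚ) := by
  classical
  intro α hα
  obtain ⟨k₀, hk₀⟩ := (root_iff hchar).1 ((aeval_emb (K := K) (α : AlgebraicClosure ℚ)).2 hα)
  obtain ⟨b, v, w, hbv, hbw, hv, hw, hvw⟩ := eig_pair h hdet hq hsim hxD hx hPQ hQP hd k₀
  obtain ⟨-, -, hne⟩ := torus_simple h hJ hdet hq hsim hxD hx hPQ hQP hd hlie htor hbv hbw hv hw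
    hvw
  have hw0 : w ≠ 0 := by
    rintro rfl
    rw [map_zero] at hvw
    exact zero_ne_one hvw
  obtain ⟨k₁, hk₁⟩ := eig_mem hx hPQ hQP hw hw0
  have haa : d k₀ * (algebraMap ℚ K q / d k₀) = algebraMap ℚ K q := mul_div_cancel₀ _ (hd k₀)
  have hne' : algebraMap ℚ K q / d k₀ ≠ d k₀ := by
    intro h0
    apply hne
    nth_rw 2 [← h0]
    exact haa
  have hrel := torus_rel h hJ hdet hq hsim hxD hx hPQ hQP hd hlie htor k₀
  constructor
  · intro h1
    have h2 := congrArg (embQ K) h1
    rw [map_mul, AlgHom.commutes, ← hk₀] at h2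
    exact hne h2
  intro n hn hmem
  have key : ∀ u ∈ others F q α, ∃ m : ι → ℤ,
      ∑ k, (if d k = d k₀ then m k else 0) =
        ∑ k, (if d k = algebraMap ℚ K q / d k₀ then m k else 0) ∧
      embQ K (u : AlgebraicClosure ℚ) = ∏ k, d k ^ m k := by
    intro u hu
    induction hu using Subgroup.closure_induction with
    | mem u hu =>
      rcases hu with hu | ⟨h1, h2, h3⟩
      · refine ⟨Pi.single k₀ 1 + Pi.single k₁ 1, ?_, ?_⟩
        · simp only [Pi.add_apply, ite_add_zero]
          rw [Finset.sum_add_distrib, Finset.sum_add_distrib]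
          have e1 : ∀ (a : K) (k' : ι), ∑ k, (if d k = a then
              (Pi.single k' (1 : ℤ) : ι → ℤ) k else 0) = if d k' = a then 1 else 0 := by
            intro a k'
            rw [Finset.sum_eq_single k']
            · rw [Pi.single_eq_same]
            · intro k _ hk
              rw [Pi.single_eq_of_ne hk]
              split_ifs <;> rfl
            · intro hk
              exact absurd (Finset.mem_univ _) hk
          rw [e1, e1, e1, e1, if_pos rfl, hk₁, if_neg hne', if_neg (Ne.symm hne'), if_pos rfl]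
          norm_num
        · rw [hu, AlgHom.commutes]
          have e1 : ∏ k, d k ^ (Pi.single k₀ (1 : ℤ) + Pi.single k₁ (1 : ℤ) : ι → ℤ) k =
              (∏ k, d k ^ (Pi.single k₀ (1 : ℤ) : ι → ℤ) k) *
              ∏ k, d k ^ (Pi.single k₁ (1 : ℤ) : ι → ℤ) k := by
            rw [← Finset.prod_mul_distrib]
            exact Finset.prod_congr rfl fun k _ => by rw [Pi.add_apply, zpow_add₀ (hd k)]
          have e2 : ∀ k' : ι, ∏ k, d k ^ (Pi.single k' (1 : ℤ) : ι → ℤ) k = d k' := by
            intro k'
            rw [Finset.prod_eq_single k']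
            · rw [Pi.single_eq_same, zpow_one]
            · intro k _ hk
              rw [Pi.single_eq_of_ne hk, _root_.zpow_zero]
            · intro hk
              exact absurd (Finset.mem_univ _) hk
          rw [e1, e2, e2, hk₁, haa]
      · obtain ⟨k, hk⟩ := (root_iff hchar).1 ((aeval_emb (K := K) (u : AlgebraicClosure ℚ)).2 h1)
        have hinj : Function.Injective (embQ K) := (embQ K).toRingHom.injective
        have hk1 : d k ≠ d k₀ := by
          intro h4
          apply h2
          apply Units.ext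
          apply hinj
          rw [← hk, h4, hk₀]
        have hk2 : d k ≠ algebraMap ℚ K q / d k₀ := by
          intro h4
          apply h3
          apply hinj
          rw [map_mul, AlgHom.commutes, ← hk, ← hk₀, h4, mul_comm, haa]
        refine ⟨Pi.single k 1, ?_, ?_⟩
        · have e1 : ∀ (a : K), d k ≠ a → ∑ k'', (if d k'' = a then
              (Pi.single k (1 : ℤ) : ι → ℤ) k'' else 0) = 0 := by
            intro a ha
            apply Finset.sum_eq_zero
            intro k'' _
            by_cases h5 : k'' = k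
            · rw [h5, if_neg ha]
            · rw [Pi.single_eq_of_ne h5]
              split_ifs <;> rfl
          rw [e1 _ hk1, e1 _ hk2]
        · rw [← hk, Finset.prod_eq_single k]
          · rw [Pi.single_eq_same, zpow_one]
          · intro k'' _ hk''
            rw [Pi.single_eq_of_ne hk'', _root_.zpow_zero]
          · intro hk''
            exact absurd (Finset.mem_univ _) hk''
    | one => exact ⟨fun _ => 0, by simp, by simp⟩
    | mul u v _ _ hu hv =>
      obtain ⟨m, h1, h2⟩ := hu
      obtain ⟨m', h1', h2'⟩ := hv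
      refine ⟨m + m', ?_, ?_⟩
      · simp only [Pi.add_apply, ite_add_zero]
        rw [Finset.sum_add_distrib, Finset.sum_add_distrib, h1, h1']
      · rw [Units.val_mul, map_mul, h2, h2', ← Finset.prod_mul_distrib]
        exact Finset.prod_congr rfl fun k _ => by rw [Pi.add_apply, zpow_add₀ (hd k)]
    | inv u _ hu =>
      obtain ⟨m, h1, h2⟩ := hu
      refine ⟨-m, ?_, ?_⟩
      · have e1 : ∀ a : K, ∑ k, (if d k = a then (-m) k else 0) =
            -∑ k, (if d k = a then m k else 0) := by
          intro a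
          rw [← Finset.sum_neg_distrib]
          apply Finset.sum_congr rfl
          intro k _
          split_ifs
          · rfl
          · rw [neg_zero]
        rw [e1, e1, h1]
      · rw [Units.val_inv_eq_inv_val, map_inv₀, h2, ← Finset.prod_inv_distrib]
        exact Finset.prod_congr rfl fun k _ => by rw [Pi.neg_apply, _root_.zpow_neg]
  obtain ⟨m, h1, h2⟩ := key _ hmem
  have h3 : ∏ k, d k ^ (m - Pi.single k₀ n : ι → ℤ) k = 1 := by
    have e1 : ∏ k, d k ^ (m - Pi.single k₀ n : ι → ℤ) k =
        (∏ k, d k ^ m k) / ∏ k, d k ^ (Pi.single k₀ n : ι → ℤ) k := by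
      rw [← Finset.prod_div_distrib]
      exact Finset.prod_congr rfl fun k _ => by rw [Pi.sub_apply, zpow_sub₀ (hd k)]
    have e2 : ∏ k, d k ^ (Pi.single k₀ n : ι → ℤ) k = d k₀ ^ n := by
      rw [Finset.prod_eq_single k₀]
      · rw [Pi.single_eq_same]
      · intro k _ hk
        rw [Pi.single_eq_of_ne hk, _root_.zpow_zero]
      · intro hk
        exact absurd (Finset.mem_univ _) hk
    rw [e1, e2, ← h2, Units.val_zpow_eq_zpow_val, map_zpow₀, ← hk₀,
      div_self (zpow_ne_zero _ (hd k₀))]
  have h4 := hrel _ h3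
  have e1 : ∀ a : K, ∑ k, (if d k = a then (m - Pi.single k₀ n : ι → ℤ) k else 0) =
      ∑ k, (if d k = a then m k else 0) - (if d k₀ = a then n else 0) := by
    intro a
    have e2 : ∑ k, (if d k = a then (Pi.single k₀ n : ι → ℤ) k else 0) =
        if d k₀ = a then n else 0 := by
      rw [Finset.sum_eq_single k₀]
      · rw [Pi.single_eq_same]
      · intro k _ hk
        rw [Pi.single_eq_of_ne hk]
        split_ifs <;> rfl
      · intro hk
        exact absurd (Finset.mem_univ _) hk
    rw [← e2, ← Finset.sum_sub_distrib]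
    apply Finset.sum_congr rfl
    intro k _
    split_ifs
    · rfl
    · rw [sub_zero]
  rw [e1, e1, h1, if_pos rfl, if_neg (Ne.symm hne')] at h4
  omega

end Pool.Agent.H76T
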