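import Pool.Agent.Lib.H49M.R3
import Pool.Agent.Lib.H49M.B9

/-!
# Types I and II, one prime: definitions for the component theorem

`L` is an irreducible Lie algebra of operators of `K ^ κ`, skew for the alternating form with Gram
matrix `J`; `θ δ` are semilinear automorphisms of the algebra of all operators which preserve
`L` and commute with the adjoint; `y` is an involution in `L` such that only the scalars commute
with all the `θ δ y`.
-/

set_option autoImplicit false
set_option linter.unusedSectionVars false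
namespace Pool.Agent.H76T
open Module Matrix Pool.Agent.H53Toric

section
variable {K : Type*} [Field K] {V : Type*} [AddCommGroup V] [Module K V]

/-- An ideal of the Lie algebra `L` of operators. -/
def IsIdeal (L I : Submodule K (Module.End K V)) : Prop :=
  I ≤ L ∧ ∀ X ∈ L, ∀ Y ∈ I, X * Y - Y * X ∈ I

/-- The family of the minimal ideals of `L`. -/
structure Fam (L : Submodule K (Module.End K V)) {m : ℕ}
    (I : Fin m → Submodule K (Module.End K V)) : Prop where
  ideal : ∀ j, IsIdeal L (I j)
  ne_bot : ∀ j, I j ≠ ⊥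
  min : ∀ j J, IsIdeal L J → J ≤ I j → J = ⊥ ∨ J = I j
  comm : ∀ i j, i ≠ j → ∀ X ∈ I i, ∀ Y ∈ I j, X * Y = Y * X
  sup : (⨆ j, I j) = L
  inj : Function.Injective I

/-- The image of a space of operators under a semilinear ring automorphism. -/
def mv (σ : K ≃+* K) (θ : Module.End K V ≃+* Module.End K V)
    (hθ : ∀ (c : K) X, θ (c • X) = σ c • θ X) (I : Submodule K (Module.End K V)) :
    Submodule K (Module.End K V) where
  carrier := {X | θ.symm X ∈ I}
  add_mem' := by
    intro X Y hX hY
    change θ.symm (X + Y) ∈ I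
    rw [map_add]
    exact I.add_mem hX hY
  zero_mem' := by
    change θ.symm 0 ∈ I
    rw [map_zero]
    exact I.zero_mem
  smul_mem' := by
    intro c X hX
    change θ.symm (c • X) ∈ I
    have h1 : θ.symm (c • X) = σ.symm c • θ.symm X := by
      apply θ.injective
      rw [hθ, RingEquiv.apply_symm_apply, RingEquiv.apply_symm_apply, RingEquiv.apply_symm_apply]
    rw [h1]
    exact I.smul_mem _ hX

theorem mem_mv {σ : K ≃+* K} {θ : Module.End K V ≃+* Module.End K V}
    {hθ : ∀ (c : K) X, θ (c • X) = σ c • θ X} {I : Submodule K (Module.End K V)}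
    {X : Module.End K V} : X ∈ mv σ θ hθ I ↔ θ.symm X ∈ I := Iff.rfl

theorem mem_mv' {σ : K ≃+* K} {θ : Module.End K V ≃+* Module.End K V}
    {hθ : ∀ (c : K) X, θ (c • X) = σ c • θ X} {I : Submodule K (Module.End K V)}
    {X : Module.End K V} : θ X ∈ mv σ θ hθ I ↔ X ∈ I := by
  rw [mem_mv, RingEquiv.symm_apply_apply]

theorem mv_inj {σ : K ≃+* K} {θ : Module.End K V ≃+* Module.End K V}
    {hθ : ∀ (c : K) X, θ (c • X) = σ c • θ X} {I J : Submodule K (Module.End K V)}
    (h : mv σ θ hθ I = mv σ θ hθ J) : I = J := by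
  ext X
  rw [← mem_mv' (hθ := hθ) (I := I), h, mem_mv']

end

/-- The standing assumptions of the component theorem. -/
structure Orb {κ : Type*} [Fintype κ] [DecidableEq κ] {K : Type*} [Field K]
    (L : Submodule K (Module.End K (κ → K))) (J : Matrix κ κ K) {Δ : Type*}
    (σ : Δ → K ≃+* K) (θ : Δ → Module.End K (κ → K) ≃+* Module.End K (κ → K))
    (y : Module.End K (κ → K)) : Prop where
  lie : IsLie L
  irr : Irr L
  Jt : Jᵀ = -J
  Jd : IsUnit J.det
  skew : ∀ X ∈ L, adjE J X = -X
  semi : ∀ δ (c : K) X, θ δ (c • X) = σ δ c • θ δ X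
  stab : ∀ δ X, X ∈ L ↔ θ δ X ∈ L
  adjθ : ∀ δ X, adjE J (θ δ X) = θ δ (adjE J X)
  y_mem : y ∈ L
  y_sq : y * y = 1
  gen : ∀ T : Module.End K (κ → K), (∀ δ, T * θ δ y = θ δ y * T) → ∃ c : K, T = c • 1

section
variable {κ : Type*} [Fintype κ] [DecidableEq κ] {K : Type*} [Field K] [CharZero K]
variable {L : Submodule K (Module.End K (κ → K))} {J : Matrix κ κ K} {Δ : Type*}
    {σ : Δ → K ≃+* K} {θ : Δ → Module.End K (κ → K) ≃+* Module.End K (κ → K)}
    {y : Module.End K (κ → K)}

theorem tr_skew (hJd : IsUnit J.det) {X : Module.End K (κ → K)} (hX : adjE J X = -X) :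
    LinearMap.trace K (κ → K) X = 0 := by
  have h1 := adjE_tr hJd X
  rw [hX, map_neg] at h1
  have h2 : (2 : K) * LinearMap.trace K (κ → K) X = 0 := by linear_combination -h1
  exact (mul_eq_zero.1 h2).resolve_left (by norm_num)

theorem scalar_skew (hJ : Jᵀ = -J) (hJd : IsUnit J.det) {c : K}
    (h : adjE J (c • (1 : Module.End K (κ → K))) = -(c • 1)) :
    (c • (1 : Module.End K (κ → K))) = 0 := by
  have h1 : adjE J (1 : Module.End K (κ → K)) = 1 := by
    have h2 := adjE_mul hJd (adjE J 1) (1 : Module.End K (κ → K))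
    rw [mul_one, adjE_adjE hJ hJd, mul_one] at h2
    exact h2.symm
  rw [map_smul, h1] at h
  have h2 : (2 : K) • (c • (1 : Module.End K (κ → K))) = 0 := by
    rw [two_smul]
    nth_rw 1 [h]
    rw [neg_add_cancel]
  exact (smul_eq_zero.1 h2).resolve_left (by norm_num)

end

end Pool.Agent.H76T
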