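import Pool.Agent.Lib.H76T.T0

/-!
# The minimal ideals of an irreducible Lie algebra of operators of trace zero
-/

set_option autoImplicit false
set_option linter.unusedSectionVars false
namespace Pool.Agent.H76T
open Module Pool.Agent.H53Toric

variable {K : Type*} [Field K] [IsAlgClosed K] [CharZero K] {V : Type*} [AddCommGroup V]
  [Module K V] [FiniteDimensional K V] [Nontrivial V] {L : Submodule K (Module.End K V)}

theorem semisimple (hg : IsLie L) (hirr : Irr L) (htr : ∀ X ∈ L, LinearMap.trace K V X = 0) :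
    LieAlgebra.IsSemisimple K (lieSub L hg) := by
  have hR := lieSub_trivialRadical L hg hirr htr
  have hsymm : ∀ x y : lieSub L hg, LieModule.traceForm K (lieSub L hg) V x y =
      LieModule.traceForm K (lieSub L hg) V y x := LieModule.traceForm_comm K (lieSub L hg) V
  have hval : ∀ x y : lieSub L hg, LieModule.traceForm K (lieSub L hg) V x y =
      LinearMap.trace K V (x.1 * y.1) := fun x y => rfl
  have hsep : ∀ x : lieSub L hg, (∀ y, LieModule.traceForm K (lieSub L hg) V x y = 0) → x = 0 := by
    intro x hx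
    apply Subtype.ext
    exact trace_nondeg hg hirr htr x.2 fun Y hY => by
      rw [← hval x ⟨Y, hY⟩]
      exact hx _
  apply LieAlgebra.InvariantForm.isSemisimple_of_nondegenerate
    (LieModule.traceForm K (lieSub L hg) V)
  · refine ⟨hsep, fun x hx => hsep x fun y => ?_⟩
    rw [hsymm]
    exact hx y
  · exact LieModule.traceForm_lieInvariant K (lieSub L hg) V
  · intro x y hxy
    rw [hsymm]
    exact hxy
  · intro I hI hab
    exact hI.1 ((LieAlgebra.hasTrivialRadical_iff_no_abelian_ideals K (lieSub L hg)).1 hR I hab)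

theorem exists_fam (hg : IsLie L) (hirr : Irr L) (htr : ∀ X ∈ L, LinearMap.trace K V X = 0) :
    ∃ (m : ℕ) (I : Fin m → Submodule K (Module.End K V)), Fam L I := by
  classical
  have hss := semisimple hg hirr htr
  have hfin : {I : LieIdeal K (lieSub L hg) | IsAtom I}.Finite :=
    WellFoundedGT.finite_of_sSupIndep LieAlgebra.IsSemisimple.sSupIndep_isAtom
  have := hfin.fintype
  let n := Fintype.card {I : LieIdeal K (lieSub L hg) | IsAtom I}
  let q : Fin n ≃ {I : LieIdeal K (lieSub L hg) | IsAtom I} := (Fintype.equivFin _).symm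
  let ι' : lieSub L hg →ₗ[K] Module.End K V :=
    { toFun := fun x => x.1, map_add' := fun _ _ => rfl, map_smul' := fun _ _ => rfl }
  let tr : LieIdeal K (lieSub L hg) → Submodule K (Module.End K V) := fun I =>
    I.toSubmodule.map ι'
  have htr' : ∀ I x, (x ∈ tr I ↔ ∃ h : x ∈ L, (⟨x, h⟩ : lieSub L hg) ∈ I) := by
    intro I x
    constructor
    · rintro ⟨z, hz, rfl⟩
      exact ⟨z.2, hz⟩
    · rintro ⟨h, hx⟩
      exact ⟨⟨x, h⟩, hx, rfl⟩
  have hideal : ∀ I, IsIdeal L (tr I) := by
    intro I
    refine ⟨?_, ?_⟩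
    · rintro x hx
      exact ((htr' I x).1 hx).1
    · intro X hX Y hY
      obtain ⟨h, hY'⟩ := (htr' I Y).1 hY
      have h1 := I.lie_mem (x := (⟨X, hX⟩ : lieSub L hg)) hY'
      exact ⟨_, h1, rfl⟩
  have hmono : ∀ I J, tr I ≤ tr J → I ≤ J := by
    intro I J h x hx
    obtain ⟨_, h2⟩ := (htr' J x.1).1 (h ((htr' I x.1).2 ⟨x.2, hx⟩))
    exact h2
  -- every ideal comes from a Lie ideal
  have hback : ∀ J : Submodule K (Module.End K V), IsIdeal L J → ∃ I, tr I = J := by
    intro J hJ
    refine ⟨{ toSubmodule := J.comap ι', lie_mem := ?_ }, ?_⟩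
    · intro x z hz
      exact hJ.2 x.1 x.2 z.1 hz
    · ext x
      rw [htr']
      constructor
      · rintro ⟨_, h⟩
        exact h
      · intro h
        exact ⟨hJ.1 h, h⟩
  have hbot : ∀ I, tr I = ⊥ ↔ I = ⊥ := by
    intro I
    constructor
    · intro h
      rw [eq_bot_iff]
      apply hmono
      rw [h]
      exact bot_le
    · rintro rfl
      rw [eq_bot_iff]
      rintro x hx
      obtain ⟨_, h⟩ := (htr' ⊥ x).1 hx
      rw [LieSubmodule.mem_bot] at h
      rw [Submodule.mem_bot]
      exact congrArg Subtype.val h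
  refine ⟨n, fun j => tr (q j).1, ⟨fun j => hideal _, ?_, ?_, ?_, ?_, ?_⟩⟩
  · intro j h
    exact (q j).2.1 ((hbot _).1 h)
  · intro j J hJ hle
    obtain ⟨I, rfl⟩ := hback J hJ
    have h1 := hmono _ _ hle
    rcases eq_or_ne I (q j).1 with h2 | h2
    · right
      rw [h2]
    · left
      rw [hbot]
      exact (q j).2.2 I (lt_of_le_of_ne h1 h2)
  · intro i j hij X hX Y hY
    obtain ⟨hX1, hX2⟩ := (htr' _ X).1 hX
    obtain ⟨hY1, hY2⟩ := (htr' _ Y).1 hY
    have hne : (q i).1 ≠ (q j).1 := fun h => hij (q.injective (Subtype.ext h))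
    have hdis : Disjoint (q i).1 (q j).1 := (q i).2.disjoint_of_ne (q j).2 hne
    have h1 : (⁅(⟨X, hX1⟩ : lieSub L hg), (⟨Y, hY1⟩ : lieSub L hg)⁆) ∈ ((q i).1 ⊓ (q j).1 :
        LieIdeal K (lieSub L hg)) := by
      refine ⟨?_, (q j).1.lie_mem hY2⟩
      have h2 := (q i).1.lie_mem (x := (⟨Y, hY1⟩ : lieSub L hg)) hX2
      rw [← lie_skew]
      exact (q i).1.neg_mem h2
    rw [hdis.eq_bot, LieSubmodule.mem_bot] at h1
    have h2 := congrArg Subtype.val h1
    have h3 : X * Y - Y * X = 0 := h2
    exact sub_eq_zero.1 h3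
  · apply le_antisymm
    · exact iSup_le fun j => (hideal _).1
    · have h1 : (⊤ : LieIdeal K (lieSub L hg)) ≤ ⨆ j, (q j).1 := by
        rw [← LieAlgebra.IsSemisimple.sSup_atoms_eq_top (R := K) (L := lieSub L hg)]
        apply sSup_le
        intro I hI
        have h2 := le_iSup (fun j => (q j).1) (q.symm ⟨I, hI⟩)
        rwa [Equiv.apply_symm_apply] at h2
      obtain ⟨I, hI⟩ := hback (⨆ j, tr (q j).1) (by
        refine ⟨iSup_le fun j => (hideal _).1, ?_⟩
        intro X hX Y hY
        induction hY using Submodule.iSup_induction' with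
        | mem j Y hY => exact Submodule.mem_iSup_of_mem j ((hideal _).2 X hX Y hY)
        | zero => simp
        | add a b _ _ ha hb =>
          have e : X * (a + b) - (a + b) * X = (X * a - a * X) + (X * b - b * X) := by
            rw [mul_add, add_mul]; abel
          rw [e]
          exact Submodule.add_mem _ ha hb)
      have h2 : (⨆ j, (q j).1) ≤ I := by
        apply iSup_le
        intro j
        apply hmono
        rw [hI]
        exact le_iSup (fun j => tr (q j).1) j
      intro X hX
      have h3 : (⟨X, hX⟩ : lieSub L hg) ∈ I := h2 (h1 (LieSubmodule.mem_top _))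
      rw [← hI]
      exact (htr' I X).2 ⟨hX, h3⟩
  · intro i j hij
    apply q.injective
    apply Subtype.ext
    exact le_antisymm (hmono _ _ (le_of_eq hij)) (hmono _ _ (ge_of_eq hij))

end Pool.Agent.H76T
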