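import Pool.Agent.Lib.H76T.TA1

/-!
# Quadratic elements belong to one minimal ideal
-/

set_option autoImplicit false
set_option linter.unusedSectionVars false
namespace Pool.Agent.H76T
open Module Matrix Pool.Agent.H53Toric

section
variable {K : Type*} [Field K] [IsAlgClosed K] {V : Type*} [AddCommGroup V]
  [Module K V] [FiniteDimensional K V] [Nontrivial V]

theorem adjoin_top {s : Set (Module.End K V)}
    (hirr : ∀ W : Submodule K V, (∀ X ∈ s, ∀ w ∈ W, X w ∈ W) → W = ⊥ ∨ W = ⊤) :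
    Algebra.adjoin K s = ⊤ := by
  set A := Algebra.adjoin K s with hA
  have hsm : ∀ (a : A) (v : V), a • v = a.1 v := fun _ _ => rfl
  have hsimple : IsSimpleModule A V := by
    rw [isSimpleModule_iff]
    refine { eq_bot_or_eq_top := fun W => ?_ }
    rcases hirr (W.restrictScalars K) (fun X hX w hw => by
      have h1 := W.smul_mem (⟨X, Algebra.subset_adjoin hX⟩ : A) hw
      exact h1) with h | h
    · left
      rw [eq_bot_iff]
      intro v hv
      have h1 : v ∈ W.restrictScalars K := hv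
      rw [h] at h1
      exact (Submodule.mem_bot K).1 h1
    · right
      rw [eq_top_iff]
      intro v _
      have h1 : v ∈ (⊤ : Submodule K V) := trivial
      rw [← h] at h1
      exact h1
  rw [eq_top_iff]
  intro f _
  obtain ⟨r, hr⟩ := H49M.B8a_burnside (K := K) (A := A) (M := V) f
  have : r.1 = f := by
    rw [← hr]
    ext v
    rfl
  rw [← this]
  exact r.2

end

section
variable {κ : Type*} [Fintype κ] [DecidableEq κ] {K : Type*} [Field K]

theorem adjoin_comap {s : Set (Module.End K (κ → K))} (h : Algebra.adjoin K s = ⊤) :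
    Algebra.adjoin K ((phi (ι := κ) (K := K)) ⁻¹' s) = ⊤ := by
  rw [eq_top_iff]
  intro X _
  have h1 : (phi (ι := κ) (K := K)) X ∈ Algebra.adjoin K s := by rw [h]; trivial
  have h2 : s = (phi (ι := κ) (K := K)) '' ((phi (ι := κ) (K := K)) ⁻¹' s) := by
    rw [Set.image_preimage_eq _ (phi (ι := κ) (K := K)).surjective]
  rw [h2] at h1
  have h3 := AlgHom.map_adjoin (phi (ι := κ) (K := K)).toAlgHom
    ((phi (ι := κ) (K := K)) ⁻¹' s)
  have h4 : (phi (ι := κ) (K := K)) X ∈ (Algebra.adjoin K ((phi (ι := κ) (K := K)) ⁻¹' s)).map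
      (phi (ι := κ) (K := K)).toAlgHom := by
    rw [h3]
    exact h1
  obtain ⟨Y, hY, hYX⟩ := h4
  have h5 : Y = X := (phi (ι := κ) (K := K)).injective hYX
  rw [← h5]
  exact hY

theorem disj [CharZero K] {I₁ I₂ : Submodule K (Module.End K (κ → K))}
    (hcomm : ∀ X ∈ I₁, ∀ Y ∈ I₂, X * Y = Y * X)
    (hfull : Algebra.adjoin K ((I₁ : Set (Module.End K (κ → K))) ∪ I₂) = ⊤)
    {Y₁ Y₂ : Module.End K (κ → K)} (h1 : Y₁ ∈ I₁) (h2 : Y₂ ∈ I₂) {a b : K}
    (hq : (Y₁ + Y₂) * (Y₁ + Y₂) + a • (Y₁ + Y₂) + b • (1 : Module.End K (κ → K)) = 0) :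
    (∃ c : K, Y₁ = c • 1) ∨ (∃ c : K, Y₂ = c • 1) := by
  obtain ⟨y₁, rfl⟩ := (phi (ι := κ) (K := K)).surjective Y₁
  obtain ⟨y₂, rfl⟩ := (phi (ι := κ) (K := K)).surjective Y₂
  have hone : phi (1 : Matrix κ κ K) = 1 := map_one _
  have hinj := (phi (ι := κ) (K := K)).injective
  have h3 := H49M.B5_disj (I₁ := I₁.comap (phi (ι := κ) (K := K)).toLinearMap)
    (I₂ := I₂.comap (phi (ι := κ) (K := K)).toLinearMap) (Y₁ := y₁) (Y₂ := y₂) (a := a) (b := b)
    (by
      intro X hX Y hY
      apply hinj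
      rw [map_mul, map_mul]
      exact hcomm _ hX _ hY)
    (by
      have h4 := adjoin_comap hfull
      exact h4)
    h1 h2
    (by
      apply hinj
      rw [map_zero, ← hq, ← hone, ← map_add, ← map_mul, ← map_smul, ← map_smul, ← map_add,
        ← map_add])
  rcases h3 with ⟨c, hc⟩ | ⟨c, hc⟩
  · left
    exact ⟨c, by rw [hc, map_smul, hone]⟩
  · right
    exact ⟨c, by rw [hc, map_smul, hone]⟩

variable [IsAlgClosed K] [CharZero K] [Nonempty κ]
variable {L : Submodule K (Module.End K (κ → K))} {m : ℕ}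
    {I : Fin m → Submodule K (Module.End K (κ → K))}

theorem Fam.top (hF : Fam L I) (hirr : Irr L) :
    Algebra.adjoin K (⋃ j, (I j : Set (Module.End K (κ → K)))) = ⊤ := by
  apply adjoin_top
  intro W hW
  apply hirr
  intro X hX
  rw [← hF.sup] at hX
  induction hX using Submodule.iSup_induction' with
  | mem j X hX => exact hW X (Set.mem_iUnion.2 ⟨j, hX⟩)
  | zero => intro w _; exact W.zero_mem
  | add a b _ _ ha hb => intro w hw; exact W.add_mem (ha w hw) (hb w hw)

/-- A quadratic element of trace zero belongs to one of the minimal ideals. -/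
theorem Fam.one (hF : Fam L I) (hirr : Irr L) (htr : ∀ X ∈ L, LinearMap.trace K (κ → K) X = 0)
    {Y : Module.End K (κ → K)} (hY : Y ∈ L) (hY0 : Y ≠ 0) {a b : K}
    (hq : Y * Y + a • Y + b • (1 : Module.End K (κ → K)) = 0) : ∃ j, Y ∈ I j := by
  classical
  have hsc : ∀ X ∈ L, (∃ c : K, X = c • 1) → X = 0 := by
    rintro X hX ⟨c, rfl⟩
    have h1 := htr _ hX
    rw [map_smul, LinearMap.trace_one, smul_eq_mul, mul_eq_zero] at h1
    rcases h1 with h1 | h1
    · rw [h1, zero_smul]
    · exfalso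
      have h2 : finrank K (κ → K) ≠ 0 := by
        rw [Module.finrank_fintype_fun_eq_card]
        exact Fintype.card_ne_zero
      exact h2 (by exact_mod_cast h1)
  have h1 : Y ∈ ⨆ j, I j := by rw [hF.sup]; exact hY
  obtain ⟨f, hf⟩ := (Submodule.mem_iSup_iff_exists_finsupp I Y).1 h1
  obtain ⟨hfI, hfY⟩ := hf
  have hYs : Y = ∑ j, f j := by
    rw [← hfY, Finsupp.sum_fintype]
    intro _; rfl
  by_contra hcon
  push Not at hcon
  obtain ⟨j, hj⟩ : ∃ j, f j ≠ 0 := by
    by_contra h2
    push Not at h2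
    apply hY0
    rw [hYs]
    exact Finset.sum_eq_zero fun j _ => h2 j
  -- the rest
  set R : Module.End K (κ → K) := ∑ i ∈ Finset.univ.erase j, f i with hR
  have hYR : Y = f j + R := by
    rw [hYs, hR, Finset.add_sum_erase _ _ (Finset.mem_univ j)]
  have hRm : R ∈ ⨆ i : {i // i ≠ j}, I i.1 := by
    apply Submodule.sum_mem
    intro i hi
    exact Submodule.mem_iSup_of_mem (⟨i, Finset.ne_of_mem_erase hi⟩ : {i // i ≠ j}) (hfI i)
  have hcomm : ∀ X ∈ I j, ∀ Z ∈ ⨆ i : {i // i ≠ j}, I i.1, X * Z = Z * X := by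
    intro X hX Z hZ
    induction hZ using Submodule.iSup_induction' with
    | mem i Z hZ => exact hF.comm j i.1 (Ne.symm i.2) X hX Z hZ
    | zero => rw [mul_zero, zero_mul]
    | add a b _ _ ha hb => rw [mul_add, add_mul, ha, hb]
  have hfull : Algebra.adjoin K ((I j : Set (Module.End K (κ → K))) ∪
      ((⨆ i : {i // i ≠ j}, I i.1 : Submodule K _) : Set (Module.End K (κ → K)))) = ⊤ := by
    rw [eq_top_iff, ← hF.top hirr]
    apply Algebra.adjoin_mono
    rintro X hX
    obtain ⟨i, hi⟩ := Set.mem_iUnion.1 hX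
    by_cases hij : i = j
    · left
      rw [← hij]; exact hi
    · right
      exact Submodule.mem_iSup_of_mem (⟨i, hij⟩ : {i // i ≠ j}) hi
  have hRL : R ∈ L := by
    have : R = Y - f j := by rw [hYR]; abel
    rw [this]
    exact L.sub_mem hY ((hF.ideal j).1 (hfI j))
  rcases disj hcomm hfull (hfI j) hRm (a := a) (b := b) (by rw [← hYR]; exact hq) with h2 | h2
  · exact hj (hsc _ ((hF.ideal j).1 (hfI j)) h2)
  · have h3 := hsc _ hRL h2
    apply hcon j
    rw [hYR, h3, add_zero]
    exact hfI j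

/-- A minimal ideal is a member of the family. -/
theorem Fam.of_min (hF : Fam L I) (hirr : Irr L)
    (htr : ∀ X ∈ L, LinearMap.trace K (κ → K) X = 0) {M : Submodule K (Module.End K (κ → K))}
    (hM : IsIdeal L M) (h0 : M ≠ ⊥) (hmin : ∀ N, IsIdeal L N → N ≤ M → N = ⊥ ∨ N = M) :
    ∃ j, M = I j := by
  by_contra hcon
  push Not at hcon
  apply h0
  rw [eq_bot_iff]
  intro X hX
  have hinf : ∀ j, M ⊓ I j = ⊥ := by
    intro j
    have hid : IsIdeal L (M ⊓ I j) :=
      ⟨inf_le_left.trans hM.1, fun Z hZ Y hY => ⟨hM.2 Z hZ Y hY.1, (hF.ideal j).2 Z hZ Y hY.2⟩⟩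
    rcases hmin _ hid inf_le_left with h1 | h1
    · exact h1
    · rcases hF.min j _ hid inf_le_right with h2 | h2
      · exact h2
      · exact absurd (h1.symm.trans h2) (hcon j)
  have hcX : ∀ j, ∀ Y ∈ I j, X * Y = Y * X := by
    intro j Y hY
    have h1 : X * Y - Y * X ∈ M ⊓ I j := by
      refine ⟨?_, (hF.ideal j).2 X (hM.1 hX) Y hY⟩
      have h2 := hM.2 Y ((hF.ideal j).1 hY) X hX
      have h3 : X * Y - Y * X = -(Y * X - X * Y) := by abel
      rw [h3]
      exact M.neg_mem h2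
    rw [hinf, Submodule.mem_bot] at h1
    exact sub_eq_zero.1 h1
  have hc : ∀ Z ∈ Algebra.adjoin K (⋃ j, (I j : Set (Module.End K (κ → K)))), X * Z = Z * X := by
    intro Z hZ
    induction hZ using Algebra.adjoin_induction with
    | mem Z hZ =>
      obtain ⟨j, hj⟩ := Set.mem_iUnion.1 hZ
      exact hcX j Z hj
    | algebraMap r => exact (Algebra.commutes r X).symm
    | add a b _ _ ha hb => rw [mul_add, add_mul, ha, hb]
    | mul a b _ _ ha hb => rw [← mul_assoc, ha, mul_assoc, hb, mul_assoc]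
  rw [hF.top hirr] at hc
  obtain ⟨x, rfl⟩ := (phi (ι := κ) (K := K)).surjective X
  obtain ⟨c, hc'⟩ := H49M.B5a_scalar (I₁ := (⊤ : Submodule K (Matrix κ κ K))) (I₂ := ⊤) (Y := x)
    (by
      rw [eq_top_iff]
      intro z _
      exact Algebra.subset_adjoin (Or.inl trivial))
    (fun z _ => by
      apply (phi (ι := κ) (K := K)).injective
      rw [map_mul, map_mul]
      exact (hc _ trivial).symm)
    (fun z _ => by
      apply (phi (ι := κ) (K := K)).injective
      rw [map_mul, map_mul]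
      exact (hc _ trivial).symm)
  have h1 := htr _ (hM.1 hX)
  rw [hc', map_smul, map_one, map_smul, LinearMap.trace_one, smul_eq_mul, mul_eq_zero] at h1
  rw [Submodule.mem_bot, hc', map_smul, map_one]
  rcases h1 with h1 | h1
  · rw [h1, zero_smul]
  · exfalso
    have h2 : finrank K (κ → K) ≠ 0 := by
      rw [Module.finrank_fintype_fun_eq_card]
      exact Fintype.card_ne_zero
    exact h2 (by exact_mod_cast h1)

end

end Pool.Agent.H76T
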