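import Pool.Agent.Lib.H76T.TA2

/-!
# The minimal ideals are permuted transitively
-/

set_option autoImplicit false
set_option linter.unusedSectionVars false
namespace Pool.Agent.H76T
open Module Matrix Pool.Agent.H53Toric

section
variable {K : Type*} [Field K] {V : Type*} [AddCommGroup V] [Module K V]

/-- The preimage of a space of operators under a semilinear ring automorphism. -/
def cv (σ : K ≃+* K) (θ : Module.End K V ≃+* Module.End K V)
    (hθ : ∀ (c : K) X, θ (c • X) = σ c • θ X) (I : Submodule K (Module.End K V)) :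
    Submodule K (Module.End K V) where
  carrier := {X | θ X ∈ I}
  add_mem' := by
    intro X Y hX hY
    change θ (X + Y) ∈ I
    rw [map_add]
    exact I.add_mem hX hY
  zero_mem' := by
    change θ 0 ∈ I
    rw [map_zero]
    exact I.zero_mem
  smul_mem' := by
    intro c X hX
    change θ (c • X) ∈ I
    rw [hθ]
    exact I.smul_mem _ hX

theorem mem_cv {σ : K ≃+* K} {θ : Module.End K V ≃+* Module.End K V}
    {hθ : ∀ (c : K) X, θ (c • X) = σ c • θ X} {I : Submodule K (Module.End K V)}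
    {X : Module.End K V} : X ∈ cv σ θ hθ I ↔ θ X ∈ I := Iff.rfl

/-- Semilinear bijections preserve dimensions. -/
theorem rank_mv {σ : K ≃+* K} {θ : Module.End K V ≃+* Module.End K V}
    (hθ : ∀ (c : K) X, θ (c • X) = σ c • θ X) (P P' : Submodule K (Module.End K V))
    (h1 : ∀ X ∈ P, θ X ∈ P') (h2 : ∀ X ∈ P', θ.symm X ∈ P) : finrank K P = finrank K P' := by
  let j : P ≃+ P' :=
    { toFun := fun X => ⟨θ X.1, h1 X.1 X.2⟩
      invFun := fun X => ⟨θ.symm X.1, h2 X.1 X.2⟩
      left_inv := fun X => Subtype.ext (θ.symm_apply_apply X.1)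
      right_inv := fun X => Subtype.ext (θ.apply_symm_apply X.1)
      map_add' := fun X Y => Subtype.ext (map_add θ X.1 Y.1) }
  have h3 := _root_.rank_eq_of_equiv_equiv (fun x : K => σ x) j σ.bijective (by
    intro r m
    apply Subtype.ext
    exact hθ r m.1)
  exact congrArg Cardinal.toNat h3

end

section
variable {κ : Type*} [Fintype κ] [DecidableEq κ] {K : Type*} [Field K] [CharZero K]
variable {L : Submodule K (Module.End K (κ → K))} {J : Matrix κ κ K} {Δ : Type*}
    {σ : Δ → K ≃+* K} {θ : Δ → Module.End K (κ → K) ≃+* Module.End K (κ → K)}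
    {y : Module.End K (κ → K)}

theorem Orb.tr (h : Orb L J σ θ y) : ∀ X ∈ L, LinearMap.trace K (κ → K) X = 0 :=
  fun X hX => tr_skew h.Jd (h.skew X hX)

theorem Orb.symm_mem (h : Orb L J σ θ y) (δ : Δ) {X : Module.End K (κ → K)} (hX : X ∈ L) :
    (θ δ).symm X ∈ L := by
  rw [h.stab δ, RingEquiv.apply_symm_apply]
  exact hX

theorem Orb.mv_ideal (h : Orb L J σ θ y) (δ : Δ) {M : Submodule K (Module.End K (κ → K))}
    (hM : IsIdeal L M) : IsIdeal L (mv (σ δ) (θ δ) (h.semi δ) M) := by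
  refine ⟨fun X hX => ?_, fun X hX Y hY => ?_⟩
  · have h1 := (h.stab δ _).1 (hM.1 (mem_mv.1 hX))
    rwa [RingEquiv.apply_symm_apply] at h1
  · rw [mem_mv, map_sub, map_mul, map_mul]
    exact hM.2 _ (h.symm_mem δ hX) _ (mem_mv.1 hY)

theorem Orb.cv_ideal (h : Orb L J σ θ y) (δ : Δ) {M : Submodule K (Module.End K (κ → K))}
    (hM : IsIdeal L M) : IsIdeal L (cv (σ δ) (θ δ) (h.semi δ) M) := by
  refine ⟨fun X hX => (h.stab δ X).2 (hM.1 hX), fun X hX Y hY => ?_⟩
  rw [mem_cv, map_sub, map_mul, map_mul]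
  exact hM.2 _ ((h.stab δ X).1 hX) _ hY

variable [IsAlgClosed K] [Nonempty κ] {m : ℕ} {I : Fin m → Submodule K (Module.End K (κ → K))}

theorem Orb.perm (h : Orb L J σ θ y) (hF : Fam L I) (δ : Δ) (j : Fin m) :
    ∃ k, mv (σ δ) (θ δ) (h.semi δ) (I j) = I k := by
  apply hF.of_min h.irr h.tr (h.mv_ideal δ (hF.ideal j))
  · intro h0
    apply hF.ne_bot j
    rw [eq_bot_iff]
    intro X hX
    have h1 : θ δ X ∈ mv (σ δ) (θ δ) (h.semi δ) (I j) := mem_mv'.2 hX
    rw [h0, Submodule.mem_bot] at h1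
    rw [Submodule.mem_bot]
    apply (θ δ).injective
    rw [h1, map_zero]
  · intro N hN hle
    have h1 : cv (σ δ) (θ δ) (h.semi δ) N ≤ I j := fun X hX => by
      have h2 := hle (mem_cv.1 hX)
      rwa [mem_mv'] at h2
    rcases hF.min j _ (h.cv_ideal δ hN) h1 with h2 | h2
    · left
      rw [eq_bot_iff]
      intro X hX
      have h3 : (θ δ).symm X ∈ cv (σ δ) (θ δ) (h.semi δ) N := by
        rw [mem_cv, RingEquiv.apply_symm_apply]
        exact hX
      rw [h2, Submodule.mem_bot] at h3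
      rw [Submodule.mem_bot]
      apply (θ δ).symm.injective
      rw [h3, map_zero]
    · right
      apply le_antisymm hle
      intro X hX
      rw [mem_mv, ← h2, mem_cv, RingEquiv.apply_symm_apply] at hX
      exact hX

theorem Orb.trans (h : Orb L J σ θ y) (hF : Fam L I) :
    ∃ j₀, y ∈ I j₀ ∧ ∀ k, ∃ δ, mv (σ δ) (θ δ) (h.semi δ) (I j₀) = I k := by
  have hy0 : y ≠ 0 := by
    rintro rfl
    have h1 := h.y_sq
    rw [mul_zero] at h1
    exact zero_ne_one h1
  have hq : y * y + (0 : K) • y + (-1 : K) • (1 : Module.End K (κ → K)) = 0 := by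
    rw [h.y_sq]
    module
  obtain ⟨j₀, hj₀⟩ := hF.one h.irr h.tr h.y_mem hy0 hq
  refine ⟨j₀, hj₀, fun k => ?_⟩
  by_contra hcon
  push Not at hcon
  apply hF.ne_bot k
  rw [eq_bot_iff]
  intro X hX
  obtain ⟨c, hc⟩ := h.gen X (fun δ => by
    obtain ⟨k', hk'⟩ := h.perm hF δ j₀
    have hne : k ≠ k' := by
      rintro rfl
      exact hcon δ hk'
    apply hF.comm k k' hne X hX
    rw [← hk', mem_mv']
    exact hj₀)
  rw [Submodule.mem_bot, hc]
  apply scalar_skew h.Jt h.Jd
  rw [← hc]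
  exact h.skew X ((hF.ideal k).1 hX)

end

end Pool.Agent.H76T
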