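import Pool.Agent.Lib.H76T.TA4

/-!
# Ranks of elements of a factor
-/

set_option autoImplicit false
set_option linter.unusedSectionVars false
namespace Pool.Agent.H76T
open Module Matrix Pool.Agent.H53Toric

section
variable {K : Type*} [Field K] {M : Type*} [AddCommGroup M] [Module K M] [FiniteDimensional K M]

theorem trace_unique (f : Module.End K M →ₗ[K] K) (hf : ∀ X Y, f (X * Y) = f (Y * X)) :
    ∃ c : K, ∀ Y, f Y = c * LinearMap.trace K M Y := by
  classical
  by_cases hM : ∀ u : M, u = 0
  · refine ⟨0, fun Y => ?_⟩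
    have : Y = 0 := by
      ext v
      rw [hM v, map_zero, map_zero]
    rw [this, map_zero, map_zero, mul_zero]
  · push Not at hM
    obtain ⟨u, hu⟩ := hM
    obtain ⟨χ, hχ⟩ : ∃ χ : Module.Dual K M, χ u ≠ 0 := by
      by_contra hcon
      push Not at hcon
      exact hu ((Module.forall_dual_apply_eq_zero_iff K u).1 hcon)
    have key : ∀ (φ : Module.Dual K M) (v : M), f (φ.smulRight v) =
        φ v * ((χ u)⁻¹ * f (χ.smulRight u)) := by
      intro φ v
      have e1 : (χ.smulRight v : Module.End K M) * (φ.smulRight u) = χ u • φ.smulRight v := by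
        ext w
        change χ (φ w • u) • v = χ u • φ w • v
        rw [map_smul, smul_eq_mul, smul_smul, mul_comm]
      have e2 : (φ.smulRight u : Module.End K M) * (χ.smulRight v) = φ v • χ.smulRight u := by
        ext w
        change φ (χ w • v) • u = φ v • χ w • u
        rw [map_smul, smul_eq_mul, smul_smul, mul_comm]
      have h1 := hf (χ.smulRight v) (φ.smulRight u)
      rw [e1, e2, map_smul, map_smul, smul_eq_mul, smul_eq_mul] at h1
      field_simp
      linear_combination h1
    refine ⟨(χ u)⁻¹ * f (χ.smulRight u), fun Y => ?_⟩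
    set bs := Module.finBasis K M with hbs
    have hY : Y = ∑ i, (bs.coord i).smulRight (Y (bs i)) := by
      apply bs.ext
      intro j
      rw [LinearMap.sum_apply, Finset.sum_eq_single j]
      · rw [LinearMap.smulRight_apply, Basis.coord_apply, Basis.repr_self,
          Finsupp.single_eq_same, one_smul]
      · intro i _ hij
        rw [LinearMap.smulRight_apply, Basis.coord_apply, Basis.repr_self,
          Finsupp.single_eq_of_ne hij, zero_smul]
      · intro hj
        exact absurd (Finset.mem_univ j) hj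
    rw [hY, map_sum, map_sum, Finset.mul_sum]
    apply Finset.sum_congr rfl
    intro i _
    rw [key, LinearMap.trace_smulRight]
    ring

end

section
variable {K : Type*} [Field K] [CharZero K] [IsAlgClosed K] {V : Type*} [AddCommGroup V]
  [Module K V] [FiniteDimensional K V] [Nontrivial V]

theorem two_rank {A₁ A₂ : Subalgebra K (Module.End K V)}
    (hcomm : ∀ X ∈ A₁, ∀ Y ∈ A₂, X * Y = Y * X) (hfull : A₁ ⊔ A₂ = ⊤) :
    ∃ a d : ℕ, finrank K A₂ = d * d ∧ finrank K V = a * d ∧
      ∀ N ∈ A₂, ∀ X ∈ A₂, N * X * N = N → a ∣ finrank K (LinearMap.range N) := by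
  obtain ⟨a, M, ⟨θ⟩, ha, hV⟩ := H49M.B8_two hcomm hfull
  refine ⟨a, finrank K M, ?_, hV, ?_⟩
  · have := θ.toLinearEquiv.finrank_eq
    rw [Module.finrank_linearMap] at this
    exact this
  intro N hN X hX hNX
  have hV0 : 0 < finrank K V := finrank_pos
  have hM0 : (finrank K M : K) ≠ 0 := by
    intro h0
    have h1 : finrank K M = 0 := by exact_mod_cast h0
    rw [h1, mul_zero] at hV
    omega
  let f : Module.End K M →ₗ[K] K :=
    { toFun := fun Y => LinearMap.trace K V (θ.symm Y).1
      map_add' := by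
        intro Y Z
        rw [map_add, Subalgebra.coe_add, map_add]
      map_smul' := by
        intro c Y
        rw [map_smul, Subalgebra.coe_smul, map_smul, RingHom.id_apply] }
  have hf : ∀ Y, f Y = LinearMap.trace K V (θ.symm Y).1 := fun _ => rfl
  obtain ⟨c, hc⟩ := trace_unique f (by
    intro Y Z
    rw [hf, hf, map_mul, map_mul, Subalgebra.coe_mul, Subalgebra.coe_mul,
      LinearMap.trace_mul_comm])
  have hca : c = a := by
    have h1 := hc 1
    rw [hf, map_one, Subalgebra.coe_one, LinearMap.trace_one, LinearMap.trace_one, hV] at h1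
    push_cast at h1
    exact (mul_right_cancel₀ hM0 h1).symm
  -- the idempotent
  let n : A₂ := ⟨N, hN⟩
  let x : A₂ := ⟨X, hX⟩
  have hp : (N * X) * (N * X) = N * X := by rw [← mul_assoc, hNX]
  have hpA : (n * x) * (n * x) = n * x := Subtype.ext hp
  have hrange : LinearMap.range N = LinearMap.range (N * X) := by
    apply le_antisymm
    · rintro _ ⟨v, rfl⟩
      refine ⟨N v, ?_⟩
      have := congrArg (fun T : Module.End K V => T v) hNX
      exact this
    · rintro _ ⟨v, rfl⟩
      exact ⟨X v, rfl⟩
  have h1 := trace_idem hp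
  have h2 := trace_idem (V := M) (f := θ (n * x)) (by rw [← map_mul, hpA])
  have h3 := hc (θ (n * x))
  rw [hf, AlgEquiv.symm_apply_apply, h2, hca] at h3
  have h4 : (((n * x : A₂)) : Module.End K V) = N * X := rfl
  rw [h4, h1] at h3
  rw [hrange]
  exact ⟨_, by exact_mod_cast h3⟩

end

section
variable {κ : Type*} [Fintype κ] [DecidableEq κ] {K : Type*} [Field K] [CharZero K]
variable {L : Submodule K (Module.End K (κ → K))} {J : Matrix κ κ K} {Δ : Type*}
    {σ : Δ → K ≃+* K} {θ : Δ → Module.End K (κ → K) ≃+* Module.End K (κ → K)}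
    {y : Module.End K (κ → K)}
variable [IsAlgClosed K] [Nonempty κ] {m : ℕ} {I : Fin m → Submodule K (Module.End K (κ → K))}

theorem Orb.dvd (h : Orb L J σ θ y) (hF : Fam L I) {a : ℕ}
    (hpow : finrank K (κ → K) = a ^ m)
    (ha : ∀ j, finrank K (Algebra.adjoin K (I j : Set (Module.End K (κ → K)))) = a * a)
    {j : Fin m} {N : Module.End K (κ → K)} (hN : N ∈ I j) (hN2 : N * N = 0) :
    a ^ (m - 1) ∣ finrank K (LinearMap.range N) := by
  classical
  have hNL := (hF.ideal j).1 hN
  obtain ⟨X, hX, hNX⟩ := exists_partner h.lie h.irr h.tr hNL hN2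
  -- decompose the partner
  have h1 : X ∈ ⨆ j, I j := by rw [hF.sup]; exact hX
  obtain ⟨f, hfI, hfX⟩ := (Submodule.mem_iSup_iff_exists_finsupp I X).1 h1
  have hXs : X = f j + ∑ i ∈ Finset.univ.erase j, f i := by
    rw [Finset.add_sum_erase _ _ (Finset.mem_univ j), ← hfX, Finsupp.sum_fintype]
    intro _; rfl
  have hNf : N * f j * N = N := by
    have h2 : N * (∑ i ∈ Finset.univ.erase j, f i) * N = 0 := by
      rw [Finset.mul_sum, Finset.sum_mul]
      apply Finset.sum_eq_zero
      intro i hi
      rw [hF.comm j i (Finset.ne_of_mem_erase hi).symm N hN (f i) (hfI i), mul_assoc, hN2,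
        mul_zero]
    have h3 := hNX
    rw [hXs, mul_add, add_mul, h2, add_zero] at h3
    exact h3
  set A : Fin m → Subalgebra K (Module.End K (κ → K)) := fun j =>
    Algebra.adjoin K (I j : Set (Module.End K (κ → K))) with hA
  have hcomm : ∀ X ∈ (⨆ i : {i // i ≠ j}, A i.1), ∀ Y ∈ A j, X * Y = Y * X := by
    have h2 : (⨆ i : {i // i ≠ j}, A i.1) ≤ Subalgebra.centralizer K
        (A j : Set (Module.End K (κ → K))) := by
      refine iSup_le fun i Y hY => ?_
      rw [Subalgebra.mem_centralizer_iff]
      exact fun X hX => hF.acomm j i.1 i.2.symm X hX Y hY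
    intro X hX Y hY
    have h3 := h2 hX
    rw [Subalgebra.mem_centralizer_iff] at h3
    exact (h3 Y hY).symm
  have hfull : (⨆ i : {i // i ≠ j}, A i.1) ⊔ A j = ⊤ := by
    rw [eq_top_iff, ← hF.sup_top h.irr]
    refine iSup_le fun i => ?_
    by_cases hij : i = j
    · rw [hij]
      exact le_sup_right
    · exact le_sup_of_le_left (le_iSup (fun i : {i // i ≠ j} => A i.1) ⟨i, hij⟩)
  obtain ⟨a', d, hd, hV, hdvd⟩ := two_rank hcomm hfull
  have hda : d = a := by
    have h2 := ha j
    change finrank K (A j) = a * a at h2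
    rw [hd] at h2
    exact Nat.mul_self_inj.1 h2
  have hV0 : 0 < finrank K (κ → K) := finrank_pos
  have ha0 : 0 < a := by
    rcases Nat.eq_zero_or_pos a with h2 | h2
    · rw [hda, h2, mul_zero] at hV
      omega
    · exact h2
  have haa : a' = a ^ (m - 1) := by
    rw [hpow, hda] at hV
    have hm : m = m - 1 + 1 := by
      have := j.2
      omega
    have h2 : a ^ m = a ^ (m - 1) * a := by
      nth_rw 1 [hm]
      rw [pow_succ]
    rw [h2] at hV
    exact (Nat.eq_of_mul_eq_mul_right ha0 hV).symm
  rw [← haa]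
  exact hdvd N (Algebra.subset_adjoin hN) (f j) (Algebra.subset_adjoin (hfI j)) hNf

end

end Pool.Agent.H76T
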