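import Pool.Agent.Lib.H76T.TA5
import Pool.Agent.Lib.H49M.C0

/-!
# The component theorem
-/

set_option autoImplicit false
set_option linter.unusedSectionVars false
namespace Pool.Agent.H76T
open Module Matrix Pool.Agent.H53Toric

variable {κ : Type*} [Fintype κ] [DecidableEq κ] {K : Type*} [Field K] [CharZero K]
variable {L : Submodule K (Module.End K (κ → K))} {J : Matrix κ κ K} {Δ : Type*}
    {σ : Δ → K ≃+* K} {θ : Δ → Module.End K (κ → K) ≃+* Module.End K (κ → K)}
    {y : Module.End K (κ → K)}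
variable [IsAlgClosed K] [Nonempty κ]

/-- A simple Lie algebra in the setting of the component theorem. -/
theorem Orb.core (h : Orb L J σ θ y)
    (hs : ∀ M, IsIdeal L M → M = ⊥ ∨ M = L) : H49M.Core L (om J) (adjE J) where
  lie := h.lie
  irr := h.irr
  simple := fun M hM hM' => hs M ⟨hM, hM'⟩
  alt := om_alt h.Jt
  nd := by
    intro v hv
    apply om_nd h.Jd
    intro w
    rw [omega_antisymm (om_alt h.Jt), hv, neg_zero]
  spec := H49M.C0_spec h.Jd
  skew := h.skew

/-- An element of square zero whose twists stay in its ideals excludes several ideals. -/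
theorem Orb.fam_fix (h : Orb L J σ θ y) {m : ℕ}
    {I : Fin m → Submodule K (Module.End K (κ → K))} (hF : Fam L I) (hm : 2 ≤ m)
    {N : Module.End K (κ → K)} {a b : K} (hN : N ∈ L)
    (hN2 : N * N + a • N + b • (1 : Module.End K (κ → K)) = 0) (hN0 : N ≠ 0)
    (h4 : ∀ δ, ∀ M, IsIdeal L M → N ∈ M → θ δ N ∈ M) : False := by
  classical
  obtain ⟨j, hj⟩ := hF.one h.irr h.tr hN hN0 hN2
  have hfix : ∀ δ, mv (σ δ) (θ δ) (h.semi δ) (I j) = I j := by
    intro δ
    obtain ⟨k, hk⟩ := h.perm hF δ j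
    rw [hk]
    by_contra hkj
    have h5 : θ δ N ∈ I k := by
      rw [← hk, mem_mv']
      exact hj
    have h6 : θ δ N ∈ I j := h4 δ (I j) (hF.ideal j) hj
    have hkj' : k ≠ j := fun e => hkj (by rw [e])
    have hinf : I j ⊓ I k = ⊥ := by
      have hid : IsIdeal L (I j ⊓ I k) := ⟨inf_le_left.trans (hF.ideal j).1,
        fun Z hZ Y hY => ⟨(hF.ideal j).2 Z hZ Y hY.1, (hF.ideal k).2 Z hZ Y hY.2⟩⟩
      rcases hF.min j _ hid inf_le_left with h7 | h7
      · exact h7
      · rcases hF.min k _ hid inf_le_right with h8 | h8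
        · exact h8
        · exact absurd (hF.inj (h8.symm.trans h7)) hkj'
    have h7 : θ δ N ∈ I j ⊓ I k := ⟨h6, h5⟩
    rw [hinf, Submodule.mem_bot] at h7
    apply hN0
    apply (θ δ).injective
    rw [h7, map_zero]
  obtain ⟨j₀, -, htr⟩ := h.trans hF
  obtain ⟨δ₁, hδ₁⟩ := htr j
  have h5 : I j₀ = I j := by
    apply mv_inj (hθ := h.semi δ₁)
    rw [hδ₁, hfix δ₁]
  have h6 : ∀ k, k = j := by
    intro k
    obtain ⟨δ, hδ⟩ := htr k
    apply hF.inj
    rw [← hδ, h5, hfix δ]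
  have h7 := h6 ⟨0, by omega⟩
  have h8 := h6 ⟨1, by omega⟩
  rw [← h7] at h8
  simp at h8

/-- **The component theorem.** -/
theorem Orb.full (h : Orb L J σ θ y)
    (num0 : ∀ a k : ℕ, 3 ≤ k → Odd k → Fintype.card κ = a ^ k →
      ∀ I : Fin k → Submodule K (Module.End K (κ → K)), Fam L I → ∃ N ∈ L, N * N = 0 ∧
      ¬ a ^ (k - 1) ∣ finrank K (LinearMap.range N))
    (num1 : ∀ m : ℕ, 5 ≤ m → (m % 4 = 1 ∨ m % 4 = 2) → Fintype.card κ = 2 ^ m →
      ∃ N ∈ L, N * N = 0 ∧ N ≠ 0 ∧ 4 * finrank K (LinearMap.range N) ≠ Fintype.card κ ∧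
        2 * finrank K (LinearMap.range N) ≠ Fintype.card κ)
    (num2 : ∀ k : ℕ, 3 ≤ k → Odd k → Fintype.card κ = k.centralBinom →
      ∃ N ∈ L, N * N = 0 ∧ N ≠ 0 ∧ finrank K (LinearMap.range N) ≠ (k - 1).centralBinom)
    {X : Module.End K (κ → K)} (hX : adjE J X = -X) : X ∈ L := by
  classical
  have hcard : finrank K (κ → K) = Fintype.card κ := Module.finrank_fintype_fun_eq_card K
  obtain ⟨m, I, hF⟩ := exists_fam h.lie h.irr h.tr
  obtain ⟨a, hm, hpow, ha⟩ := h.power hF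
  -- one minimal ideal
  have hm1 : m = 1 := by
    by_contra hne
    have h3 : 3 ≤ m := by
      obtain ⟨t, ht⟩ := hm
      omega
    obtain ⟨N, hN, hN2, hNr⟩ := num0 a m h3 hm (by rw [← hcard]; exact hpow) I hF
    by_cases hN0 : N = 0
    · apply hNr
      rw [hN0, LinearMap.range_zero, finrank_bot]
      exact dvd_zero _
    obtain ⟨j, hj⟩ := hF.one h.irr h.tr hN hN0 (a := 0) (b := 0) (by
      rw [hN2, zero_smul, zero_smul, add_zero, add_zero])
    exact hNr (h.dvd hF hpow ha hj hN2)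
  subst hm1
  have hL : I 0 = L := by
    rw [← hF.sup]
    apply le_antisymm
    · exact le_iSup I 0
    · apply iSup_le
      intro j
      rw [Subsingleton.elim j 0]
  have hcore := h.core (fun M hM => by
    have h1 := hF.min 0 M hM (by rw [hL]; exact hM.1)
    rwa [hL] at h1)
  rcases H49M.coreR hcore h.y_mem h.y_sq with h1 | ⟨m, hm5, hm4, hd, hN⟩ | ⟨k, hk3, hko, hd, hN⟩
  · exact h1 X hX
  · exfalso
    obtain ⟨N, hNL, hN2, hN0, hr1, hr2⟩ := num1 m hm5 hm4 (by rw [← hcard]; exact hd)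
    rcases hN N hNL hN2 hN0 with h2 | h2
    · exact hr1 (by rw [← hcard]; exact h2)
    · exact hr2 (by rw [← hcard]; exact h2)
  · exfalso
    obtain ⟨N, hNL, hN2, hN0, hr⟩ := num2 k hk3 hko (by rw [← hcard]; exact hd)
    exact hr (hN N hNL hN2 hN0)

end Pool.Agent.H76T
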