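import Pool.Agent.Lib.H76T.TA6
import Pool.Agent.Lib.H76F.Conj
import Pool.Agent.Lib.H76U.Odd5

/-!
# Automorphisms of the field acting on closures and Lie algebras
-/

set_option autoImplicit false
set_option linter.unusedSectionVars false
namespace Pool.Agent.H76T
open Module Matrix Pool.Agent.H53Toric MvPolynomial

variable {ι : Type*} [Fintype ι] [DecidableEq ι] {K : Type*} [Field K]

theorem ev_map (τ : K ≃+* K) (x : Matrix ι ι K) (f : MvPolynomial (ι × ι) K) :
    ev (x.map τ) (MvPolynomial.map (τ : K →+* K) f) = τ (ev x f) := by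
  induction f using MvPolynomial.induction_on with
  | C a => rw [MvPolynomial.map_C, ev_C, ev_C]; rfl
  | add p q hp hq => rw [map_add, map_add, map_add, map_add, hp, hq]
  | mul_X p n hp => rw [map_mul, map_mul, map_mul, map_mul, hp, MvPolynomial.map_X, ev_X, ev_X]; rfl

theorem der_C (A : Matrix ι ι K) (a : K) : der A (C a) = 0 := by
  have := (der A).map_algebraMap a
  exact this

theorem der_map (τ : K ≃+* K) (A : Matrix ι ι K) (f : MvPolynomial (ι × ι) K) :
    der (A.map τ) (MvPolynomial.map (τ : K →+* K) f) = MvPolynomial.map (τ : K →+* K) (der A f) := by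
  induction f using MvPolynomial.induction_on with
  | C a => rw [MvPolynomial.map_C, der_C, der_C, map_zero]
  | add p q hp hq => rw [map_add, map_add, map_add, map_add, hp, hq]
  | mul_X p n hp =>
    rw [map_mul, MvPolynomial.map_X, Derivation.leibniz, Derivation.leibniz, hp, map_add,
      smul_eq_mul, smul_eq_mul, smul_eq_mul, smul_eq_mul, map_mul, map_mul, MvPolynomial.map_X,
      der_X, der_X, map_sum]
    congr 2
    apply Finset.sum_congr rfl
    intro k _
    rw [map_mul, MvPolynomial.map_X, MvPolynomial.map_C]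
    rfl

/-- The Lie algebra of the closure of a set of matrices fixed by `τ` is stable under `τ`. -/
theorem zlie_map {S : Set (Matrix ι ι K)} (τ : K ≃+* K) (hS : ∀ s ∈ S, s.map τ = s)
    {A : Matrix ι ι K} (hA : A ∈ zlie S) : A.map τ ∈ zlie S := by
  intro f hf s hs
  set f' := MvPolynomial.map ((τ.symm : K ≃+* K) : K →+* K) f with hf'
  have hff : f = MvPolynomial.map (τ : K →+* K) f' := by
    rw [hf', MvPolynomial.map_map]
    have : (τ : K →+* K).comp ((τ.symm : K ≃+* K) : K →+* K) = RingHom.id K := by
      ext x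
      simp
    rw [this, MvPolynomial.map_id]
  have h1 : ∀ s ∈ S, ev s f' = 0 := by
    intro s hs
    apply τ.injective
    rw [← ev_map, ← hff, hS s hs, hf s hs, map_zero]
  have h2 := hA f' h1 s hs
  rw [hff, der_map]
  have h3 := ev_map τ s (der A f')
  rw [hS s hs] at h3
  rw [h3, h2, map_zero]

/-- Zariski closures and semilinear maps. -/
theorem zar_map {S : Set (Matrix ι ι K)} (τ : K ≃+* K) (hS : ∀ s ∈ S, s.map τ = s)
    {x : Matrix ι ι K} (hx : x ∈ zar S) : x.map τ ∈ zar S := by
  intro f hf
  set f' := MvPolynomial.map ((τ.symm : K ≃+* K) : K →+* K) f with hf'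
  have hff : f = MvPolynomial.map (τ : K →+* K) f' := by
    rw [hf', MvPolynomial.map_map]
    have : (τ : K →+* K).comp ((τ.symm : K ≃+* K) : K →+* K) = RingHom.id K := by
      ext x
      simp
    rw [this, MvPolynomial.map_id]
  have h1 : ∀ s ∈ S, ev s f' = 0 := by
    intro s hs
    apply τ.injective
    rw [← ev_map, ← hff, hS s hs, hf s hs, map_zero]
  rw [hff, ev_map, hx f' h1, map_zero]

end Pool.Agent.H76T
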