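import Pool.Agent.Lib.H76T.TB1
import Pool.Agent.Lib.H76F.Elt

/-!
# The twists of one component
-/

set_option autoImplicit false
set_option linter.unusedSectionVars false
namespace Pool.Agent.H76T
open Module Matrix Pool.Agent.H53Toric Pool.Agent.H76U

section
variable {κ : Type*} [Fintype κ] [DecidableEq κ] {K : Type*} [Field K]

theorem map_mulm (τ : K ≃+* K) (X Y : Matrix κ κ K) : (X * Y).map τ = X.map τ * Y.map τ := by
  have : (X * Y).map (τ : K →+* K) = X.map (τ : K →+* K) * Y.map (τ : K →+* K) := Matrix.map_mul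
  exact this

theorem map_addm (τ : K ≃+* K) (X Y : Matrix κ κ K) : (X + Y).map τ = X.map τ + Y.map τ :=
  Matrix.map_add _ (map_add τ) X Y

theorem map_smulm (τ : K ≃+* K) (c : K) (X : Matrix κ κ K) :
    (c • X).map τ = τ c • X.map τ := by
  ext i j
  simp [Matrix.map_apply]

theorem map_onem (τ : K ≃+* K) : (1 : Matrix κ κ K).map τ = 1 :=
  Matrix.map_one _ (map_zero τ) (map_one τ)

theorem map_symmm (τ : K ≃+* K) (X : Matrix κ κ K) : (X.map τ).map τ.symm = X := by
  ext i j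
  simp

theorem map_symmm' (τ : K ≃+* K) (X : Matrix κ κ K) : (X.map τ.symm).map τ = X := by
  ext i j
  simp

/-- The twist: `X ↦ R τ(X) R⁻¹`. -/
noncomputable def tht (τ : K ≃+* K) {R R' : Matrix κ κ K} (h : R * R' = 1) :
    Module.End K (κ → K) ≃+* Module.End K (κ → K) where
  toFun X := phi (R * ((phi (ι := κ) (K := K)).symm X).map τ * R')
  invFun X := phi ((R' * (phi (ι := κ) (K := K)).symm X * R).map τ.symm)
  left_inv := by
    intro X
    have h' : R' * R = 1 := mul_eq_one_comm.1 h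
    beta_reduce
    rw [AlgEquiv.symm_apply_apply]
    have e : R' * (R * ((phi (ι := κ) (K := K)).symm X).map τ * R') * R =
        ((phi (ι := κ) (K := K)).symm X).map τ := by
      calc R' * (R * ((phi (ι := κ) (K := K)).symm X).map τ * R') * R =
          (R' * R) * ((phi (ι := κ) (K := K)).symm X).map τ * (R' * R) := by noncomm_ring
        _ = _ := by rw [h', one_mul, mul_one]
    rw [e, map_symmm, AlgEquiv.apply_symm_apply]
  right_inv := by
    intro X
    beta_reduce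
    rw [AlgEquiv.symm_apply_apply, map_symmm']
    have e : R * (R' * (phi (ι := κ) (K := K)).symm X * R) * R' =
        (phi (ι := κ) (K := K)).symm X := by
      calc R * (R' * (phi (ι := κ) (K := K)).symm X * R) * R' =
          (R * R') * (phi (ι := κ) (K := K)).symm X * (R * R') := by noncomm_ring
        _ = _ := by rw [h, one_mul, mul_one]
    rw [e, AlgEquiv.apply_symm_apply]
  map_mul' := by
    intro X Y
    have h' : R' * R = 1 := mul_eq_one_comm.1 h
    rw [← map_mul, map_mul (phi (ι := κ) (K := K)).symm, map_mulm]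
    congr 1
    calc R * (((phi (ι := κ) (K := K)).symm X).map τ * ((phi (ι := κ) (K := K)).symm Y).map τ) *
        R' = R * ((phi (ι := κ) (K := K)).symm X).map τ * 1 *
          ((phi (ι := κ) (K := K)).symm Y).map τ * R' := by noncomm_ring
      _ = _ := by rw [← h']; noncomm_ring
  map_add' := by
    intro X Y
    rw [← map_add, map_add (phi (ι := κ) (K := K)).symm, map_addm, mul_add, add_mul]

theorem tht_apply (τ : K ≃+* K) {R R' : Matrix κ κ K} (h : R * R' = 1) (x : Matrix κ κ K) :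
    tht τ h (phi x) = phi (R * x.map τ * R') := by
  change phi (R * ((phi (ι := κ) (K := K)).symm (phi x)).map τ * R') = _
  rw [AlgEquiv.symm_apply_apply]

theorem tht_smul (τ : K ≃+* K) {R R' : Matrix κ κ K} (h : R * R' = 1) (c : K)
    (X : Module.End K (κ → K)) : tht τ h (c • X) = τ c • tht τ h X := by
  obtain ⟨x, rfl⟩ := (phi (ι := κ) (K := K)).surjective X
  rw [← map_smul, tht_apply, tht_apply, map_smulm, ← map_smul, mul_smul_comm, smul_mul_assoc]

theorem tht_adj (τ : K ≃+* K) {R R' : Matrix κ κ K} (h : R * R' = 1) {J : Matrix κ κ K}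
    (hJτ : J.map τ = J) (hJd : IsUnit J.det) {c : K} (hc0 : c ≠ 0) (hc : Rᵀ * J * R = c • J)
    (X : Module.End K (κ → K)) : adjE J (tht τ h X) = tht τ h (adjE J X) := by
  obtain ⟨x, rfl⟩ := (phi (ι := κ) (K := K)).surjective X
  rw [tht_apply, adjE_phi, adjE_phi, tht_apply]
  congr 1
  have hJi : J⁻¹ * J = 1 := Matrix.nonsing_inv_mul _ hJd
  have hJi' : J * J⁻¹ = 1 := Matrix.mul_nonsing_inv _ hJd
  have hJit : (J⁻¹).map τ = J⁻¹ := by
    have h1 : J * (J⁻¹).map τ = 1 := by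
      nth_rw 1 [← hJτ]
      rw [← map_mulm, hJi', map_onem]
    calc (J⁻¹).map τ = (J⁻¹ * J) * (J⁻¹).map τ := by rw [hJi, one_mul]
      _ = J⁻¹ * (J * (J⁻¹).map τ) := by rw [mul_assoc]
      _ = J⁻¹ := by rw [h1, mul_one]
  have ht : R'ᵀ * Rᵀ = 1 := by rw [← Matrix.transpose_mul, h, Matrix.transpose_one]
  have e1 : Rᵀ * J = c • (J * R') := by
    calc Rᵀ * J = Rᵀ * J * (R * R') := by rw [h, mul_one]
      _ = (Rᵀ * J * R) * R' := by noncomm_ring
      _ = _ := by rw [hc, smul_mul_assoc]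
  have e2 : J * R = c • (R'ᵀ * J) := by
    calc J * R = (R'ᵀ * Rᵀ) * (J * R) := by rw [ht, one_mul]
      _ = R'ᵀ * (Rᵀ * J * R) := by noncomm_ring
      _ = _ := by rw [hc, mul_smul_comm]
  have e3 : J⁻¹ * R'ᵀ = c⁻¹ • (R * J⁻¹) := by
    have h1 : R'ᵀ * J = c⁻¹ • (J * R) := by
      rw [e2, smul_smul, inv_mul_cancel₀ hc0, one_smul]
    calc J⁻¹ * R'ᵀ = J⁻¹ * (R'ᵀ * J) * J⁻¹ := by rw [mul_assoc J⁻¹ (R'ᵀ * J), mul_assoc R'ᵀ, hJi', mul_one]
      _ = c⁻¹ • ((J⁻¹ * J) * R * J⁻¹) := by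
          rw [h1, mul_smul_comm, smul_mul_assoc]
          congr 1
          noncomm_ring
      _ = _ := by rw [hJi, one_mul]
  rw [map_mulm, map_mulm, hJit, hJτ, Matrix.transpose_mul, Matrix.transpose_mul]
  have e4 : (xᵀ).map τ = (x.map τ)ᵀ := rfl
  rw [e4]
  calc J⁻¹ * (R'ᵀ * ((x.map τ)ᵀ * Rᵀ)) * J = (J⁻¹ * R'ᵀ) * (x.map τ)ᵀ * (Rᵀ * J) := by noncomm_ring
    _ = (c⁻¹ • (R * J⁻¹)) * (x.map τ)ᵀ * (c • (J * R')) := by rw [e3, e1]
    _ = R * J⁻¹ * (x.map τ)ᵀ * (J * R') := by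
        rw [smul_mul_assoc, smul_mul_assoc, mul_smul_comm, smul_smul, inv_mul_cancel₀ hc0,
          one_smul]
    _ = R * (J⁻¹ * (x.map τ)ᵀ * J) * R' := by noncomm_ring

end

end Pool.Agent.H76T
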