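import Pool.Agent.Lib.H76T.TB2

/-!
# The component theorem for a component of the Lie algebra of a closure
-/

set_option autoImplicit false
set_option linter.unusedSectionVars false
namespace Pool.Agent.H76T
open Module Matrix Pool.Agent.H53Toric Pool.Agent.H76U Pool.Agent.H76F
open Pool.Agent.H76RM (zar_commute zlie_commute van)

variable {ι : Type*} [Fintype ι] [DecidableEq ι] {K : Type*} [Field K]

/-- The closure of `S`, a group acting by conjugation, and automorphisms of the field which fix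
everything except the idempotent `h₀`, whose twists generate. -/
structure SG (S : Set (Matrix ι ι K)) (J : Matrix ι ι K) (DD : Submodule K (Matrix ι ι K))
    {Γ : Type*} [Group Γ] (r : Γ →* Matrix ι ι K) (T : Set (K ≃+* K)) (h₀ : Matrix ι ι K) :
    Prop where
  one : (1 : Matrix ι ι K) ∈ S
  SD : ∀ s ∈ S, ∀ d ∈ DD, s * d = d * s
  semis : ∀ W : Submodule K (ι → K), (∀ s ∈ S, ∀ w ∈ W, s *ᵥ w ∈ W) →
      ∃ W' : Submodule K (ι → K), (∀ s ∈ S, ∀ w ∈ W', s *ᵥ w ∈ W') ∧ IsCompl W W'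
  commt : ∀ y : Matrix ι ι K, (∀ s ∈ S, y * s = s * y) → y ∈ DD
  cnj : ∀ γ, ∀ f ∈ van S, ∀ s ∈ S, ev (r γ * s * r γ⁻¹) f = 0
  sim : ∀ γ, ∃ c : K, c ≠ 0 ∧ (r γ)ᵀ * J * r γ = c • J
  rD : ∀ γ, ∀ d ∈ DD, r γ * d = d * r γ
  Tsymm : ∀ τ ∈ T, τ.symm ∈ T
  TS : ∀ τ ∈ T, ∀ s ∈ S, s.map τ = s
  TJ : ∀ τ ∈ T, J.map τ = J
  Tr : ∀ τ ∈ T, ∀ γ, (r γ).map τ = r γ
  h0z : h₀ ∈ zlie S
  h0i : h₀ * h₀ = h₀
  h0s : h₀ᵀ * J + J * h₀ = J
  gen : S ⊆ zar (Submonoid.closure {m | ∃ γ, ∃ τ ∈ T, ∃ t : K, t ≠ 0 ∧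
    m = 1 + (t - 1) • (r γ * h₀.map τ * r γ⁻¹)} : Set (Matrix ι ι K))

namespace SG

variable [CharZero K] {S : Set (Matrix ι ι K)} {J : Matrix ι ι K}
    {DD : Submodule K (Matrix ι ι K)}
    {Γ : Type*} [Group Γ] {r : Γ →* Matrix ι ι K} {T : Set (K ≃+* K)} {h₀ : Matrix ι ι K}
    (g : SG S J DD r T h₀)
include g

theorem rr (γ : Γ) : r γ * r γ⁻¹ = 1 := by rw [← map_mul, mul_inv_cancel, map_one]

theorem rr' (γ : Γ) : r γ⁻¹ * r γ = 1 := by rw [← map_mul, inv_mul_cancel, map_one]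

theorem zlie_r (γ : Γ) {A : Matrix ι ι K} (hA : A ∈ zlie S) : r γ * A * r γ⁻¹ ∈ zlie S := by
  refine zlie_conj' (g.rr γ) (g.cnj γ) ?_ hA
  have := g.cnj γ⁻¹
  rw [inv_inv] at this
  exact this

/-- the Lie algebra with scalars is stable under the group -/
theorem preL_r (γ : Γ) {A : Matrix ι ι K} (hA : A ∈ preL J S) : r γ * A * r γ⁻¹ ∈ preL J S := by
  obtain ⟨⟨c, C, hC, rfl⟩, d, hd⟩ := hA
  obtain ⟨s, hs0, hs⟩ := g.sim γ
  refine ⟨⟨c, r γ * C * r γ⁻¹, g.zlie_r γ hC, ?_⟩, d, conj_sim (g.rr γ) hs hd⟩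
  rw [mul_add, add_mul, mul_smul_comm, mul_one, smul_mul_assoc, g.rr γ]

/-- the Lie algebra with scalars is stable under the automorphisms of the field -/
theorem preL_T {τ : K ≃+* K} (hτ : τ ∈ T) {A : Matrix ι ι K} (hA : A ∈ preL J S) :
    A.map τ ∈ preL J S := by
  obtain ⟨⟨c, C, hC, hAC⟩, d, hd⟩ := hA
  refine ⟨⟨τ c, C.map τ, zlie_map τ (g.TS τ hτ) hC, ?_⟩, τ d, ?_⟩
  · rw [hAC, map_addm, map_smulm, map_onem]
  · have e : (A.map τ)ᵀ = (Aᵀ).map τ := rfl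
    have hJ := g.TJ τ hτ
    calc (A.map τ)ᵀ * J + J * A.map τ = (Aᵀ * J + J * A).map τ := by
          rw [map_addm, map_mulm, map_mulm, hJ, e]
      _ = _ := by rw [hd, map_smulm, hJ]

end SG

/-- compression and field automorphisms -/
theorem cmp_map {n : ℕ} {P : Matrix ι (Fin n) K} {Q : Matrix (Fin n) ι K} (τ : K ≃+* K)
    (hP : P.map τ = P) (hQ : Q.map τ = Q) (A : Matrix ι ι K) :
    (cmp P Q A).map τ = cmp P Q (A.map τ) := by
  rw [cmp_apply, cmp_apply]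
  have h1 : (Q * A * P).map (τ : K →+* K) = Q.map (τ : K →+* K) * A.map (τ : K →+* K) *
      P.map (τ : K →+* K) := by rw [Matrix.map_mul, Matrix.map_mul]
  have h2 : Q.map (τ : K →+* K) = Q := hQ
  have h3 : P.map (τ : K →+* K) = P := hP
  rw [h2, h3] at h1
  exact h1

section
variable [CharZero K] {B : Type*} [Fintype B] [DecidableEq B]
    {J : Matrix ι ι K} {DD : Submodule K (Matrix ι ι K)}
    {bar : B → B} {e : B → Matrix ι ι K} (h : Split4 J DD bar e) {b : B} (hb : bar b = b)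
    (hJ : Jᵀ = -J) (hdet : IsUnit J.det)
    {n : ℕ} {P : Matrix ι (Fin n) K} {Q : Matrix (Fin n) ι K}
    (hPQ : e b = P * Q) (hQP : Q * P = 1)
    {S : Set (Matrix ι ι K)}
    {Γ : Type*} [Group Γ] {r : Γ →* Matrix ι ι K} {T : Set (K ≃+* K)} {h₀ : Matrix ι ι K}
    (g : SG S J DD r T h₀) (hTP : ∀ τ ∈ T, P.map τ = P) (hTQ : ∀ τ ∈ T, Q.map τ = Q)

/-- The Lie algebra of the component. -/
noncomputable def Lc (J : Matrix ι ι K) (S : Set (Matrix ι ι K)) (P : Matrix ι (Fin n) K)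
    (Q : Matrix (Fin n) ι K) : Submodule K (Module.End K (Fin n → K)) where
  carrier := {X | X ∈ Lb J S P Q ∧ adjE (Pᵀ * J * P) X = -X}
  add_mem' := by
    rintro X Y ⟨h1, h2⟩ ⟨h3, h4⟩
    refine ⟨add_mem h1 h3, ?_⟩
    rw [map_add, h2, h4, neg_add]
  zero_mem' := ⟨zero_mem _, by rw [map_zero, neg_zero]⟩
  smul_mem' := by
    rintro c X ⟨h1, h2⟩
    refine ⟨Submodule.smul_mem _ c h1, ?_⟩
    rw [map_smul, h2, smul_neg]

theorem mem_Lc {X : Module.End K (Fin n → K)} :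
    X ∈ Lc J S P Q ↔ X ∈ Lb J S P Q ∧ adjE (Pᵀ * J * P) X = -X := Iff.rfl

include h hPQ hQP g in
theorem cmp_rr (γ : Γ) : cmp P Q (r γ) * cmp P Q (r γ⁻¹) = 1 := by
  rw [← cmp_mul hPQ hQP (g.rD γ⁻¹ _ (h.mem b)), g.rr γ, cmp_one hPQ hQP]

/-- The twist attached to `(γ, τ)`. -/
noncomputable def thc (h : Split4 J DD bar e) (hPQ : e b = P * Q) (hQP : Q * P = 1)
    (g : SG S J DD r T h₀) (δ : Γ × T) :
    Module.End K (Fin n → K) ≃+* Module.End K (Fin n → K) :=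
  tht δ.2.1 (cmp_rr h hPQ hQP g δ.1)

include hTP hTQ in
/-- the twists in terms of the big matrices -/
theorem thc_cmp (δ : Γ × T) {A : Matrix ι ι K} (hA : A * e b = e b * A) :
    thc h hPQ hQP g δ (phi (cmp P Q A)) =
      phi (cmp P Q (r δ.1 * A.map δ.2.1 * r δ.1⁻¹)) := by
  have h1 : (A.map δ.2.1) * e b = e b * A.map δ.2.1 := by
    have hee : (e b).map δ.2.1 = e b := by
      have h2 : (P * Q).map ((δ.2.1 : K ≃+* K) : K →+* K) =
          P.map ((δ.2.1 : K ≃+* K) : K →+* K) * Q.map ((δ.2.1 : K ≃+* K) : K →+* K) :=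
        Matrix.map_mul
      have h3 : P.map ((δ.2.1 : K ≃+* K) : K →+* K) = P := hTP _ δ.2.2
      have h4 : Q.map ((δ.2.1 : K ≃+* K) : K →+* K) = Q := hTQ _ δ.2.2
      rw [h3, h4] at h2
      rw [hPQ]
      exact h2
    calc (A.map δ.2.1) * e b = (A * e b).map δ.2.1 := by rw [map_mulm, hee]
      _ = _ := by rw [hA, map_mulm, hee]
  rw [thc, tht_apply, cmp_map _ (hTP _ δ.2.2) (hTQ _ δ.2.2),
    cmp_mul hPQ hQP (g.rD _ _ (h.mem b)), cmp_mul hPQ hQP h1]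

/-! ### The standing assumptions of the component theorem -/

include hPQ in
theorem e_map {τ : K ≃+* K} (hP : P.map τ = P) (hQ : Q.map τ = Q) : (e b).map τ = e b := by
  have h2 : (P * Q).map ((τ : K ≃+* K) : K →+* K) =
      P.map ((τ : K ≃+* K) : K →+* K) * Q.map ((τ : K ≃+* K) : K →+* K) := Matrix.map_mul
  have h3 : P.map ((τ : K ≃+* K) : K →+* K) = P := hP
  have h4 : Q.map ((τ : K ≃+* K) : K →+* K) = Q := hQ
  rw [h3, h4] at h2
  rw [hPQ]
  exact h2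

include hPQ in
theorem map_comm {τ : K ≃+* K} (hP : P.map τ = P) (hQ : Q.map τ = Q) {A : Matrix ι ι K}
    (hA : A * e b = e b * A) : A.map τ * e b = e b * A.map τ := by
  have hee := e_map (e := e) hPQ hP hQ
  calc (A.map τ) * e b = (A * e b).map τ := by rw [map_mulm, hee]
    _ = _ := by rw [hA, map_mulm, hee]

include h g in
theorem r_comm (γ γ' : Γ) {A : Matrix ι ι K} (hA : A * e b = e b * A) :
    (r γ * A * r γ') * e b = e b * (r γ * A * r γ') := by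
  have h1 := g.rD γ _ (h.mem b)
  have h2 := g.rD γ' _ (h.mem b)
  calc (r γ * A * r γ') * e b = r γ * A * (r γ' * e b) := by noncomm_ring
    _ = r γ * (A * e b) * r γ' := by rw [h2]; noncomm_ring
    _ = (r γ * e b) * A * r γ' := by rw [hA]; noncomm_ring
    _ = _ := by rw [h1]; noncomm_ring

theorem thc_symm_cmp (hTP : ∀ τ ∈ T, P.map τ = P) (hTQ : ∀ τ ∈ T, Q.map τ = Q)
    (δ : Γ × T) {A : Matrix ι ι K} (hA : A * e b = e b * A) :
    phi (cmp P Q A) = thc h hPQ hQP g δ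
      (phi (cmp P Q ((r δ.1⁻¹ * A * r δ.1).map δ.2.1.symm))) := by
  have hs := g.Tsymm _ δ.2.2
  rw [thc_cmp h hPQ hQP g hTP hTQ δ (map_comm hPQ (hTP _ hs) (hTQ _ hs) (r_comm h g _ _ hA)),
    map_symmm']
  congr 2
  calc A = (r δ.1 * r δ.1⁻¹) * A * (r δ.1 * r δ.1⁻¹) := by rw [g.rr, one_mul, mul_one]
    _ = _ := by noncomm_ring

include h hb hPQ hQP g in
theorem cmp_r_sim (γ : Γ) : ∃ c : K, c ≠ 0 ∧
    (cmp P Q (r γ))ᵀ * (Pᵀ * J * P) * cmp P Q (r γ) = c • (Pᵀ * J * P) := by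
  have hpJ : (e b)ᵀ * J = J * e b := by
    have := h.adj b
    rwa [hb] at this
  obtain ⟨c, hc0, hc⟩ := g.sim γ
  refine ⟨c, hc0, ?_⟩
  have h1 := P_cmp hPQ hQP (g.rD γ _ (h.mem b))
  have h2 := cmp_form hPQ hQP hpJ
  calc (cmp P Q (r γ))ᵀ * (Pᵀ * J * P) * cmp P Q (r γ) =
      (Pᵀ * (r γ)ᵀ * (Qᵀ * (Pᵀ * J * P))) * cmp P Q (r γ) := by
        rw [cmp_apply, Matrix.transpose_mul, Matrix.transpose_mul]
        simp only [Matrix.mul_assoc]
    _ = Pᵀ * (r γ)ᵀ * J * (P * cmp P Q (r γ)) := by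
        rw [h2]
        simp only [Matrix.mul_assoc]
    _ = Pᵀ * ((r γ)ᵀ * J * r γ) * P := by
        rw [h1]
        simp only [Matrix.mul_assoc]
    _ = _ := by rw [hc, Matrix.mul_smul, Matrix.smul_mul]

/-- the involution -/
noncomputable def yc (P : Matrix ι (Fin n) K) (Q : Matrix (Fin n) ι K) (h₀ : Matrix ι ι K) :
    Module.End K (Fin n → K) := phi (cmp P Q ((2 : K) • h₀ - 1))

include g in
theorem A0_mem : (2 : K) • h₀ - 1 ∈ preL J S := by
  refine ⟨⟨-1, (2 : K) • h₀, (zlie S).smul_mem _ g.h0z, ?_⟩, 0, ?_⟩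
  · rw [neg_smul, one_smul]; abel
  · rw [Matrix.transpose_sub, Matrix.transpose_smul, Matrix.transpose_one, sub_mul, mul_sub,
      smul_mul_assoc, mul_smul_comm, one_mul, mul_one]
    have : (2 : K) • (h₀ᵀ * J) - J + ((2 : K) • (J * h₀) - J) =
        (2 : K) • (h₀ᵀ * J + J * h₀) - (2 : K) • J := by module
    rw [this, g.h0s, sub_self, zero_smul]

include h g in
theorem preL_ec {A : Matrix ι ι K} (hA : A ∈ preL J S) : A * e b = e b * A :=
  preL_commute g.one (fun s hs => g.SD s hs _ (h.mem b)) hA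

include h hb hJ hdet hPQ hQP g hTP hTQ in
theorem orb_comp [IsAlgClosed K] (hn : 0 < n) :
    Orb (Lc J S P Q) (Pᵀ * J * P) (fun δ : Γ × T => δ.2.1) (thc h hPQ hQP g)
      (yc P Q h₀) := by
  have hpJ : (e b)ᵀ * J = J * e b := by
    have := h.adj b
    rwa [hb] at this
  have hdb := det_cmp hPQ hQP hpJ hdet
  have hJb : (Pᵀ * J * P)ᵀ = -(Pᵀ * J * P) := by
    rw [Matrix.transpose_mul, Matrix.transpose_mul, Matrix.transpose_transpose, hJ,
      Matrix.neg_mul, Matrix.mul_neg, Matrix.mul_assoc]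
  set 𝓗 : Set (Matrix ι ι K) := {x | ∃ γ, ∃ τ ∈ T, x = r γ * h₀.map τ * r γ⁻¹} with h𝓗
  have hadj : ∀ τ ∈ T, (h₀.map τ)ᵀ * J + J * h₀.map τ = J := by
    intro τ hτ
    have e1 : (h₀.map τ)ᵀ = (h₀ᵀ).map τ := rfl
    have hJτ := g.TJ τ hτ
    calc (h₀.map τ)ᵀ * J + J * h₀.map τ = (h₀ᵀ * J + J * h₀).map τ := by
          rw [map_addm, map_mulm, map_mulm, hJτ, e1]
      _ = _ := by rw [g.h0s, hJτ]
  have hamb : Amb (Lb J S P Q) (adjE (Pᵀ * J * P)) := by
    refine amb_comp h hb hJ hdet hPQ hQP g.one g.SD g.semis g.commt (𝓗 := 𝓗) ?_ ?_ ?_ ?_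
    · rintro _ ⟨γ, τ, hτ, rfl⟩
      exact g.zlie_r γ (zlie_map τ (g.TS τ hτ) g.h0z)
    · rintro _ ⟨γ, τ, hτ, rfl⟩
      have h1 : h₀.map τ * h₀.map τ = h₀.map τ := by rw [← map_mulm, g.h0i]
      calc r γ * h₀.map τ * r γ⁻¹ * (r γ * h₀.map τ * r γ⁻¹) =
          r γ * h₀.map τ * (r γ⁻¹ * r γ) * h₀.map τ * r γ⁻¹ := by noncomm_ring
        _ = r γ * (h₀.map τ * h₀.map τ) * r γ⁻¹ := by rw [g.rr']; noncomm_ring
        _ = _ := by rw [h1]
    · rintro _ ⟨γ, τ, hτ, rfl⟩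
      obtain ⟨s, hs0, hs⟩ := g.sim γ
      have := conj_sim (J := J) (A := h₀.map τ) (s := 1) (g.rr γ) hs (by
        rw [hadj τ hτ, one_smul])
      rw [this, one_smul]
    · refine g.gen.trans (zar_mono ?_)
      apply Submonoid.closure_mono
      rintro _ ⟨γ, τ, hτ, t, ht, rfl⟩
      exact ⟨_, ⟨γ, τ, hτ, rfl⟩, t, ht, rfl⟩
  have hsk : ∀ X Y : Module.End K (Fin n → K), adjE (Pᵀ * J * P) X = -X →
      adjE (Pᵀ * J * P) Y = -Y → adjE (Pᵀ * J * P) (X * Y - Y * X) = -(X * Y - Y * X) := by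
    intro X Y h1 h2
    rw [map_sub, adjE_mul hdb, adjE_mul hdb, h1, h2]
    have e1 : (-Y) * (-X) = Y * X := neg_mul_neg Y X
    have e2 : (-X) * (-Y) = X * Y := neg_mul_neg X Y
    rw [neg_sub]
    exact congrArg₂ (· - ·) e1 e2
  have hJτb : ∀ τ ∈ T, (Pᵀ * J * P).map τ = Pᵀ * J * P := by
    intro τ hτ
    have h1 : (Pᵀ * J * P).map (τ : K →+* K) = (Pᵀ).map (τ : K →+* K) * J.map (τ : K →+* K) *
        P.map (τ : K →+* K) := by rw [Matrix.map_mul, Matrix.map_mul]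
    have h2 : P.map (τ : K →+* K) = P := hTP τ hτ
    have h3 : J.map (τ : K →+* K) = J := g.TJ τ hτ
    have h4 : (Pᵀ).map (τ : K →+* K) = Pᵀ := by
      change (P.map (τ : K →+* K))ᵀ = Pᵀ
      rw [h2]
    rw [h2, h3, h4] at h1
    exact h1
  refine ⟨?_, ?_, hJb, hdb, fun X hX => hX.2, fun δ c X => tht_smul _ _ c X, ?_, ?_, ?_, ?_, ?_⟩
  · -- lie
    intro X hX Y hY
    exact ⟨hamb.lie X hX.1 Y hY.1, hsk X Y hX.2 hY.2⟩
  · -- irr
    intro W hW
    exact hamb.irr W (fun y hy w hw => hW y ⟨hy.1, hy.2.2⟩ w hw)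
  · -- stab
    intro δ X
    have hadjθ : ∀ X, adjE (Pᵀ * J * P) (thc h hPQ hQP g δ X) =
        thc h hPQ hQP g δ (adjE (Pᵀ * J * P) X) := by
      intro X
      obtain ⟨c, hc0, hc⟩ := cmp_r_sim h hb hPQ hQP g δ.1
      exact tht_adj _ _ (hJτb _ δ.2.2) hdb hc0 hc X
    constructor
    · rintro ⟨h1, h2⟩
      refine ⟨?_, ?_⟩
      · obtain ⟨x, rfl⟩ := (phi (ι := Fin n) (K := K)).surjective X
        obtain ⟨A, hA, rfl⟩ := mem_Lb.1 h1
        rw [thc_cmp h hPQ hQP g hTP hTQ δ (preL_ec h g hA)]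
        exact mem_Lb.2 ⟨_, g.preL_r δ.1 (g.preL_T δ.2.2 hA), rfl⟩
      · rw [hadjθ, h2, map_neg]
    · rintro ⟨h1, h2⟩
      refine ⟨?_, ?_⟩
      · obtain ⟨x, hx⟩ := (phi (ι := Fin n) (K := K)).surjective (thc h hPQ hQP g δ X)
        rw [← hx] at h1
        obtain ⟨A, hA, rfl⟩ := mem_Lb.1 h1
        rw [thc_symm_cmp h hPQ hQP g hTP hTQ δ (preL_ec h g hA)] at hx
        rw [← (thc h hPQ hQP g δ).injective hx]
        refine mem_Lb.2 ⟨_, g.preL_T (g.Tsymm _ δ.2.2) ?_, rfl⟩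
        have := g.preL_r δ.1⁻¹ hA
        rwa [inv_inv] at this
      · apply (thc h hPQ hQP g δ).injective
        rw [← hadjθ, h2, map_neg]
  · -- adjθ
    intro δ X
    obtain ⟨c, hc0, hc⟩ := cmp_r_sim h hb hPQ hQP g δ.1
    exact tht_adj _ _ (hJτb _ δ.2.2) hdb hc0 hc X
  · -- y_mem
    refine ⟨mem_Lb.2 ⟨_, A0_mem g, rfl⟩, ?_⟩
    rw [yc, skew_iff hdb, cmp_sim hPQ hQP hpJ (preL_ec h g (A0_mem g))]
    have h1 : ((2 : K) • h₀ - 1)ᵀ * J + J * ((2 : K) • h₀ - 1) = 0 := by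
      rw [Matrix.transpose_sub, Matrix.transpose_smul, Matrix.transpose_one, sub_mul, mul_sub,
        smul_mul_assoc, mul_smul_comm, one_mul, mul_one]
      have : (2 : K) • (h₀ᵀ * J) - J + ((2 : K) • (J * h₀) - J) =
          (2 : K) • (h₀ᵀ * J + J * h₀) - (2 : K) • J := by module
      rw [this, g.h0s, sub_self]
    rw [h1, Matrix.mul_zero, Matrix.zero_mul]
  · -- y_sq
    rw [yc, ← map_mul, ← cmp_mul hPQ hQP (preL_ec h g (A0_mem g)),
      ← map_one (phi (ι := Fin n) (K := K))]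
    congr 1
    have h1 : ((2 : K) • h₀ - 1) * ((2 : K) • h₀ - 1) = 1 := by
      simp only [sub_mul, mul_sub, smul_mul_assoc, mul_smul_comm, g.h0i, mul_one, one_mul]
      module
    rw [h1, cmp_one hPQ hQP]
  · -- gen
    intro t ht
    obtain ⟨t, rfl⟩ := (phi (ι := Fin n) (K := K)).surjective t
    have hxe : ∀ γ, ∀ τ ∈ T, (r γ * h₀.map τ * r γ⁻¹) ∈ preL J S := by
      intro γ τ hτ
      apply g.preL_r γ
      apply g.preL_T hτ
      refine ⟨⟨0, h₀, g.h0z, by rw [zero_smul, add_zero]⟩, 1, ?_⟩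
      rw [g.h0s, one_smul]
    have h1 : ∀ γ, ∀ τ ∈ T, t * cmp P Q (r γ * h₀.map τ * r γ⁻¹) =
        cmp P Q (r γ * h₀.map τ * r γ⁻¹) * t := by
      intro γ τ hτ
      have h2 := ht (γ, ⟨τ, hτ⟩)
      rw [yc, thc_cmp h hPQ hQP g hTP hTQ _ (preL_ec h g (A0_mem g)), ← map_mul, ← map_mul] at h2
      have h3 := (phi (ι := Fin n) (K := K)).injective h2
      have h4 : r γ * ((2 : K) • h₀ - 1).map τ * r γ⁻¹ =
          (2 : K) • (r γ * h₀.map τ * r γ⁻¹) - 1 := by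
        have h5 : ((2 : K) • h₀ - 1).map τ = (2 : K) • h₀.map τ - 1 := by
          have h6 : ((2 : K) • h₀ - 1) = (2 : K) • h₀ + (-1 : K) • (1 : Matrix ι ι K) := by
            rw [neg_smul, one_smul, sub_eq_add_neg]
          rw [h6, map_addm, map_smulm, map_smulm, map_onem, map_neg, map_one, neg_smul, one_smul,
            ← sub_eq_add_neg]
          congr 2
          exact map_ofNat τ 2
        rw [h5, mul_sub, sub_mul, mul_one, g.rr, mul_smul_comm, smul_mul_assoc]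
      change t * cmp P Q (r γ * ((2 : K) • h₀ - 1).map τ * r γ⁻¹) =
        cmp P Q (r γ * ((2 : K) • h₀ - 1).map τ * r γ⁻¹) * t at h3
      rw [h4, map_sub, map_smul, mul_sub, sub_mul, cmp_one hPQ hQP, mul_one, one_mul,
        mul_smul_comm, smul_mul_assoc] at h3
      have h7 : (2 : K) • (t * cmp P Q (r γ * h₀.map τ * r γ⁻¹)) =
          (2 : K) • (cmp P Q (r γ * h₀.map τ * r γ⁻¹) * t) := sub_left_injective h3
      exact smul_right_injective _ (by norm_num : (2 : K) ≠ 0) h7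
    set t' : Matrix ι ι K := P * t * Q with ht'
    have h2 : ∀ γ, ∀ τ ∈ T, t' * (r γ * h₀.map τ * r γ⁻¹) = (r γ * h₀.map τ * r γ⁻¹) * t' := by
      intro γ τ hτ
      have hc := preL_ec (b := b) h g (hxe γ τ hτ)
      calc t' * (r γ * h₀.map τ * r γ⁻¹) = P * t * (Q * (r γ * h₀.map τ * r γ⁻¹)) := by
            rw [ht']
            simp only [Matrix.mul_assoc]
        _ = P * (t * cmp P Q (r γ * h₀.map τ * r γ⁻¹)) * Q := by
            rw [← cmp_Q hPQ hQP hc]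
            simp only [Matrix.mul_assoc]
        _ = (P * cmp P Q (r γ * h₀.map τ * r γ⁻¹)) * t * Q := by
            rw [h1 γ τ hτ]
            simp only [Matrix.mul_assoc]
        _ = _ := by
            rw [P_cmp hPQ hQP hc, ht']
            simp only [Matrix.mul_assoc]
    have h3 : ∀ s ∈ S, s * t' = t' * s := by
      intro s hs
      refine zar_commute ?_ (g.gen hs)
      intro m hm
      refine Submonoid.closure_induction (motive := fun m _ => m * t' = t' * m) ?_ ?_ ?_ hm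
      · rintro _ ⟨γ, τ, hτ, c, -, rfl⟩
        rw [add_mul, mul_add, one_mul, mul_one, smul_mul_assoc, mul_smul_comm, h2 γ τ hτ]
      · rw [one_mul, mul_one]
      · intro x z _ _ hx hz
        rw [mul_assoc, hz, ← mul_assoc, hx, mul_assoc]
    have h4 := g.commt t' (fun s hs => (h3 s hs).symm)
    obtain ⟨c, hc⟩ := h.corner b t' h4
    refine ⟨c, ?_⟩
    have h5 : t = c • 1 := by
      have h6 := congrArg (fun X => Q * X * P) hc
      have h7 : Q * (e b * t' * e b) * P = t := by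
        calc Q * (e b * t' * e b) * P = (Q * (e b)) * t' * (e b * P) := by
              simp only [Matrix.mul_assoc]
          _ = Q * t' * P := by rw [Q_p hPQ hQP, p_P hPQ hQP]
          _ = (Q * P) * t * (Q * P) := by
              rw [ht']
              simp only [Matrix.mul_assoc]
          _ = t := by rw [hQP, Matrix.one_mul, Matrix.mul_one]
      have h8 : Q * (c • e b) * P = c • 1 := by
        rw [Matrix.mul_smul, Matrix.smul_mul, Q_p hPQ hQP, hQP]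
      change Q * (e b * t' * e b) * P = Q * (c • e b) * P at h6
      rw [h7, h8] at h6
      exact h6
    rw [h5, map_smul, map_one]

end

end Pool.Agent.H76T
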