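import Pool.Agent.Lib.H76T.TB3

/-!
# All transvections of a component
-/

set_option autoImplicit false
set_option linter.unusedSectionVars false
namespace Pool.Agent.H76T
open Module Matrix Pool.Agent.H53Toric Pool.Agent.H76U Pool.Agent.H76F
open Pool.Agent.H76RM (zar_commute zlie_commute van)

variable {ι : Type*} [Fintype ι] [DecidableEq ι] {K : Type*} [Field K]

/-- A matrix of square zero in the Lie algebra, skew for the form. -/
def Nil (S : Set (Matrix ι ι K)) (J N : Matrix ι ι K) : Prop :=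
  N ∈ zlie S ∧ Nᵀ * J + J * N = 0 ∧ N * N = 0

/-- The numerical conditions for a component of rank `n` cut out by `p`: either `n` avoids the
exceptional values or a matrix of square zero excludes the exceptional representations; `Q k`
says that there are not `k` simple factors. -/
structure NumC (S : Set (Matrix ι ι K)) (J p : Matrix ι ι K) (n : ℕ) (Q : ℕ → Prop) : Prop where
  num0 : ∀ a k : ℕ, 3 ≤ k → Odd k → n = a ^ k → Q k ∨ ∃ N, Nil S J N ∧
      ¬ a ^ (k - 1) ∣ (N * p).rank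
  num1 : ∀ m : ℕ, 5 ≤ m → (m % 4 = 1 ∨ m % 4 = 2) → n = 2 ^ m →
      ∃ N, Nil S J N ∧ N * p ≠ 0 ∧ 4 * (N * p).rank ≠ n ∧ 2 * (N * p).rank ≠ n
  num2 : ∀ k : ℕ, 3 ≤ k → Odd k → n = k.centralBinom →
      ∃ N, Nil S J N ∧ N * p ≠ 0 ∧ (N * p).rank ≠ (k - 1).centralBinom

section
variable [CharZero K] [IsAlgClosed K] {B : Type*} [Fintype B] [DecidableEq B]
    {J : Matrix ι ι K} {DD : Submodule K (Matrix ι ι K)}
    {bar : B → B} {e : B → Matrix ι ι K} (h : Split4 J DD bar e) {b : B} (hb : bar b = b)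
    (hJ : Jᵀ = -J) (hdet : IsUnit J.det)
    {n : ℕ} {P : Matrix ι (Fin n) K} {Q : Matrix (Fin n) ι K}
    (hPQ : e b = P * Q) (hQP : Q * P = 1)
    {S : Set (Matrix ι ι K)}
    {Γ : Type*} [Group Γ] {r : Γ →* Matrix ι ι K} {T : Set (K ≃+* K)} {h₀ : Matrix ι ι K}
    (g : SG S J DD r T h₀) (hTP : ∀ τ ∈ T, P.map τ = P) (hTQ : ∀ τ ∈ T, Q.map τ = Q)

include h hb hdet hPQ hQP g in
/-- compression of a matrix of square zero -/
theorem nil_mem {N : Matrix ι ι K} (hN : Nil S J N) :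
    phi (cmp P Q N) ∈ Lc J S P Q ∧ phi (cmp P Q N) * phi (cmp P Q N) = 0 ∧
      finrank K (LinearMap.range (phi (cmp P Q N))) = (N * e b).rank ∧
      (N * e b ≠ 0 → phi (cmp P Q N) ≠ 0) := by
  have hpJ : (e b)ᵀ * J = J * e b := by
    have := h.adj b
    rwa [hb] at this
  have hdb := det_cmp hPQ hQP hpJ hdet
  obtain ⟨hNz, hNs, hN2⟩ := hN
  have hNL : N ∈ preL J S :=
    ⟨⟨0, N, hNz, by rw [zero_smul, add_zero]⟩, 0, by rw [hNs, zero_smul]⟩
  have hNe := preL_ec (b := b) h g hNL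
  refine ⟨⟨mem_Lb.2 ⟨N, hNL, rfl⟩, ?_⟩, ?_, ?_, ?_⟩
  · rw [skew_iff hdb, cmp_sim hPQ hQP hpJ hNe, hNs, Matrix.mul_zero, Matrix.zero_mul]
  · rw [← map_mul, ← cmp_mul hPQ hQP hNe, hN2, map_zero, map_zero]
  · change (cmp P Q N).rank = _
    exact rank_cmp hPQ hQP hNe
  · intro hne h0
    apply hne
    have h1 : cmp P Q N = 0 := by
      apply (phi (ι := Fin n) (K := K)).injective
      rw [h0, map_zero]
    have h2 : N * e b = (P * cmp P Q N) * Q := by
      rw [P_cmp hPQ hQP hNe, Matrix.mul_assoc, ← hPQ]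
    rw [h2, h1, Matrix.mul_zero, Matrix.zero_mul]

include h hb hJ hdet hPQ hQP g hTP hTQ in
/-- all the transvections of the component -/
theorem fu_full (hn : 0 < n) {QQ : ℕ → Prop}
    (hQ : ∀ k, 3 ≤ k → QQ k → ∀ I : Fin k → Submodule K (Module.End K (Fin n → K)),
      ¬ Fam (Lc J S P Q) I)
    (num : NumC S J (e b) n QQ)
    {u : ι → K} (hu : e b *ᵥ u = u) :
    ∃ A ∈ zlie S, Aᵀ * J + J * A = 0 ∧ phi A * phi (e b) = tw (om J) u u := by
  have hpJ : (e b)ᵀ * J = J * e b := by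
    have := h.adj b
    rwa [hb] at this
  have hdb := det_cmp hPQ hQP hpJ hdet
  have hJb : (Pᵀ * J * P)ᵀ = -(Pᵀ * J * P) := by
    rw [Matrix.transpose_mul, Matrix.transpose_mul, Matrix.transpose_transpose, hJ,
      Matrix.neg_mul, Matrix.mul_neg, Matrix.mul_assoc]
  have : Nonempty (Fin n) := ⟨⟨0, hn⟩⟩
  have horb := orb_comp h hb hJ hdet hPQ hQP g hTP hTQ hn
  have hnil := fun {N : Matrix ι ι K} (hN : Nil S J N) => nil_mem h hb hdet hPQ hQP g hN
  have hfull : ∀ {X : Module.End K (Fin n → K)}, adjE (Pᵀ * J * P) X = -X →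
      X ∈ Lc J S P Q := by
    intro X hX
    refine horb.full ?_ ?_ ?_ hX
    · intro a k hk hko hc I hI
      rw [Fintype.card_fin] at hc
      rcases num.num0 a k hk hko hc with h1 | ⟨N, hN, hr⟩
      · exact absurd hI (hQ k hk h1 I)
      · obtain ⟨h1, h2, h3, h4⟩ := hnil hN
        exact ⟨_, h1, h2, by rw [h3]; exact hr⟩
    · intro m hm hm4 hc
      rw [Fintype.card_fin] at hc
      obtain ⟨N, hN, h0, hr1, hr2⟩ := num.num1 m hm hm4 hc
      obtain ⟨h1, h2, h3, h4⟩ := hnil hN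
      exact ⟨_, h1, h2, h4 h0, by rw [h3, Fintype.card_fin]; exact hr1,
        by rw [h3, Fintype.card_fin]; exact hr2⟩
    · intro k hk hko hc
      rw [Fintype.card_fin] at hc
      obtain ⟨N, hN, h0, hr⟩ := num.num2 k hk hko hc
      obtain ⟨h1, h2, h3, h4⟩ := hnil hN
      exact ⟨_, h1, h2, h4 h0, by rw [h3]; exact hr⟩
  set d := Q *ᵥ u with hd
  have hPd : P *ᵥ d = u := by rw [hd, Matrix.mulVec_mulVec, ← hPQ, hu]
  set X := Matrix.vecMulVec d ((Pᵀ * J * P) *ᵥ d) with hX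
  have hXphi : phi X = trv (om (Pᵀ * J * P)) d := phi_trv _ _
  have hX2 : X * X = 0 := by
    apply (phi (ι := Fin n) (K := K)).injective
    rw [map_mul, hXphi, map_zero, trv_sq (om_alt hJb)]
  have hXg := hfull ((skew_iff hdb X).2 (trv_skew hJb d))
  obtain ⟨M, hM, hXMX⟩ := exists_partner horb.lie horb.irr horb.tr hXg
    (by rw [← map_mul, hX2, map_zero])
  obtain ⟨m, rfl⟩ := (phi (ι := Fin n) (K := K)).surjective M
  obtain ⟨A, hA, hAX⟩ := mem_Lb.1 hXg.1
  obtain ⟨C, hC, hCm⟩ := mem_Lb.1 hM.1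
  have e1 : X * m * X = X := by
    apply (phi (ι := Fin n) (K := K)).injective
    rw [map_mul, map_mul, hXMX]
  have hAe := preL_ec (b := b) h g hA
  have hCe := preL_ec (b := b) h g hC
  obtain ⟨h1, h2⟩ := preL_bracket hA hC
  have hE : A * C - C * A ∈ preL J S :=
    ⟨⟨0, _, h1, by rw [zero_smul, add_zero]⟩, 0, by rw [h2, zero_smul]⟩
  have hEe := preL_ec (b := b) h g hE
  obtain ⟨h3, h4⟩ := preL_bracket hE hA
  have e2 : cmp P Q ((A * C - C * A) * A - A * (A * C - C * A)) = (2 : K) • X := by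
    rw [map_sub, cmp_mul hPQ hQP hAe, cmp_mul hPQ hQP hEe, map_sub, cmp_mul hPQ hQP hCe,
      cmp_mul hPQ hQP hAe, hAX, hCm]
    have : (X * m - m * X) * X - X * (X * m - m * X) =
        (2 : K) • (X * m * X) - m * (X * X) - (X * X) * m := by
      rw [two_smul]; noncomm_ring
    rw [this, e1, hX2]; simp
  set E := (A * C - C * A) * A - A * (A * C - C * A) with hEdef
  have hEL : E ∈ preL J S :=
    ⟨⟨0, _, h3, by rw [zero_smul, add_zero]⟩, 0, by rw [h4, zero_smul]⟩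
  have hEe' := preL_ec (b := b) h g hEL
  refine ⟨(1 / 2 : K) • E, (zlie S).smul_mem _ h3, ?_, ?_⟩
  · rw [Matrix.transpose_smul, smul_mul_assoc, mul_smul_comm, ← smul_add, h4, smul_zero]
  · rw [← map_mul]
    apply LinearMap.ext
    intro v
    rw [phi_apply, tw_apply, smul_mul_assoc, Matrix.smul_mulVec]
    have h5 : E * e b = P * cmp P Q E * Q := by
      rw [P_cmp hPQ hQP hEe', Matrix.mul_assoc, ← hPQ]
    rw [h5, e2, Matrix.mul_smul, Matrix.smul_mul, Matrix.smul_mulVec, smul_smul]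
    norm_num
    rw [← Matrix.mulVec_mulVec, ← Matrix.mulVec_mulVec, ← phi_apply X, hXphi, trv_apply,
      Matrix.mulVec_smul, hPd, om_cmp hPQ hQP hpJ, hPd, Matrix.mulVec_mulVec _ P Q, ← hPQ,
      h.self, hb, hu]

end

end Pool.Agent.H76T
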