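import Pool.Agent.Lib.H76T.TB4
import Pool.Agent.Lib.H76RM.Final

/-!
# The monodromy group from seeds
-/

set_option autoImplicit false
set_option linter.unusedSectionVars false
namespace Pool.Agent.H76T
open Module Matrix Pool.Agent.H53Toric Pool.Agent.H76RM

variable {ι : Type*} [Fintype ι] [DecidableEq ι]

/-- The monodromy group, over an algebraically closed field. -/
theorem monodromy_seed {ψ : Matrix ι ι ℚ}
    (hψ : ψᵀ = -ψ) (hψ0 : ψ.det ≠ 0) (D : Subalgebra ℚ (Matrix ι ι ℚ))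
    {L : Type*} [Field L] [CharZero L] {K : Type*} [Field K]
    [Algebra L K] [IsAlgClosed K] [CharZero K] {G : Type*} [Group G]
    (ρ : G →* Matrix.GeneralLinearGroup ι L)
    (lin : ∀ σ : G, ∀ d ∈ D, (ρ σ).1 * d.map (algebraMap ℚ L) =
      d.map (algebraMap ℚ L) * (ρ σ).1)
    (sim : ∀ σ : G, ∃ c : L, (ρ σ).1ᵀ * ψ.map (algebraMap ℚ L) * (ρ σ).1 =
      c • ψ.map (algebraMap ℚ L))
    (cyc : ∃ σ : G, ∃ c : L, (ρ σ).1ᵀ * ψ.map (algebraMap ℚ L) * (ρ σ).1 =
      c • ψ.map (algebraMap ℚ L) ∧ ∀ n : ℕ, n ≠ 0 → c ^ n ≠ 1)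
    (semis : ∀ H : Subgroup G, H.FiniteIndex → ∀ W : Submodule K (ι → K),
      (∀ s ∈ img K ρ H, ∀ w ∈ W, s *ᵥ w ∈ W) →
      ∃ W' : Submodule K (ι → K), (∀ s ∈ img K ρ H, ∀ w ∈ W', s *ᵥ w ∈ W') ∧ IsCompl W W')
    (commt : ∀ H : Subgroup G, H.FiniteIndex → ∀ y : Matrix ι ι K,
      (∀ s ∈ img K ρ H, y * s = s * y) → y ∈ spanK K D)
    {m : ℕ} {e : Fin m → Matrix ι ι K} (hspl : IsSplitting D ψ e)
    (seed : ∀ H₀ : Subgroup G, H₀.FiniteIndex → (van (img K ρ H₀)).IsPrime →
      Setup (om (ψ.map (algebraMap ℚ K))) (fun b => phi (e b))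
        (lieE (ψ.map (algebraMap ℚ K)) (img K ρ H₀)) (opr (rep K ρ H₀)) →
      ∀ b, Seed (om (ψ.map (algebraMap ℚ K))) (fun b => phi (e b))
        (lieE (ψ.map (algebraMap ℚ K)) (img K ρ H₀)) b)
    (H : Subgroup G) (hH : H.FiniteIndex) : monodromy K ρ H = similD K ψ D := by
  classical
  obtain ⟨hJ, hdet⟩ := gram_basic hψ hψ0 K
  have hspl' := split_of hspl
  set J : Matrix ι ι K := ψ.map (algebraMap ℚ K) with hJdef
  have hlinK : ∀ σ : G, ∀ d ∈ D, (ρ σ).1.map (algebraMap L K) * d.map (algebraMap ℚ K) =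
      d.map (algebraMap ℚ K) * (ρ σ).1.map (algebraMap L K) := by
    intro σ d hd
    have h1 := congrArg (fun m : Matrix ι ι L => m.map (algebraMap L K)) (lin σ d hd)
    have h2 : (d.map (algebraMap ℚ L)).map (algebraMap L K) = d.map (algebraMap ℚ K) := by
      ext i j
      simp
    simp only [Matrix.map_mul] at h1
    rw [h2] at h1
    exact h1
  have hsimG : ∀ x : G, ∃ c : K, ((ρ x).1.map (algebraMap L K))ᵀ * J *
      (ρ x).1.map (algebraMap L K) = c • J := by
    intro x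
    obtain ⟨c, hc⟩ := sim x
    exact ⟨_, sim_map hc⟩
  rcases isEmpty_or_nonempty ι with hι | hι
  · have huniq : ∀ y z : Matrix ι ι K, y = z := by
      intro y z
      ext i
      exact (hι.false i).elim
    ext x
    constructor
    · rintro ⟨hx, -⟩
      exact ⟨hx, fun d _ => huniq _ _, 0, huniq _ _⟩
    · rintro ⟨hx, -, -⟩
      refine ⟨hx, ?_⟩
      rw [huniq x 1]
      exact subset_zar _ (img_one ρ H)
  obtain ⟨k, l, hkl⟩ : ∃ k l, J k l ≠ 0 := by
    by_contra hcon
    push Not at hcon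
    have : J = 0 := by
      ext i j
      exact hcon i j
    rw [this, Matrix.det_zero] at hdet
    exact not_isUnit_zero hdet
  have hne : J ≠ 0 := by
    intro h0
    apply hkl
    rw [h0]; rfl
  ext x
  constructor
  · rintro ⟨hx, hxz⟩
    refine ⟨hx, ?_, zar_sim hkl ?_ hxz⟩
    · intro d hd
      refine zar_commute ?_ hxz
      rintro _ ⟨y, -, rfl⟩
      exact hlinK y d hd
    · rintro _ ⟨y, -, rfl⟩
      exact hsimG y
  · rintro ⟨hx, hxD, c', hc'⟩
    refine ⟨hx, ?_⟩
    obtain ⟨H₀, hle, hfin, hprime⟩ := exists_prime (K := K) ρ H hH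
    have hsub : img K ρ H₀ ⊆ img K ρ H := by
      rintro _ ⟨σ, hσ, rfl⟩
      exact ⟨σ, hle hσ, rfl⟩
    apply zar_mono hsub
    have hrange := range_rep K ρ H₀
    set R := rep K ρ H₀ with hR
    have hsetup : Setup (om J) (fun b => phi (e b)) (lieE J (Set.range R)) (opr R) := by
      apply mk_setup hspl' hJ hdet hne R
      · intro y
        exact hsimG y.1
      · intro y d hd
        exact comm_span (hlinK y.1) d hd
      · rw [hrange]; exact hprime
      · intro W hW
        obtain ⟨W', h1, h2⟩ := semis H₀ hfin W (by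
          rw [← hrange]
          rintro _ ⟨y, rfl⟩ w hw
          exact hW y w hw)
        refine ⟨W', ?_, h2⟩
        intro y w hw
        apply h1 _ _ _ hw
        rw [← hrange]
        exact Set.mem_range_self y
      · intro y hy
        apply commt H₀ hfin y
        rw [← hrange]
        rintro _ ⟨z, rfl⟩
        exact hy z
    rw [hrange] at hsetup
    -- seeds
    have hseed : ∀ b, Seed (om J) (fun b => phi (e b)) (lieE J (img K ρ H₀)) b :=
      seed H₀ hfin hprime hsetup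
    -- the group
    obtain ⟨σ, c, hc, hroot⟩ := cyc
    obtain ⟨n, hn0, -, hn⟩ := Subgroup.exists_pow_mem_of_index_ne_zero
      (H := H₀) (Subgroup.FiniteIndex.index_ne_zero) σ
    have hcK := sim_map (K := K) hc
    have hpow : ∀ n : ℕ, (((ρ σ).1.map (algebraMap L K)) ^ n)ᵀ * J *
        ((ρ σ).1.map (algebraMap L K)) ^ n = (algebraMap L K c) ^ n • J := by
      intro n
      induction n with
      | zero => simp
      | succ n ih =>
        rw [pow_succ, Matrix.transpose_mul]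
        set x := (ρ σ).1.map (algebraMap L K)
        calc xᵀ * (x ^ n)ᵀ * J * (x ^ n * x) = xᵀ * ((x ^ n)ᵀ * J * x ^ n) * x := by
              noncomm_ring
          _ = (algebraMap L K c) ^ n • (xᵀ * J * x) := by rw [ih, mul_smul_comm, smul_mul_assoc]
          _ = _ := by rw [hcK, smul_smul, pow_succ]
    refine sim_mem (s := (ρ (σ ^ n)).1.map (algebraMap L K))
      (s' := (ρ (σ ^ n)⁻¹).1.map (algebraMap L K)) (c₀ := (algebraMap L K c) ^ n)
      hspl' (img_one ρ H₀) (img_mul ρ H₀) ?_ ?_ hJ hdet hne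
      ⟨_, hn, rfl⟩ ⟨_, H₀.inv_mem hn, rfl⟩ (img_inv ρ _) ?_ ?_ (isUnit_iff_ne_zero.2 hx)
      (comm_span hxD) hc'
    · rintro _ ⟨y, -, rfl⟩ d hd
      exact comm_span (hlinK y) d hd
    · intro b w hw
      obtain ⟨A, hA, h1, h2⟩ := hsetup.main hseed (b := b) (w := w) (by rw [phi_apply]; exact hw)
      obtain ⟨X, rfl⟩ := (phi (ι := ι) (K := K)).surjective A
      exact ⟨X, (mem_lieE.1 hA).1, h1, h2⟩
    · rw [img_pow]
      exact hpow n
    · intro j hj h0
      rw [← pow_mul, ← map_pow] at h0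
      apply hroot (n * j) (mul_ne_zero hn0.ne' hj)
      apply (algebraMap L K).injective
      rw [h0, map_one]

end Pool.Agent.H76T
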