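import Pool.Agent.Lib.H76T.TC1

/-!
# The semilinear group attached to a representation and a Hodge cocharacter
-/

set_option autoImplicit false
set_option linter.unusedSectionVars false
namespace Pool.Agent.H76T
open Module Matrix Pool.Agent.H53Toric Pool.Agent.H76RM
open Pool.Agent.H76U (Split4)

variable {ι : Type*} [Fintype ι] [DecidableEq ι]
variable {L : Type*} [Field L] {K : Type*} [Field K] [Algebra L K] {G : Type*} [Group G]

/-- The representation with values in the matrices over `K`. -/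
noncomputable def rK (K : Type*) [Field K] [Algebra L K]
    (ρ : G →* Matrix.GeneralLinearGroup ι L) : G →* Matrix ι ι K :=
  ((algebraMap L K).mapMatrix (m := ι)).toMonoidHom.comp
    ((Units.coeHom (Matrix ι ι L)).comp ρ)

theorem rK_apply (ρ : G →* Matrix.GeneralLinearGroup ι L) (s : G) :
    rK K ρ s = (ρ s).1.map (algebraMap L K) := rfl

/-- The automorphisms of `K` over `L`, as ring automorphisms. -/
def fixT (L K : Type*) [Field L] [Field K] [Algebra L K] : Set (K ≃+* K) :=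
  {τ | ∀ a : L, τ (algebraMap L K a) = algebraMap L K a}

theorem fixT_map {τ : K ≃+* K} (hτ : τ ∈ fixT L K) {m n : Type*} (A : Matrix m n L) :
    (A.map (algebraMap L K)).map τ = A.map (algebraMap L K) := by
  ext i j
  exact hτ _

theorem fixT_map_rat [Algebra ℚ K] {τ : K ≃+* K} {m n : Type*} (A : Matrix m n ℚ) :
    (A.map (algebraMap ℚ K)).map τ = A.map (algebraMap ℚ K) := by
  ext i j
  have : (τ : K →+* K).comp (algebraMap ℚ K) = algebraMap ℚ K := Subsingleton.elim _ _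
  exact congrArg (fun f : ℚ →+* K => f (A i j)) this

/-- the closure of a set with prime ideal does not change for subgroups of finite index -/
theorem img_sub_inf (ρ : G →* Matrix.GeneralLinearGroup ι L) {H H' : Subgroup G} [Infinite K]
    (hprime : (van (img K ρ H)).IsPrime) [hfin : H.FiniteIndex] [hfin' : H'.FiniteIndex] :
    img K ρ H ⊆ zar (img K ρ (H ⊓ H')) := by
  have hf : (H ⊓ H').FiniteIndex := inferInstance
  have h2 := Pool.Agent.H76F.van_min (K := K) ρ hprime (inf_le_left : H ⊓ H' ≤ H) hf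
  intro s hs f hfv
  have h3 : f ∈ van (img K ρ (H ⊓ H')) := hfv
  rw [h2] at h3
  exact h3 s hs

/-- The structure of the component theorem for the image of a subgroup of finite index. -/
theorem mk_sg [CharZero L] [CharZero K] [IsAlgClosed K] {ψ : Matrix ι ι ℚ}
    (hψ : ψᵀ = -ψ) (hψ0 : ψ.det ≠ 0) (D : Subalgebra ℚ (Matrix ι ι ℚ))
    (ρ : G →* Matrix.GeneralLinearGroup ι L)
    (lin : ∀ σ : G, ∀ d ∈ D, (ρ σ).1 * d.map (algebraMap ℚ L) =
      d.map (algebraMap ℚ L) * (ρ σ).1)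
    (sim : ∀ σ : G, ∃ c : L, (ρ σ).1ᵀ * ψ.map (algebraMap ℚ L) * (ρ σ).1 =
      c • ψ.map (algebraMap ℚ L))
    (semis : ∀ H : Subgroup G, H.FiniteIndex → ∀ W : Submodule K (ι → K),
      (∀ s ∈ img K ρ H, ∀ w ∈ W, s *ᵥ w ∈ W) →
      ∃ W' : Submodule K (ι → K), (∀ s ∈ img K ρ H, ∀ w ∈ W', s *ᵥ w ∈ W') ∧ IsCompl W W')
    (commt : ∀ H : Subgroup G, H.FiniteIndex → ∀ y : Matrix ι ι K,
      (∀ s ∈ img K ρ H, y * s = s * y) → y ∈ spanK K D)
    {h₀ : Matrix ι ι K} (hh : h₀ ∈ hodgeProj (img K ρ ⊤)) (h0 : h₀ ≠ 0) (h1 : h₀ ≠ 1)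
    {H' : Subgroup G} (hH' : H'.FiniteIndex)
    (hgen : img K ρ H' ⊆ zar (Submonoid.closure {m | ∃ s : G, ∃ τ ∈ fixT L K, ∃ t : K,
      t ≠ 0 ∧ m = 1 + (t - 1) • (rK K ρ s * h₀.map τ * rK K ρ s⁻¹)} : Set (Matrix ι ι K)))
    {H : Subgroup G} (hfin : H.FiniteIndex) (hprime : (van (img K ρ H)).IsPrime) :
    SG (img K ρ H) (ψ.map (algebraMap ℚ K)) (spanK K D) (rK K ρ) (fixT L K) h₀ := by
  obtain ⟨hJ, hdet⟩ := gram_basic hψ hψ0 K
  set J : Matrix ι ι K := ψ.map (algebraMap ℚ K) with hJdef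
  have hlinK : ∀ σ : G, ∀ d ∈ D, (ρ σ).1.map (algebraMap L K) * d.map (algebraMap ℚ K) =
      d.map (algebraMap ℚ K) * (ρ σ).1.map (algebraMap L K) := by
    intro σ d hd
    have h1 := congrArg (fun m : Matrix ι ι L => m.map (algebraMap L K)) (lin σ d hd)
    have h2 : (d.map (algebraMap ℚ L)).map (algebraMap L K) = d.map (algebraMap ℚ K) := by
      ext i j
      simp
    simp only [Matrix.map_mul] at h1
    rw [h2] at h1
    exact h1
  have hsimG : ∀ x : G, ∃ c : K, ((ρ x).1.map (algebraMap L K))ᵀ * J *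
      (ρ x).1.map (algebraMap L K) = c • J := by
    intro x
    obtain ⟨c, hc⟩ := sim x
    exact ⟨_, sim_map hc⟩
  have hsimI : ∀ H' : Subgroup G, ∀ s ∈ img K ρ H', ∃ c : K, sᵀ * J * s = c • J := by
    rintro H' _ ⟨y, -, rfl⟩
    exact hsimG y
  have hι : Nonempty ι := by
    by_contra hemp
    rw [not_nonempty_iff] at hemp
    apply h0
    ext i
    exact (hemp.false i).elim
  obtain ⟨k, l, hkl⟩ : ∃ k l, J k l ≠ 0 := by
    by_contra hcon
    push Not at hcon
    have : J = 0 := by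
      ext i j
      exact hcon i j
    rw [this, Matrix.det_zero] at hdet
    exact not_isUnit_zero hdet
  have hne : J ≠ 0 := by
    intro h0
    apply hkl
    rw [h0]; rfl
  have hhH : h₀ ∈ hodgeProj (img K ρ H) := hodgeProj_finite ρ H hh
  refine ⟨img_one ρ H, ?_, semis H hfin, commt H hfin,
    fun γ => Pool.Agent.H76F.van_conj ρ hprime hfin γ, ?_, ?_, ?_, ?_, ?_, ?_,
    hodgeProj_zlie (img_mul ρ H) hhH, hh.1, (proj_sim' hdet hkl (hsimI ⊤) hh h0 h1).2, ?_⟩
  · rintro _ ⟨y, -, rfl⟩ d hd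
    exact comm_span (hlinK y) d hd
  · intro γ
    obtain ⟨c, hc⟩ := hsimG γ
    refine ⟨c, ?_, hc⟩
    rintro rfl
    rw [zero_smul] at hc
    apply hne
    have h2 := img_inv (K := K) ρ γ
    have hss' : ((ρ γ⁻¹).1.map (algebraMap L K))ᵀ * ((ρ γ).1.map (algebraMap L K))ᵀ = 1 := by
      rw [← Matrix.transpose_mul, h2, Matrix.transpose_one]
    calc J = (((ρ γ⁻¹).1.map (algebraMap L K))ᵀ * ((ρ γ).1.map (algebraMap L K))ᵀ) * J *
          (((ρ γ).1.map (algebraMap L K)) * ((ρ γ⁻¹).1.map (algebraMap L K))) := by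
          rw [hss', h2, one_mul, mul_one]
      _ = ((ρ γ⁻¹).1.map (algebraMap L K))ᵀ * ((((ρ γ).1.map (algebraMap L K))ᵀ) * J *
          ((ρ γ).1.map (algebraMap L K))) * ((ρ γ⁻¹).1.map (algebraMap L K)) := by
          noncomm_ring
      _ = 0 := by rw [hc]; simp
  · intro γ d hd
    exact comm_span (hlinK γ) d hd
  · intro τ hτ a
    apply τ.injective
    rw [RingEquiv.apply_symm_apply, hτ a]
  · rintro τ hτ _ ⟨y, -, rfl⟩
    exact fixT_map hτ _
  · intro τ hτ
    exact fixT_map_rat ψ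
  · intro τ hτ γ
    exact fixT_map hτ _
  · refine (img_sub_inf ρ (H' := H') hprime).trans (zar_subset_zar ?_)
    rintro _ ⟨σ, hσ, rfl⟩
    exact hgen ⟨σ, hσ.2, rfl⟩

end Pool.Agent.H76T
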