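import Pool.Agent.Lib.H76T.TC2

/-!
# Seeds from the transvections of a component
-/

set_option autoImplicit false
set_option linter.unusedSectionVars false
namespace Pool.Agent.H76T
open Module Matrix Pool.Agent.H53Toric Pool.Agent.H76U

variable {ι : Type*} [Fintype ι] [DecidableEq ι] {K : Type*} [Field K] [CharZero K]

theorem seed_of_fu {J : Matrix ι ι K} (hJ : Jᵀ = -J) (hdet : IsUnit J.det)
    {S : Set (Matrix ι ι K)} {h₀ p : Matrix ι ι K} (hz : h₀ ∈ zlie S) (hi : h₀ * h₀ = h₀)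
    (hs : h₀ᵀ * J + J * h₀ = J) (hpp : p * p = p) (hpJ : pᵀ * J = J * p) (hp0 : p ≠ 0)
    (hcomm : h₀ * p = p * h₀)
    (fu : ∀ u, p *ᵥ u = u → ∃ A ∈ zlie S, Aᵀ * J + J * A = 0 ∧
      phi A * phi p = tw (om J) u u) :
    ∃ M ∈ lieE J S, M * M = 0 ∧ ∃ d, phi p d = d ∧ d ≠ 0 ∧ M * phi p = trv (om J) d := by
  -- adjoints
  have ha : h₀ᵀ * J = J * (1 - h₀) := by
    rw [mul_sub, mul_one]
    exact eq_sub_of_add_eq hs
  have ha' : (1 - h₀)ᵀ * J = J * h₀ := by
    rw [Matrix.transpose_sub, Matrix.transpose_one, sub_mul, one_mul, ha, mul_sub, mul_one,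
      sub_sub_cancel]
  have hself : ∀ v w, om J (p *ᵥ v) w = om J v (p *ᵥ w) := by
    intro v w
    rw [om_apply, om_apply, Matrix.mulVec_mulVec _ J p, ← hpJ, ← Matrix.mulVec_mulVec _ pᵀ J,
      Matrix.dotProduct_mulVec v, Matrix.vecMul_transpose]
  have hself1 : ∀ v w, om J ((1 - h₀) *ᵥ v) w = om J v (h₀ *ᵥ w) := by
    intro v w
    rw [om_apply, om_apply, Matrix.mulVec_mulVec _ J h₀, ← ha', ← Matrix.mulVec_mulVec _ _ J,
      Matrix.dotProduct_mulVec v, Matrix.vecMul_transpose]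
  -- a vector fixed by the idempotent
  have hhp : h₀ * p ≠ 0 := by
    intro h0
    apply hp0
    have h1 : ∀ v, p *ᵥ v = 0 := by
      intro v
      apply om_nd hdet
      intro w
      have h2 : h₀ *ᵥ (p *ᵥ v) = 0 := by
        rw [Matrix.mulVec_mulVec, h0, Matrix.zero_mulVec]
      have h3 : om J w (p *ᵥ v) = om J (p *ᵥ w) (p *ᵥ v) := by
        rw [hself, Matrix.mulVec_mulVec _ p p, hpp]
      have h4 : (1 - h₀) *ᵥ (p *ᵥ w) = p *ᵥ w := by
        rw [Matrix.mulVec_mulVec, sub_mul, one_mul, h0, sub_zero]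
      rw [h3, ← h4, hself1, h2, map_zero]
    apply (phi (ι := ι) (K := K)).injective
    apply LinearMap.ext
    intro v
    rw [phi_apply, h1, map_zero]; rfl
  obtain ⟨v, hv⟩ : ∃ v, (h₀ * p) *ᵥ v ≠ 0 := by
    by_contra hcon
    push Not at hcon
    apply hhp
    apply (phi (ι := ι) (K := K)).injective
    apply LinearMap.ext
    intro v
    rw [phi_apply, hcon, map_zero]; rfl
  set u := (h₀ * p) *ᵥ v with hu
  have hpu : p *ᵥ u = u := by
    rw [hu, Matrix.mulVec_mulVec, ← mul_assoc, ← hcomm, mul_assoc, hpp]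
  have hhu : h₀ *ᵥ u = u := by
    rw [hu, Matrix.mulVec_mulVec, ← mul_assoc, hi]
  obtain ⟨A, hA, hAs, hAu⟩ := fu u hpu
  set M : Matrix ι ι K := h₀ * A * (1 - h₀) with hM
  have hMz : M ∈ zlie S := by
    have h1 := zlie_comm hz hA
    have h2 := zlie_comm hz h1
    have h3 : M = (1 / 2 : K) • ((h₀ * A - A * h₀) + (h₀ * (h₀ * A - A * h₀) -
        (h₀ * A - A * h₀) * h₀)) := by
      have h4 : (h₀ * A - A * h₀) + (h₀ * (h₀ * A - A * h₀) - (h₀ * A - A * h₀) * h₀) =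
          (2 : K) • M := by
        have e1 : h₀ * (h₀ * A) = h₀ * A := by rw [← mul_assoc, hi]
        have e2 : A * h₀ * h₀ = A * h₀ := by rw [mul_assoc, hi]
        rw [hM, two_smul, mul_sub, sub_mul, e1, e2]
        noncomm_ring
      rw [h4, smul_smul]
      norm_num
    rw [h3]
    exact (zlie S).smul_mem _ ((zlie S).add_mem h1 h2)
  have hMs : Mᵀ * J + J * M = 0 := by
    have h1 : Aᵀ * J = -(J * A) := eq_neg_of_add_eq_zero_left hAs
    rw [hM, Matrix.transpose_mul, Matrix.transpose_mul]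
    calc (1 - h₀)ᵀ * (Aᵀ * h₀ᵀ) * J + J * (h₀ * A * (1 - h₀)) =
        (1 - h₀)ᵀ * (Aᵀ * (h₀ᵀ * J)) + J * (h₀ * A * (1 - h₀)) := by noncomm_ring
      _ = (1 - h₀)ᵀ * (Aᵀ * J) * (1 - h₀) + J * (h₀ * A * (1 - h₀)) := by
          rw [ha]; noncomm_ring
      _ = -(((1 - h₀)ᵀ * J) * A * (1 - h₀)) + J * (h₀ * A * (1 - h₀)) := by
          rw [h1]; noncomm_ring
      _ = 0 := by rw [ha']; noncomm_ring
  have hM2 : M * M = 0 := by
    have h1 : (1 - h₀) * h₀ = 0 := by rw [sub_mul, one_mul, hi, sub_self]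
    rw [hM]
    calc h₀ * A * (1 - h₀) * (h₀ * A * (1 - h₀)) =
        h₀ * A * ((1 - h₀) * h₀) * A * (1 - h₀) := by noncomm_ring
      _ = 0 := by rw [h1]; simp
  refine ⟨phi M, mem_lieE.2 ⟨hMz, (skew_iff hdet M).2 hMs⟩, ?_, u, ?_, hv, ?_⟩
  · rw [← map_mul, hM2, map_zero]
  · rw [phi_apply, hpu]
  · apply LinearMap.ext
    intro w
    have h1 : M * p = h₀ * (A * p) * (1 - h₀) := by
      have h2 : (1 - h₀) * p = p * (1 - h₀) := by
        rw [sub_mul, mul_sub, one_mul, mul_one, hcomm]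
      rw [hM]
      calc h₀ * A * (1 - h₀) * p = h₀ * A * ((1 - h₀) * p) := by noncomm_ring
        _ = _ := by rw [h2]; noncomm_ring
    rw [← map_mul, h1, phi_apply, ← Matrix.mulVec_mulVec, ← Matrix.mulVec_mulVec,
      ← phi_apply (A * p), map_mul, hAu, tw_apply, Matrix.mulVec_smul, hhu, hself1, hhu,
      trv_apply]

end Pool.Agent.H76T
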