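import Pool.Agent.Lib.H76T.TC3
import Pool.Agent.Lib.H49M.B6

/-!
# The minimal ideals are stable under the connected group
-/

set_option autoImplicit false
set_option linter.unusedSectionVars false
namespace Pool.Agent.H76T
open Module Matrix Pool.Agent.H53Toric Pool.Agent.H76U Pool.Agent.H76F
open Pool.Agent.H76RM (zar_commute zlie_commute van)
open Pool.Agent.H49M (B6b_Poly B6b_poly_zar B6b_poly_id B6b_poly_const B6b_poly_mul B6b_poly_lin)

variable {ι : Type*} [Fintype ι] [DecidableEq ι] {K : Type*} [Field K]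

/-- A quadratic closed condition. -/
theorem quad_zar {S : Set (Matrix ι ι K)} {J Y : Matrix ι ι K} {W : Submodule K (Matrix ι ι K)}
    (hS : ∀ s ∈ S, s * Y * (J⁻¹ * sᵀ * J) ∈ W) {x : Matrix ι ι K} (hx : x ∈ zar S) :
    x * Y * (J⁻¹ * xᵀ * J) ∈ W := by
  by_contra hcon
  obtain ⟨f, hf, hfW⟩ := Submodule.exists_le_ker_of_notMem hcon
  rcases isEmpty_or_nonempty ι with hι | hι
  · apply hcon
    have : x * Y * (J⁻¹ * xᵀ * J) = 0 := by
      ext i
      exact (hι.false i).elim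
    rw [this]
    exact W.zero_mem
  let T : Matrix ι ι K →ₗ[K] Matrix ι ι K := f.smulRight (1 : Matrix ι ι K)
  have hT : ∀ A, T A = f A • (1 : Matrix ι ι K) := fun A => rfl
  let tr : Matrix ι ι K →ₗ[K] Matrix ι ι K := (Matrix.transposeLinearEquiv ι ι K K).toLinearMap
  have hpoly : B6b_Poly (fun x : Matrix ι ι K => T (x * Y * (J⁻¹ * (tr x) * J))) :=
    B6b_poly_lin T (B6b_poly_mul (B6b_poly_mul B6b_poly_id (B6b_poly_const Y))
      (B6b_poly_mul (B6b_poly_mul (B6b_poly_const J⁻¹) (B6b_poly_lin tr B6b_poly_id))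
        (B6b_poly_const J)))
  have h1 : T (x * Y * (J⁻¹ * (tr x) * J)) = 0 := by
    refine B6b_poly_zar hpoly ?_ hx
    intro s hs
    change T (s * Y * (J⁻¹ * sᵀ * J)) = 0
    rw [hT, hfW (hS s hs), zero_smul]
  change T (x * Y * (J⁻¹ * xᵀ * J)) = 0 at h1
  rw [hT] at h1
  rcases smul_eq_zero.1 h1 with h2 | h2
  · exact hf h2
  · exact one_ne_zero h2

section
variable [CharZero K] [IsAlgClosed K] {B : Type*} [Fintype B] [DecidableEq B]
    {J : Matrix ι ι K} {DD : Submodule K (Matrix ι ι K)}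
    {bar : B → B} {e : B → Matrix ι ι K} (h : Split4 J DD bar e) {b : B} (hb : bar b = b)
    (hJ : Jᵀ = -J) (hdet : IsUnit J.det)
    {n : ℕ} {P : Matrix ι (Fin n) K} {Q : Matrix (Fin n) ι K}
    (hPQ : e b = P * Q) (hQP : Q * P = 1)
    {L : Type*} [Field L] [Algebra L K] {G : Type*} [Group G]
    {ρ : G →* Matrix.GeneralLinearGroup ι L} {H : Subgroup G}
    {T : Set (K ≃+* K)} {h₀ : Matrix ι ι K}
    (g : SG (img K ρ H) J DD (rK K ρ) T h₀) (hTP : ∀ τ ∈ T, P.map τ = P)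
    (hTQ : ∀ τ ∈ T, Q.map τ = Q)

/-- conjugation on the component -/
noncomputable def con (P : Matrix ι (Fin n) K) (Q : Matrix (Fin n) ι K)
    (ρ : G →* Matrix.GeneralLinearGroup ι L) (γ : G) (X : Module.End K (Fin n → K)) :
    Module.End K (Fin n → K) :=
  phi (cmp P Q (rK K ρ γ)) * X * phi (cmp P Q (rK K ρ γ⁻¹))

include h hPQ hQP g in
theorem cmp_rK_mul (γ γ' : G) : cmp P Q (rK K ρ (γ * γ')) =
    cmp P Q (rK K ρ γ) * cmp P Q (rK K ρ γ') := by
  rw [map_mul, cmp_mul hPQ hQP (g.rD γ' _ (h.mem b))]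

include h hPQ hQP g in
theorem con_mul (γ γ' : G) (X : Module.End K (Fin n → K)) :
    con P Q ρ (γ * γ') X = con P Q ρ γ (con P Q ρ γ' X) := by
  rw [con, con, con, _root_.mul_inv_rev, cmp_rK_mul h hPQ hQP g, cmp_rK_mul h hPQ hQP g, map_mul, map_mul]
  simp only [mul_assoc]

include hPQ hQP in
theorem con_one (X : Module.End K (Fin n → K)) : con P Q ρ (1 : G) X = X := by
  rw [con, inv_one, map_one, cmp_one hPQ hQP, map_one, one_mul, mul_one]

theorem thc_con (hrefl : RingEquiv.refl K ∈ T) (γ : G) (X : Module.End K (Fin n → K)) :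
    thc h hPQ hQP g (γ, ⟨RingEquiv.refl K, hrefl⟩) X = con P Q ρ γ X := by
  obtain ⟨x, rfl⟩ := (phi (ι := Fin n) (K := K)).surjective X
  rw [thc, tht_apply, con, ← map_mul, ← map_mul]
  rfl

include h hb hJ hdet hPQ hQP g hTP hTQ in
/-- conjugation permutes the minimal ideals -/
theorem con_perm (hn : 0 < n) (hrefl : RingEquiv.refl K ∈ T) {k : ℕ}
    {I : Fin k → Submodule K (Module.End K (Fin n → K))} (hF : Fam (Lc J (img K ρ H) P Q) I)
    (γ : G) (j : Fin k) : ∃ i, ∀ X, X ∈ I i ↔ con P Q ρ γ⁻¹ X ∈ I j := by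
  have : Nonempty (Fin n) := ⟨⟨0, hn⟩⟩
  have horb := orb_comp h hb hJ hdet hPQ hQP g hTP hTQ hn
  obtain ⟨i, hi⟩ := horb.perm hF (γ, ⟨RingEquiv.refl K, hrefl⟩) j
  refine ⟨i, fun X => ?_⟩
  rw [← hi, mem_mv]
  have h1 : (thc h hPQ hQP g (γ, ⟨RingEquiv.refl K, hrefl⟩)).symm X = con P Q ρ γ⁻¹ X := by
    apply (thc h hPQ hQP g (γ, ⟨RingEquiv.refl K, hrefl⟩)).injective
    rw [RingEquiv.apply_symm_apply, thc_con, ← con_mul h hPQ hQP g, mul_inv_cancel,
      con_one hPQ hQP]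
  rw [h1]

include h hb hJ hdet hPQ hQP g hTP hTQ in
/-- The stabiliser of the minimal ideals has finite index. -/
theorem con_stab (hn : 0 < n) (hrefl : RingEquiv.refl K ∈ T) {k : ℕ}
    {I : Fin k → Submodule K (Module.End K (Fin n → K))} (hF : Fam (Lc J (img K ρ H) P Q) I) :
    ∃ St : Subgroup G, St.FiniteIndex ∧ ∀ γ ∈ St, ∀ j X, con P Q ρ γ X ∈ I j ↔ X ∈ I j := by
  have hcm := fun γ γ' X => con_mul (X := X) h hPQ hQP g γ γ'
  have hc1 := fun X => con_one (X := X) (ρ := ρ) hPQ hQP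
  let St : Subgroup G :=
    { carrier := {γ | ∀ j X, con P Q ρ γ X ∈ I j ↔ X ∈ I j}
      mul_mem' := by
        intro γ γ' hγ hγ' j X
        rw [hcm, hγ, hγ']
      one_mem' := by
        intro j X
        rw [hc1]
      inv_mem' := by
        intro γ hγ j X
        rw [← hγ j (con P Q ρ γ⁻¹ X), ← hcm, mul_inv_cancel, hc1] }
  refine ⟨St, ?_, fun γ hγ => hγ⟩
  have hperm := con_perm h hb hJ hdet hPQ hQP g hTP hTQ hn hrefl hF
  choose π hπ using hperm
  have hfin : Finite (G ⧸ St) := by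
    apply Finite.of_injective (fun q : G ⧸ St => π q.out)
    intro q q' hqq
    have hmem : q.out⁻¹ * q'.out ∈ St := by
      intro j X
      have h1 : π q.out j = π q'.out j := congrFun hqq j
      rw [hcm, ← hπ, h1, hπ, ← hcm, inv_mul_cancel, hc1]
    rw [← QuotientGroup.out_eq' q, ← QuotientGroup.out_eq' q', QuotientGroup.eq]
    exact hmem
  exact Subgroup.finiteIndex_of_finite_quotient

include h hb hJ hdet hPQ hQP g hTP hTQ in
/-- The minimal ideals are stable under the connected group. -/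
theorem conj_ideal (hn : 0 < n) (hrefl : RingEquiv.refl K ∈ T) [hfin : H.FiniteIndex]
    (hprime : (van (img K ρ H)).IsPrime) {k : ℕ}
    {I : Fin k → Submodule K (Module.End K (Fin n → K))} (hF : Fam (Lc J (img K ρ H) P Q) I)
    {kk ll : ι} (hkl : J kk ll ≠ 0)
    {x x' : Matrix ι ι K} (hx : x ∈ zar (img K ρ H)) (hxx : x * x' = 1)
    {A : Matrix ι ι K} (hA : A * e b = e b * A) {j : Fin k} (hAj : phi (cmp P Q A) ∈ I j) :
    phi (cmp P Q (x * A * x')) ∈ I j := by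
  obtain ⟨St, hSt, hst⟩ := con_stab h hb hJ hdet hPQ hQP g hTP hTQ hn hrefl hF
  have hJi : J⁻¹ * J = 1 := Matrix.nonsing_inv_mul _ hdet
  -- the big matrices
  let Ψ : Module.End K (Fin n → K) →ₗ[K] Matrix ι ι K :=
    { toFun := fun X => P * ((phi (ι := Fin n) (K := K)).symm X) * Q
      map_add' := by
        intro X Y
        rw [map_add, Matrix.mul_add, Matrix.add_mul]
      map_smul' := by
        intro c X
        rw [map_smul, Matrix.mul_smul, Matrix.smul_mul]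
        rfl }
  have hΨ : ∀ X : Matrix (Fin n) (Fin n) K, Ψ (phi X) = P * X * Q := by
    intro X
    change P * ((phi (ι := Fin n) (K := K)).symm (phi X)) * Q = _
    rw [AlgEquiv.symm_apply_apply]
  have hΨinj : ∀ X, Ψ X ∈ (I j).map Ψ → X ∈ I j := by
    rintro X ⟨Y, hY, hYX⟩
    have h1 : Y = X := by
      obtain ⟨y, rfl⟩ := (phi (ι := Fin n) (K := K)).surjective Y
      obtain ⟨x, rfl⟩ := (phi (ι := Fin n) (K := K)).surjective X
      rw [hΨ, hΨ] at hYX
      congr 1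
      calc y = (Q * P) * y * (Q * P) := by rw [hQP, Matrix.one_mul, Matrix.mul_one]
        _ = Q * (P * y * Q) * P := by simp only [Matrix.mul_assoc]
        _ = Q * (P * x * Q) * P := by rw [hYX]
        _ = (Q * P) * x * (Q * P) := by simp only [Matrix.mul_assoc]
        _ = x := by rw [hQP, Matrix.one_mul, Matrix.mul_one]
    rwa [← h1]
  -- the closed condition
  have hcl : ∀ s ∈ img K ρ (H ⊓ St), ∀ Y ∈ (I j).map Ψ,
      s * Y * (J⁻¹ * sᵀ * J) ∈ (I j).map Ψ := by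
    rintro _ ⟨γ, hγ, rfl⟩ _ ⟨X, hX, rfl⟩
    obtain ⟨c, hc0, hc⟩ := g.sim γ
    have e1 : J⁻¹ * (rK K ρ γ)ᵀ * J = c • rK K ρ γ⁻¹ := by
      calc J⁻¹ * (rK K ρ γ)ᵀ * J = J⁻¹ * (rK K ρ γ)ᵀ * J * (rK K ρ γ * rK K ρ γ⁻¹) := by
            rw [g.rr, mul_one]
        _ = J⁻¹ * ((rK K ρ γ)ᵀ * J * rK K ρ γ) * rK K ρ γ⁻¹ := by noncomm_ring
        _ = (J⁻¹ * J) * (c • rK K ρ γ⁻¹) := by rw [hc]; simp
        _ = _ := by rw [hJi, one_mul]
    change rK K ρ γ * _ * (J⁻¹ * (rK K ρ γ)ᵀ * J) ∈ _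
    rw [e1, mul_smul_comm]
    apply Submodule.smul_mem
    obtain ⟨y, rfl⟩ := (phi (ι := Fin n) (K := K)).surjective X
    rw [hΨ]
    refine ⟨con P Q ρ γ (phi y), (hst γ hγ.2 j _).2 hX, ?_⟩
    rw [con, ← map_mul, ← map_mul, hΨ]
    have e2 := P_cmp hPQ hQP (g.rD γ _ (h.mem b))
    have e3 := cmp_Q hPQ hQP (g.rD γ⁻¹ _ (h.mem b))
    calc P * (cmp P Q (rK K ρ γ) * y * cmp P Q (rK K ρ γ⁻¹)) * Q =
        (P * cmp P Q (rK K ρ γ)) * y * (cmp P Q (rK K ρ γ⁻¹) * Q) := by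
          simp only [Matrix.mul_assoc]
      _ = rK K ρ γ * P * y * (Q * rK K ρ γ⁻¹) := by rw [e2, e3]
      _ = _ := by simp only [Matrix.mul_assoc]
  have hx' : x ∈ zar (img K ρ (H ⊓ St)) :=
    zar_subset_zar (img_sub_inf ρ (H' := St) hprime) hx
  -- the element
  have hxe : x * e b = e b * x := zar_commute (fun s hs => g.SD s hs _ (h.mem b)) hx
  have hx'x : x' * x = 1 := mul_eq_one_comm.1 hxx
  have hx'e : x' * e b = e b * x' := by
    calc x' * e b = x' * e b * (x * x') := by rw [hxx, mul_one]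
      _ = x' * (e b * x) * x' := by noncomm_ring
      _ = (x' * x) * e b * x' := by rw [← hxe]; noncomm_ring
      _ = _ := by rw [hx'x, one_mul]
  obtain ⟨c, hc⟩ : ∃ c : K, xᵀ * J * x = c • J := by
    apply zar_sim hkl (S := img K ρ H) _ hx
    rintro _ ⟨γ, -, rfl⟩
    obtain ⟨c, -, hc⟩ := g.sim γ
    exact ⟨c, hc⟩
  have hc0 : c ≠ 0 := by
    rintro rfl
    rw [zero_smul] at hc
    apply hkl
    have hss' : x'ᵀ * xᵀ = 1 := by rw [← Matrix.transpose_mul, hxx, Matrix.transpose_one]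
    have h1 : J = 0 := by
      calc J = (x'ᵀ * xᵀ) * J * (x * x') := by rw [hss', hxx, one_mul, mul_one]
        _ = x'ᵀ * (xᵀ * J * x) * x' := by noncomm_ring
        _ = 0 := by rw [hc]; simp
    rw [h1]; rfl
  have e1 : J⁻¹ * xᵀ * J = c • x' := by
    calc J⁻¹ * xᵀ * J = J⁻¹ * xᵀ * J * (x * x') := by rw [hxx, mul_one]
      _ = J⁻¹ * (xᵀ * J * x) * x' := by noncomm_ring
      _ = (J⁻¹ * J) * (c • x') := by rw [hc]; simp
      _ = _ := by rw [hJi, one_mul]
  have e2 : A * e b ∈ (I j).map Ψ := by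
    refine ⟨_, hAj, ?_⟩
    rw [hΨ, P_cmp hPQ hQP hA, Matrix.mul_assoc, ← hPQ]
  have e3 := quad_zar (fun s hs => hcl s hs _ e2) hx'
  rw [e1, mul_smul_comm] at e3
  have e4 : x * (A * e b) * x' ∈ (I j).map Ψ := by
    have := Submodule.smul_mem _ c⁻¹ e3
    rwa [smul_smul, inv_mul_cancel₀ hc0, one_smul] at this
  apply hΨinj
  have hAx : (x * A * x') * e b = e b * (x * A * x') := by
    calc (x * A * x') * e b = x * A * (x' * e b) := by noncomm_ring
      _ = x * (A * e b) * x' := by rw [hx'e]; noncomm_ring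
      _ = (x * e b) * A * x' := by rw [hA]; noncomm_ring
      _ = _ := by rw [hxe]; noncomm_ring
  rw [hΨ, P_cmp hPQ hQP hAx, Matrix.mul_assoc, ← hPQ]
  have e5 : x * (A * e b) * x' = x * A * x' * e b := by
    calc x * (A * e b) * x' = x * A * (e b * x') := by noncomm_ring
      _ = _ := by rw [← hx'e]; noncomm_ring
  rwa [← e5]

end

end Pool.Agent.H76T
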