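import Pool.Agent.Lib.H76T.TC4

/-!
# The number of simple factors divides the degree of the field of definition
-/

set_option autoImplicit false
set_option linter.unusedSectionVars false
namespace Pool.Agent.H76T
open Module Matrix Pool.Agent.H53Toric Pool.Agent.H76U Pool.Agent.H76F
open Pool.Agent.H76RM (zar_commute zlie_commute van)

variable {ι : Type*} [Fintype ι] [DecidableEq ι] {K : Type*} [Field K]

/-- The action of the automorphisms of `K` on the operators. -/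
noncomputable def ta {n : ℕ} (τ : K ≃+* K) (X : Module.End K (Fin n → K)) :
    Module.End K (Fin n → K) :=
  phi (((phi (ι := Fin n) (K := K)).symm X).map τ)

theorem ta_phi {n : ℕ} (τ : K ≃+* K) (x : Matrix (Fin n) (Fin n) K) :
    ta τ (phi x) = phi (x.map τ) := by
  rw [ta, AlgEquiv.symm_apply_apply]

theorem disj_fam {κ : Type*} [Fintype κ] [DecidableEq κ] {M : Submodule K (Module.End K (κ → K))}
    {k : ℕ} {I : Fin k → Submodule K (Module.End K (κ → K))} (hF : Fam M I) {i j : Fin k}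
    {X : Module.End K (κ → K)} (hX : X ≠ 0) (hi : X ∈ I i) (hj : X ∈ I j) : i = j := by
  by_contra hij
  have hid : IsIdeal M (I i ⊓ I j) := ⟨inf_le_left.trans (hF.ideal i).1,
    fun Z hZ Y hY => ⟨(hF.ideal i).2 Z hZ Y hY.1, (hF.ideal j).2 Z hZ Y hY.2⟩⟩
  rcases hF.min i _ hid inf_le_left with h7 | h7
  · have h8 : X ∈ I i ⊓ I j := ⟨hi, hj⟩
    rw [h7, Submodule.mem_bot] at h8
    exact hX h8
  · rcases hF.min j _ hid inf_le_right with h8 | h8
    · have h9 : X ∈ I i ⊓ I j := ⟨hi, hj⟩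
      rw [h8, Submodule.mem_bot] at h9
      exact hX h9
    · exact hij (hF.inj (h7.symm.trans h8))

section
variable [CharZero K] [IsAlgClosed K] {B : Type*} [Fintype B] [DecidableEq B]
    {J : Matrix ι ι K} {DD : Submodule K (Matrix ι ι K)}
    {bar : B → B} {e : B → Matrix ι ι K} (h : Split4 J DD bar e) {b : B} (hb : bar b = b)
    (hJ : Jᵀ = -J) (hdet : IsUnit J.det)
    {n : ℕ} {P : Matrix ι (Fin n) K} {Q : Matrix (Fin n) ι K}
    (hPQ : e b = P * Q) (hQP : Q * P = 1)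
    {L : Type*} [Field L] [Algebra L K] {G : Type*} [Group G]
    {ρ : G →* Matrix.GeneralLinearGroup ι L} {H : Subgroup G} {h₀ : Matrix ι ι K}
    (g : SG (img K ρ H) J DD (rK K ρ) (fixT L K) h₀) (hTP : ∀ τ ∈ fixT L K, P.map τ = P)
    (hTQ : ∀ τ ∈ fixT L K, Q.map τ = Q)

theorem refl_mem : RingEquiv.refl K ∈ fixT L K := fun _ => rfl

theorem alg_mem (τ : K ≃ₐ[L] K) : τ.toRingEquiv ∈ fixT L K := fun a => τ.commutes a

include h hb hJ hdet hPQ hQP g hTP hTQ in
theorem card_dvd (hn : 0 < n) [hfin : H.FiniteIndex]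
    (hprime : (van (img K ρ H)).IsPrime) {k : ℕ}
    {I : Fin k → Submodule K (Module.End K (Fin n → K))} (hF : Fam (Lc J (img K ρ H) P Q) I)
    (conn : img K ρ ⊤ ⊆ zar (img K ρ H)) (Φ : Subgroup (K ≃ₐ[L] K))
    (hΦ : ∀ τ ∈ Φ, ∃ γ ∈ zar (img K ρ H), γ.det ≠ 0 ∧ h₀.map τ * γ = γ * h₀) :
    k ∣ Φ.index := by
  have : Nonempty (Fin n) := ⟨⟨0, hn⟩⟩
  have horb := orb_comp h hb hJ hdet hPQ hQP g hTP hTQ hn
  have hι : Nonempty ι := by
    by_contra hemp
    rw [not_nonempty_iff] at hemp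
    have h1 : (Q * P) ⟨0, hn⟩ ⟨0, hn⟩ = 0 := by
      rw [Matrix.mul_apply]
      exact Finset.sum_eq_zero fun i _ => (hemp.false i).elim
    rw [hQP, Matrix.one_apply_eq] at h1
    exact one_ne_zero h1
  obtain ⟨kk, ll, hkl⟩ : ∃ k l, J k l ≠ 0 := by
    by_contra hcon
    push Not at hcon
    have : J = 0 := by
      ext i j
      exact hcon i j
    rw [this, Matrix.det_zero] at hdet
    exact not_isUnit_zero hdet
  have hconj := fun {x x' : Matrix ι ι K} (hx : x ∈ zar (img K ρ H)) (hxx : x * x' = 1)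
    {A : Matrix ι ι K} (hA : A * e b = e b * A) {j : Fin k} (hAj : phi (cmp P Q A) ∈ I j) =>
    conj_ideal h hb hJ hdet hPQ hQP g hTP hTQ hn refl_mem hprime hF hkl hx hxx hA hAj
  -- conjugation by the image
  have hcon : ∀ γ : G, ∀ j X, X ∈ I j → con P Q ρ γ X ∈ I j := by
    intro γ j X hX
    obtain ⟨x, rfl⟩ := (phi (ι := Fin n) (K := K)).surjective X
    have hee : (P * x * Q) * e b = e b * (P * x * Q) := by
      calc (P * x * Q) * e b = P * x * (Q * e b) := by simp only [Matrix.mul_assoc]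
        _ = (e b * P) * x * Q := by rw [Q_p hPQ hQP, p_P hPQ hQP]
        _ = _ := by simp only [Matrix.mul_assoc]
    have hcx : cmp P Q (P * x * Q) = x := by
      rw [cmp_apply]
      calc Q * (P * x * Q) * P = (Q * P) * x * (Q * P) := by simp only [Matrix.mul_assoc]
        _ = x := by rw [hQP, Matrix.one_mul, Matrix.mul_one]
    have h1 := hconj (conn ⟨γ, Subgroup.mem_top γ, rfl⟩) (g.rr γ) hee (j := j) (by rw [hcx]; exact hX)
    have h2 : cmp P Q (rK K ρ γ * (P * x * Q) * rK K ρ γ⁻¹) =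
        cmp P Q (rK K ρ γ) * x * cmp P Q (rK K ρ γ⁻¹) := by
      rw [cmp_mul hPQ hQP (g.rD γ⁻¹ _ (h.mem b)), cmp_mul hPQ hQP hee, hcx]
    change phi (cmp P Q (rK K ρ γ * (P * x * Q) * rK K ρ γ⁻¹)) ∈ I j at h1
    rw [h2, map_mul, map_mul] at h1
    exact h1
  -- the twists by field automorphisms
  have hta : ∀ (τ : K ≃+* K) (hτ : τ ∈ fixT L K) (X : Module.End K (Fin n → K)),
      thc h hPQ hQP g (1, ⟨τ, hτ⟩) X = ta τ X := by
    intro τ hτ X
    obtain ⟨x, rfl⟩ := (phi (ι := Fin n) (K := K)).surjective X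
    rw [thc, tht_apply, ta_phi]
    congr 1
    change cmp P Q (rK K ρ 1) * x.map τ * cmp P Q (rK K ρ 1⁻¹) = x.map τ
    rw [inv_one, map_one, cmp_one hPQ hQP, one_mul, mul_one]
  have htc : ∀ (γ : G) (τ : K ≃+* K) (hτ : τ ∈ fixT L K) (X : Module.End K (Fin n → K)),
      thc h hPQ hQP g (γ, ⟨τ, hτ⟩) X = con P Q ρ γ (ta τ X) := by
    intro γ τ hτ X
    obtain ⟨x, rfl⟩ := (phi (ι := Fin n) (K := K)).surjective X
    rw [thc, tht_apply, ta_phi, con, ← map_mul, ← map_mul]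
  have htmul : ∀ (τ τ' : K ≃ₐ[L] K) (X : Module.End K (Fin n → K)),
      ta (τ * τ').toRingEquiv X = ta τ.toRingEquiv (ta τ'.toRingEquiv X) := by
    intro τ τ' X
    obtain ⟨x, rfl⟩ := (phi (ι := Fin n) (K := K)).surjective X
    rw [ta_phi, ta_phi, ta_phi]
    rfl
  have htone : ∀ X : Module.End K (Fin n → K), ta (1 : K ≃ₐ[L] K).toRingEquiv X = X := by
    intro X
    obtain ⟨x, rfl⟩ := (phi (ι := Fin n) (K := K)).surjective X
    rw [ta_phi]
    rfl
  obtain ⟨j₀, hyj, htr⟩ := horb.trans hF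
  have hy0 : yc P Q h₀ ≠ 0 := by
    intro h0
    have h1 := horb.y_sq
    rw [h0, mul_zero] at h1
    exact zero_ne_one h1
  -- the permutation
  have hperm : ∀ τ : K ≃ₐ[L] K, ∃ i, ∀ X, X ∈ I i ↔ ta (τ⁻¹).toRingEquiv X ∈ I j₀ := by
    intro τ
    obtain ⟨i, hi⟩ := horb.perm hF (1, ⟨τ.toRingEquiv, alg_mem τ⟩) j₀
    refine ⟨i, fun X => ?_⟩
    rw [← hi, mem_mv]
    have h1 : (thc h hPQ hQP g (1, ⟨τ.toRingEquiv, alg_mem τ⟩)).symm X =
        ta (τ⁻¹).toRingEquiv X := by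
      apply (thc h hPQ hQP g (1, ⟨τ.toRingEquiv, alg_mem τ⟩)).injective
      rw [RingEquiv.apply_symm_apply, hta, ← htmul, mul_inv_cancel, htone]
    rw [h1]
  choose π hπ using hperm
  have hπ' : ∀ (τ : K ≃ₐ[L] K) X, X ∈ I j₀ → ta τ.toRingEquiv X ∈ I (π τ) := by
    intro τ X hX
    rw [hπ, ← htmul, inv_mul_cancel, htone]
    exact hX
  have hsurj : ∀ j, ∃ τ, π τ = j := by
    intro j
    obtain ⟨⟨γ, ⟨τ, hτ⟩⟩, hδ⟩ := htr j
    let τ' : K ≃ₐ[L] K := AlgEquiv.ofRingEquiv (f := τ) hτ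
    refine ⟨τ', ?_⟩
    have h1 : thc h hPQ hQP g (γ, ⟨τ, hτ⟩) (yc P Q h₀) ∈ I j := by
      rw [← hδ, mem_mv']
      exact hyj
    have h2 : thc h hPQ hQP g (γ, ⟨τ, hτ⟩) (yc P Q h₀) ∈ I (π τ') := by
      rw [htc]
      exact hcon γ _ _ (hπ' τ' _ hyj)
    refine disj_fam hF ?_ h2 h1
    intro h0
    apply hy0
    apply (thc h hPQ hQP g (γ, ⟨τ, hτ⟩)).injective
    rw [h0, map_zero]
  let St : Subgroup (K ≃ₐ[L] K) :=
    { carrier := {τ | ∀ X, ta τ.toRingEquiv X ∈ I j₀ ↔ X ∈ I j₀}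
      mul_mem' := by
        intro τ τ' hτ hτ' X
        rw [htmul, hτ, hτ']
      one_mem' := by
        intro X
        rw [htone]
      inv_mem' := by
        intro τ hτ X
        rw [← hτ (ta (τ⁻¹).toRingEquiv X), ← htmul, mul_inv_cancel, htone] }
  have hSt : ∀ τ ∈ St, ∀ X, ta τ.toRingEquiv X ∈ I j₀ ↔ X ∈ I j₀ := fun τ hτ => hτ
  have hidx : St.index = k := by
    have hbij : Function.Bijective (fun q : (K ≃ₐ[L] K) ⧸ St => π q.out) := by
      constructor
      · intro q q' hqq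
        have hmem : q.out⁻¹ * q'.out ∈ St := by
          intro X
          have h1 : π q.out = π q'.out := hqq
          rw [htmul, ← hπ, h1, hπ, ← htmul, inv_mul_cancel, htone]
        rw [← QuotientGroup.out_eq' q, ← QuotientGroup.out_eq' q', QuotientGroup.eq]
        exact hmem
      · intro j
        obtain ⟨τ, rfl⟩ := hsurj j
        refine ⟨QuotientGroup.mk τ, ?_⟩
        obtain ⟨s, hs⟩ := QuotientGroup.mk_out_eq_mul St τ
        apply hF.inj
        ext X
        rw [hπ, hπ, hs, _root_.mul_inv_rev, htmul, hSt _ (St.inv_mem s.2)]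
    rw [Subgroup.index_eq_card, Nat.card_eq_of_bijective _ hbij, Nat.card_eq_fintype_card,
      Fintype.card_fin]
  rw [← hidx]
  apply Subgroup.index_dvd_of_le
  intro τ hτ
  obtain ⟨γ, hγ, hγd, hγc⟩ := hΦ τ hτ
  have hγu : IsUnit γ.det := isUnit_iff_ne_zero.2 hγd
  have hγγ : γ * γ⁻¹ = 1 := Matrix.mul_nonsing_inv _ hγu
  -- the twisted involution is conjugate
  have h1 : ta τ.toRingEquiv (yc P Q h₀) ∈ I j₀ := by
    have hA := preL_ec (b := b) h g (A0_mem g)
    have h2 := hconj hγ hγγ hA (j := j₀) hyj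
    have h3 : γ * ((2 : K) • h₀ - 1) * γ⁻¹ = ((2 : K) • h₀ - 1).map τ.toRingEquiv := by
      have h4 : γ * h₀ * γ⁻¹ = h₀.map τ := by
        rw [← hγc, mul_assoc, hγγ, mul_one]
      have h5 : ((2 : K) • h₀ - 1).map τ.toRingEquiv = (2 : K) • h₀.map τ - 1 := by
        have h6 : ((2 : K) • h₀ - 1) = (2 : K) • h₀ + (-1 : K) • (1 : Matrix ι ι K) := by
          rw [neg_smul, one_smul, sub_eq_add_neg]
        rw [h6, map_addm, map_smulm, map_smulm, map_onem, map_neg, map_one, neg_smul, one_smul,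
          ← sub_eq_add_neg]
        congr 2
        exact map_ofNat τ 2
      rw [h5, mul_sub, sub_mul, mul_one, hγγ, mul_smul_comm, smul_mul_assoc, h4]
    rw [h3] at h2
    rw [yc, ta_phi, cmp_map _ (hTP _ (alg_mem τ)) (hTQ _ (alg_mem τ))]
    exact h2
  have h2 : π τ = j₀ := by
    refine disj_fam hF ?_ (hπ' τ _ hyj) h1
    intro h0
    apply hy0
    apply (thc h hPQ hQP g (1, ⟨τ.toRingEquiv, alg_mem τ⟩)).injective
    rw [hta, h0, map_zero]
  intro X
  rw [← h2, hπ τ, ← htmul, inv_mul_cancel, htone, h2]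

end

end Pool.Agent.H76T
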