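import Pool.Agent.Lib.H76T.TC5
import Pool.Agent.Lib.H76U.Conj

/-!
# Fullness at one prime
-/

set_option autoImplicit false
set_option linter.unusedSectionVars false
namespace Pool.Agent.H76T
open Module Matrix Pool.Agent.H53Toric
open Pool.Agent.H76U (IsSplitting split4_of Split4 idem_factor rank_idem_map)
open Pool.Agent.H76RM (van spanK similD Seed Setup)
open Pool.Agent.H49M (idc)

variable {ι : Type*} [Fintype ι] [DecidableEq ι]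
variable {L : Type*} [Field L] {K : Type*} [Field K] [Algebra L K] {G : Type*} [Group G]

/-- A matrix of square zero whose exponential is in the closure. -/
theorem nil_of_zar [CharZero K] (ρ : G →* Matrix.GeneralLinearGroup ι L) {J : Matrix ι ι K}
    (hdet : IsUnit J.det) {k l : ι} (hkl : J k l ≠ 0)
    (hsim : ∀ s ∈ img K ρ ⊤, ∃ c : K, sᵀ * J * s = c • J)
    {N : Matrix ι ι K} (hN2 : N * N = 0) (hN1 : 1 + N ∈ zar (img K ρ ⊤)) (H : Subgroup G)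
    [H.FiniteIndex] : Nil (img K ρ H) J N := by
  by_cases hN0 : N = 0
  · subst hN0
    exact ⟨(zlie _).zero_mem, by simp, hN2⟩
  have hline : ∀ t : K, 1 + t • N ∈ zar (img K ρ H) := by
    refine line_finite ρ H (T := Set.range (Nat.cast : ℕ → K))
      (Set.infinite_range_of_injective Nat.cast_injective) ?_
    rintro _ ⟨n, rfl⟩
    exact pow_line (img_one ρ ⊤) (img_mul ρ ⊤) hN2 hN1 n
  have hNz : N ∈ zlie (img K ρ H) :=
    mem_zlie_of_infinite (img_mul ρ H) (T := Set.univ) Set.infinite_univ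
      (fun t _ => hline t)
  have hsim0 : ∀ s ∈ img K ρ H, ∃ c : K, sᵀ * J * s = c • J := by
    rintro _ ⟨y, -, rfl⟩
    exact hsim _ ⟨y, Subgroup.mem_top y, rfl⟩
  have hNs : Nᵀ * J + J * N = 0 := by
    obtain ⟨c1, hc1⟩ := zar_sim hkl hsim0 (hline 1)
    obtain ⟨c2, hc2⟩ := zar_sim hkl hsim0 (hline 2)
    obtain ⟨a, b, ha, hb⟩ := line_sim hc1 hc2
    exact nil_sim hdet ha hb hN2 hN0
  exact ⟨hNz, hNs, hN2⟩

/-- The conditions on the rank `n` of a component, cut out by `p`. -/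
structure NumK (K : Type*) [Field K] [Algebra L K] (ρ : G →* Matrix.GeneralLinearGroup ι L)
    (h₀ p : Matrix ι ι K) (n : ℕ) : Prop where
  num0 : ∀ a k : ℕ, 3 ≤ k → Odd k → n = a ^ k →
    ((∀ H : Subgroup G, H.FiniteIndex → img K ρ ⊤ ⊆ zar (img K ρ H)) ∧
      ∃ Φ : Subgroup (K ≃ₐ[L] K), ¬ k ∣ Φ.index ∧
        ∀ τ ∈ Φ, ∃ γ ∈ idc K ρ, h₀.map τ * γ = γ * h₀) ∨
    ∃ N : Matrix ι ι K, N * N = 0 ∧ 1 + N ∈ zar (img K ρ ⊤) ∧ ¬ a ^ (k - 1) ∣ (N * p).rank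
  num1 : ∀ m : ℕ, 5 ≤ m → (m % 4 = 1 ∨ m % 4 = 2) → n = 2 ^ m →
    ∃ N : Matrix ι ι K, N * N = 0 ∧ 1 + N ∈ zar (img K ρ ⊤) ∧ N * p ≠ 0 ∧
      4 * (N * p).rank ≠ n ∧ 2 * (N * p).rank ≠ n
  num2 : ∀ k : ℕ, 3 ≤ k → Odd k → n = k.centralBinom →
    ∃ N : Matrix ι ι K, N * N = 0 ∧ 1 + N ∈ zar (img K ρ ⊤) ∧ N * p ≠ 0 ∧
      (N * p).rank ≠ (k - 1).centralBinom

/-- **Seeds at one prime.** -/
theorem seed_one [CharZero L] [CharZero K] [IsAlgClosed K] {ψ : Matrix ι ι ℚ}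
    (hψ : ψᵀ = -ψ) (hψ0 : ψ.det ≠ 0) (D : Subalgebra ℚ (Matrix ι ι ℚ))
    (ρ : G →* Matrix.GeneralLinearGroup ι L)
    (lin : ∀ σ : G, ∀ d ∈ D, (ρ σ).1 * d.map (algebraMap ℚ L) =
      d.map (algebraMap ℚ L) * (ρ σ).1)
    (sim : ∀ σ : G, ∃ c : L, (ρ σ).1ᵀ * ψ.map (algebraMap ℚ L) * (ρ σ).1 =
      c • ψ.map (algebraMap ℚ L))
    (semis : ∀ H : Subgroup G, H.FiniteIndex → ∀ W : Submodule K (ι → K),
      (∀ s ∈ img K ρ H, ∀ w ∈ W, s *ᵥ w ∈ W) →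
      ∃ W' : Submodule K (ι → K), (∀ s ∈ img K ρ H, ∀ w ∈ W', s *ᵥ w ∈ W') ∧ IsCompl W W')
    (commt : ∀ H : Subgroup G, H.FiniteIndex → ∀ y : Matrix ι ι K,
      (∀ s ∈ img K ρ H, y * s = s * y) → y ∈ spanK K D)
    {m : ℕ} {e : Fin m → Matrix ι ι L} (hspl : IsSplitting D ψ id e)
    {h₀ : Matrix ι ι K} (hh : h₀ ∈ hodgeProj (img K ρ ⊤)) (h0 : h₀ ≠ 0) (h1 : h₀ ≠ 1)
    {H' : Subgroup G} (hH' : H'.FiniteIndex)
    (hgen : img K ρ H' ⊆ zar (Submonoid.closure {m | ∃ s : G, ∃ τ ∈ fixT L K, ∃ t : K,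
      t ≠ 0 ∧ m = 1 + (t - 1) • (rK K ρ s * h₀.map τ * rK K ρ s⁻¹)} : Set (Matrix ι ι K)))
    (num : ∀ b, NumK K ρ h₀ ((e b).map (algebraMap L K)) (e b).rank)
    (H₀ : Subgroup G) (hfin : H₀.FiniteIndex) (hprime : (van (img K ρ H₀)).IsPrime) (b : Fin m) :
    Seed (om (ψ.map (algebraMap ℚ K))) (fun b => phi ((e b).map (algebraMap L K)))
        (lieE (ψ.map (algebraMap ℚ K)) (img K ρ H₀)) b := by
  classical
  obtain ⟨hJ, hdet⟩ := gram_basic hψ hψ0 K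
  have hsplK : IsSplitting D ψ id (fun b => (e b).map (algebraMap L K)) :=
    hspl.map (algebraMap L K)
  have hspl4 := split4_of hsplK
  have hsimG : ∀ x : G, ∃ c : K, ((ρ x).1.map (algebraMap L K))ᵀ * ψ.map (algebraMap ℚ K) *
      (ρ x).1.map (algebraMap L K) = c • ψ.map (algebraMap ℚ K) := by
    intro x
    obtain ⟨c, hc⟩ := sim x
    exact ⟨_, sim_map hc⟩
  have hι : Nonempty ι := by
    by_contra hemp
    rw [not_nonempty_iff] at hemp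
    apply h0
    ext i
    exact (hemp.false i).elim
  set J : Matrix ι ι K := ψ.map (algebraMap ℚ K) with hJdef
  obtain ⟨k, l, hkl⟩ : ∃ k l, J k l ≠ 0 := by
    by_contra hcon
    push Not at hcon
    have : J = 0 := by
      ext i j
      exact hcon i j
    rw [this, Matrix.det_zero] at hdet
    exact not_isUnit_zero hdet
  have hsimT : ∀ s ∈ img K ρ ⊤, ∃ c : K, sᵀ * J * s = c • J := by
    rintro _ ⟨y, -, rfl⟩
    exact hsimG y
  have g := mk_sg hψ hψ0 D ρ lin sim semis commt hh h0 h1 hH' hgen hfin hprime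
  obtain ⟨P₀, Q₀, hPQ₀, hQP₀⟩ := idem_factor (hspl.idem b)
  have hn : 0 < (e b).rank := by
    rw [Nat.pos_iff_ne_zero]
    intro hr
    apply hspl.ne_zero b
    have h2 : finrank L (LinearMap.range (e b).mulVecLin) = 0 := hr
    rw [Submodule.finrank_eq_zero, LinearMap.range_eq_bot] at h2
    apply Matrix.toLin'.injective
    rw [map_zero]
    exact h2
  set P : Matrix ι (Fin (e b).rank) K := P₀.map (algebraMap L K) with hP
  set Q : Matrix (Fin (e b).rank) ι K := Q₀.map (algebraMap L K) with hQ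
  have hPQ : (e b).map (algebraMap L K) = P * Q := by
    rw [hP, hQ, ← Matrix.map_mul, ← hPQ₀]
  have hQP : Q * P = 1 := by
    rw [hP, hQ, ← Matrix.map_mul, hQP₀, Matrix.map_one _ (map_zero _) (map_one _)]
  have hTP : ∀ τ ∈ fixT L K, P.map τ = P := fun τ hτ => fixT_map hτ P₀
  have hTQ : ∀ τ ∈ fixT L K, Q.map τ = Q := fun τ hτ => fixT_map hτ Q₀
  have hnil := fun {N : Matrix ι ι K} (h2 : N * N = 0) (h3 : 1 + N ∈ zar (img K ρ ⊤)) =>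
    nil_of_zar ρ hdet hkl hsimT h2 h3 H₀
  have hnum : NumC (img K ρ H₀) J ((e b).map (algebraMap L K)) (e b).rank
      (fun k => (∀ H : Subgroup G, H.FiniteIndex → img K ρ ⊤ ⊆ zar (img K ρ H)) ∧
      ∃ Φ : Subgroup (K ≃ₐ[L] K), ¬ k ∣ Φ.index ∧
        ∀ τ ∈ Φ, ∃ γ ∈ idc K ρ, h₀.map τ * γ = γ * h₀) := by
    refine ⟨?_, ?_, ?_⟩
    · intro a k hk hko hc
      rcases (num b).num0 a k hk hko hc with h4 | ⟨N, h2, h3, h4⟩
      · exact Or.inl h4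
      · exact Or.inr ⟨N, hnil h2 h3, h4⟩
    · intro m hm hm4 hc
      obtain ⟨N, h2, h3, h4⟩ := (num b).num1 m hm hm4 hc
      exact ⟨N, hnil h2 h3, h4⟩
    · intro k hk hko hc
      obtain ⟨N, h2, h3, h4⟩ := (num b).num2 k hk hko hc
      exact ⟨N, hnil h2 h3, h4⟩
  refine seed_of_fu hJ hdet g.h0z g.h0i g.h0s (hsplK.idem b) (hsplK.adj b) (hsplK.ne_zero b) ?_ ?_
  · have h2 : h₀ ∈ H76U.preL J (img K ρ H₀) := by
      refine ⟨⟨0, h₀, g.h0z, by rw [zero_smul, add_zero]⟩, 1, ?_⟩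
      rw [g.h0s, one_smul]
    exact preL_ec hspl4 g h2
  · intro u hu
    refine fu_full hspl4 rfl hJ hdet hPQ hQP g hTP hTQ hn ?_ hnum hu
    rintro k hk ⟨hconn, Φ, hΦk, hΦ⟩ I hI
    apply hΦk
    refine card_dvd hspl4 rfl hJ hdet hPQ hQP g hTP hTQ hn hprime hI (hconn H₀ hfin) Φ ?_
    intro τ hτ
    obtain ⟨γ, hγ, hγc⟩ := hΦ τ hτ
    exact ⟨γ, hγ.2 H₀ hfin, hγ.1, hγc⟩

/-- **Fullness at one prime.** -/
theorem full_one [CharZero L] [CharZero K] [IsAlgClosed K] {ψ : Matrix ι ι ℚ}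
    (hψ : ψᵀ = -ψ) (hψ0 : ψ.det ≠ 0) (D : Subalgebra ℚ (Matrix ι ι ℚ))
    (ρ : G →* Matrix.GeneralLinearGroup ι L)
    (lin : ∀ σ : G, ∀ d ∈ D, (ρ σ).1 * d.map (algebraMap ℚ L) =
      d.map (algebraMap ℚ L) * (ρ σ).1)
    (sim : ∀ σ : G, ∃ c : L, (ρ σ).1ᵀ * ψ.map (algebraMap ℚ L) * (ρ σ).1 =
      c • ψ.map (algebraMap ℚ L))
    (cyc : ∃ σ : G, ∃ c : L, (ρ σ).1ᵀ * ψ.map (algebraMap ℚ L) * (ρ σ).1 =
      c • ψ.map (algebraMap ℚ L) ∧ ∀ n : ℕ, n ≠ 0 → c ^ n ≠ 1)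
    (semis : ∀ H : Subgroup G, H.FiniteIndex → ∀ W : Submodule K (ι → K),
      (∀ s ∈ img K ρ H, ∀ w ∈ W, s *ᵥ w ∈ W) →
      ∃ W' : Submodule K (ι → K), (∀ s ∈ img K ρ H, ∀ w ∈ W', s *ᵥ w ∈ W') ∧ IsCompl W W')
    (commt : ∀ H : Subgroup G, H.FiniteIndex → ∀ y : Matrix ι ι K,
      (∀ s ∈ img K ρ H, y * s = s * y) → y ∈ spanK K D)
    {m : ℕ} {e : Fin m → Matrix ι ι L} (hspl : IsSplitting D ψ id e)
    {h₀ : Matrix ι ι K} (hh : h₀ ∈ hodgeProj (img K ρ ⊤)) (h0 : h₀ ≠ 0) (h1 : h₀ ≠ 1)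
    {H' : Subgroup G} (hH' : H'.FiniteIndex)
    (hgen : img K ρ H' ⊆ zar (Submonoid.closure {m | ∃ s : G, ∃ τ ∈ fixT L K, ∃ t : K,
      t ≠ 0 ∧ m = 1 + (t - 1) • (rK K ρ s * h₀.map τ * rK K ρ s⁻¹)} : Set (Matrix ι ι K)))
    (num : ∀ b, NumK K ρ h₀ ((e b).map (algebraMap L K)) (e b).rank)
    (H : Subgroup G) (hH : H.FiniteIndex) : monodromy K ρ H = similD K ψ D := by
  have hsplK : IsSplitting D ψ id (fun b => (e b).map (algebraMap L K)) :=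
    hspl.map (algebraMap L K)
  have hsplR : H76RM.IsSplitting D ψ (fun b => (e b).map (algebraMap L K)) :=
    ⟨hsplK.mem, hsplK.idem, hsplK.adj, hsplK.corner, hsplK.orth, hsplK.full⟩
  exact monodromy_seed hψ hψ0 D ρ lin sim cyc semis commt hsplR
    (fun H₀ hfin hprime _ b => seed_one hψ hψ0 D ρ lin sim semis commt hspl hh h0 h1 hH' hgen
      num H₀ hfin hprime b) H hH

end Pool.Agent.H76T
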