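import Pool.Agent.Lib.H76T.TC6

/-!
# Eigenprojections
-/

set_option autoImplicit false
set_option linter.unusedSectionVars false
namespace Pool.Agent.H76T
open Module Matrix Pool.Agent.H53Toric

variable {ι : Type*} [Fintype ι] [DecidableEq ι] {K : Type*} [Field K]

open Classical in
/-- The projector on the eigenspace of the eigenvalue `a`. -/
noncomputable def pj (P Q : Matrix ι ι K) (d : ι → K) (a : K) : Matrix ι ι K :=
  P * Matrix.diagonal (fun k => if d k = a then (1 : K) else 0) * Q

section
variable {P Q : Matrix ι ι K} {d : ι → K}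

theorem pj_mul (hQP : Q * P = 1) (a : K) : pj P Q d a * pj P Q d a = pj P Q d a := by
  classical
  rw [pj]
  calc P * Matrix.diagonal (fun k => if d k = a then (1 : K) else 0) * Q *
      (P * Matrix.diagonal (fun k => if d k = a then (1 : K) else 0) * Q) =
      P * (Matrix.diagonal (fun k => if d k = a then (1 : K) else 0) * (Q * P) *
        Matrix.diagonal (fun k => if d k = a then (1 : K) else 0)) * Q := by noncomm_ring
    _ = _ := by
      rw [hQP, mul_one, Matrix.diagonal_mul_diagonal]
      congr 3
      ext k
      split_ifs <;> simp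

theorem pj_mul_ne (hQP : Q * P = 1) {a c : K} (hac : a ≠ c) :
    pj P Q d a * pj P Q d c = 0 := by
  classical
  rw [pj, pj]
  calc P * Matrix.diagonal (fun k => if d k = a then (1 : K) else 0) * Q *
      (P * Matrix.diagonal (fun k => if d k = c then (1 : K) else 0) * Q) =
      P * (Matrix.diagonal (fun k => if d k = a then (1 : K) else 0) * (Q * P) *
        Matrix.diagonal (fun k => if d k = c then (1 : K) else 0)) * Q := by noncomm_ring
    _ = 0 := by
      rw [hQP, mul_one, Matrix.diagonal_mul_diagonal]
      have : (fun k => (if d k = a then (1 : K) else 0) * (if d k = c then (1 : K) else 0)) =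
          0 := by
        ext k
        by_cases h : d k = a
        · have h2 : d k ≠ c := fun h3 => hac (h.symm.trans h3)
          rw [if_neg h2, mul_zero]; rfl
        · rw [if_neg h, zero_mul]; rfl
      rw [this, Matrix.diagonal_zero', mul_zero, zero_mul]

open Classical in
theorem pj_sum (hPQ : P * Q = 1) : ∑ a ∈ Finset.univ.image d, pj P Q d a = 1 := by
  have h1 : ∑ a ∈ Finset.univ.image d,
      Matrix.diagonal (fun k => if d k = a then (1 : K) else 0) = 1 := by
    ext i j
    rw [Matrix.sum_apply, Matrix.one_apply]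
    by_cases hij : i = j
    · subst hij
      rw [if_pos rfl]
      simp only [Matrix.diagonal_apply_eq]
      rw [Finset.sum_ite_eq (Finset.univ.image d) (d i), if_pos]
      exact Finset.mem_image_of_mem d (Finset.mem_univ i)
    · rw [if_neg hij]
      exact Finset.sum_eq_zero fun a _ => Matrix.diagonal_apply_ne _ hij
  simp only [pj]
  rw [← Finset.sum_mul, ← Finset.mul_sum, h1, mul_one, hPQ]

variable {x : Matrix ι ι K} (hx : x = P * Matrix.diagonal d * Q)
include hx

theorem x_pj (hQP : Q * P = 1) (a : K) : x * pj P Q d a = a • pj P Q d a := by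
  classical
  rw [hx, pj]
  calc P * Matrix.diagonal d * Q *
      (P * Matrix.diagonal (fun k => if d k = a then (1 : K) else 0) * Q) =
      P * (Matrix.diagonal d * (Q * P) *
        Matrix.diagonal (fun k => if d k = a then (1 : K) else 0)) * Q := by noncomm_ring
    _ = P * (a • Matrix.diagonal (fun k => if d k = a then (1 : K) else 0)) * Q := by
      rw [hQP, mul_one, Matrix.diagonal_mul_diagonal]
      congr 2
      ext i j
      rw [Matrix.smul_apply]
      by_cases hij : i = j
      · subst hij
        simp only [Matrix.diagonal_apply_eq, smul_eq_mul]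
        split_ifs with h
        · rw [h]
        · simp
      · simp only [Matrix.diagonal_apply_ne _ hij, smul_zero]
    _ = _ := by rw [mul_smul_comm, smul_mul_assoc]

theorem pj_comm (hQP : Q * P = 1) (hPQ : P * Q = 1) {z : Matrix ι ι K} (hz : z * x = x * z)
    (a : K) : z * pj P Q d a = pj P Q d a * z := by
  classical
  set z' := Q * z * P with hz'
  have h1 : z' * Matrix.diagonal d = Matrix.diagonal d * z' := by
    calc z' * Matrix.diagonal d = Q * z * (P * Matrix.diagonal d * (Q * P)) := by
          rw [hz', hQP]; noncomm_ring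
      _ = Q * (z * x) * P := by rw [hx]; noncomm_ring
      _ = Q * (x * z) * P := by rw [hz]
      _ = (Q * P) * Matrix.diagonal d * (Q * z * P) := by rw [hx]; noncomm_ring
      _ = _ := by rw [hQP, one_mul]
  have h2 : ∀ i j, z' i j ≠ 0 → d i = d j := by
    intro i j hij
    have h3 := congrFun (congrFun h1 i) j
    rw [Matrix.mul_diagonal, Matrix.diagonal_mul] at h3
    have h4 : (d i - d j) * z' i j = 0 := by linear_combination -h3
    exact sub_eq_zero.1 ((mul_eq_zero.1 h4).resolve_right hij)
  have h3 : z' * Matrix.diagonal (fun k => if d k = a then (1 : K) else 0) =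
      Matrix.diagonal (fun k => if d k = a then (1 : K) else 0) * z' := by
    ext i j
    rw [Matrix.mul_diagonal, Matrix.diagonal_mul]
    by_cases hij : z' i j = 0
    · rw [hij, zero_mul, mul_zero]
    · rw [h2 i j hij, mul_comm]
  have h4 : z = P * z' * Q := by
    rw [hz']
    calc z = (P * Q) * z * (P * Q) := by rw [hPQ, one_mul, mul_one]
      _ = _ := by noncomm_ring
  rw [h4, pj]
  calc P * z' * Q * (P * Matrix.diagonal (fun k => if d k = a then (1 : K) else 0) * Q) =
      P * (z' * (Q * P) * Matrix.diagonal (fun k => if d k = a then (1 : K) else 0)) * Q := by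
        noncomm_ring
    _ = P * (Matrix.diagonal (fun k => if d k = a then (1 : K) else 0) * (Q * P) * z') * Q := by
        rw [hQP, mul_one, mul_one, h3]
    _ = _ := by noncomm_ring

theorem pj_eig (hQP : Q * P = 1) (hPQ : P * Q = 1) {v : ι → K} {a : K}
    (hv : x *ᵥ v = a • v) : pj P Q d a *ᵥ v = v := by
  classical
  set u := Q *ᵥ v with hu
  have h1 : v = P *ᵥ u := by rw [hu, Matrix.mulVec_mulVec, hPQ, Matrix.one_mulVec]
  have h2 : Matrix.diagonal d *ᵥ u = a • u := by
    have h3 := congrArg (fun w => Q *ᵥ w) hv
    simp only [Matrix.mulVec_smul] at h3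
    rw [h1, hx] at h3
    simp only [Matrix.mulVec_mulVec] at h3
    have e1 : Q * (P * Matrix.diagonal d * Q * P) = Matrix.diagonal d := by
      calc Q * (P * Matrix.diagonal d * Q * P) = (Q * P) * Matrix.diagonal d * (Q * P) := by
            noncomm_ring
        _ = _ := by rw [hQP, one_mul, mul_one]
    rw [e1, hQP, Matrix.one_mulVec] at h3
    exact h3
  have h3 : Matrix.diagonal (fun k => if d k = a then (1 : K) else 0) *ᵥ u = u := by
    ext k
    rw [Matrix.mulVec_diagonal]
    have h4 := congrFun h2 k
    rw [Matrix.mulVec_diagonal, Pi.smul_apply, smul_eq_mul] at h4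
    by_cases h5 : d k = a
    · rw [if_pos h5, one_mul]
    · have h6 : (d k - a) * u k = 0 := by linear_combination h4
      rw [(mul_eq_zero.1 h6).resolve_left (sub_ne_zero.2 h5), mul_zero]
  rw [pj, ← Matrix.mulVec_mulVec, ← hu, ← Matrix.mulVec_mulVec, h3, ← h1]

theorem pj_adj {J : Matrix ι ι K} {q : K} (hsim : xᵀ * J * x = q • J) (hQP : Q * P = 1)
    (hPQ : P * Q = 1) (hd : ∀ k, d k ≠ 0) {a a' : K} (haa : a * a' = q) (ha : a ≠ 0) :
    (pj P Q d a)ᵀ * J = J * pj P Q d a' := by
  classical
  set M := Pᵀ * J * P with hM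
  have h2 : Qᵀ * Pᵀ = 1 := by rw [← Matrix.transpose_mul, hPQ, Matrix.transpose_one]
  have h2' : Pᵀ * Qᵀ = 1 := by rw [← Matrix.transpose_mul, hQP, Matrix.transpose_one]
  have hent : ∀ i j, M i j ≠ 0 → d i * d j = q := by
    intro i j hij
    have h1 : Matrix.diagonal d * M * Matrix.diagonal d = q • M := by
      have h3 := congrArg (fun X => Pᵀ * X * P) hsim
      simp only [mul_smul_comm, smul_mul_assoc] at h3
      rw [← hM] at h3
      rw [← h3, hx, Matrix.transpose_mul, Matrix.transpose_mul, Matrix.diagonal_transpose]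
      calc Matrix.diagonal d * M * Matrix.diagonal d =
          1 * Matrix.diagonal d * M * Matrix.diagonal d * 1 := by rw [one_mul, mul_one]
        _ = (Pᵀ * Qᵀ) * Matrix.diagonal d * M * Matrix.diagonal d * (Q * P) := by rw [h2', hQP]
        _ = _ := by rw [hM]; noncomm_ring
    have h3 := congrFun (congrFun h1 i) j
    rw [Matrix.mul_diagonal, Matrix.diagonal_mul, Matrix.smul_apply, smul_eq_mul] at h3
    have h4 : (d i * d j - q) * M i j = 0 := by linear_combination h3
    exact sub_eq_zero.1 ((mul_eq_zero.1 h4).resolve_right hij)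
  have h3 : Matrix.diagonal (fun k => if d k = a then (1 : K) else 0) * M =
      M * Matrix.diagonal (fun k => if d k = a' then (1 : K) else 0) := by
    ext i j
    rw [Matrix.mul_diagonal, Matrix.diagonal_mul]
    by_cases hij : M i j = 0
    · rw [hij, zero_mul, mul_zero]
    · have h4 := hent i j hij
      by_cases h5 : d i = a
      · have h6 : d j = a' := by
          rw [h5, ← haa] at h4
          exact mul_left_cancel₀ ha h4
        rw [if_pos h5, if_pos h6, one_mul, mul_one]
      · have h6 : d j ≠ a' := by
          intro h6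
          rw [h6, ← haa] at h4
          have ha' : a' ≠ 0 := by
            rw [← h6]
            exact hd j
          exact h5 (mul_right_cancel₀ ha' h4)
        rw [if_neg h5, if_neg h6, zero_mul, mul_zero]
  rw [pj, pj, Matrix.transpose_mul, Matrix.transpose_mul, Matrix.diagonal_transpose]
  set Δ := Matrix.diagonal (fun k => if d k = a then (1 : K) else 0) with hΔ
  set Δ' := Matrix.diagonal (fun k => if d k = a' then (1 : K) else 0) with hΔ'
  have e1 : Qᵀ * (Δ * Pᵀ) * J = Qᵀ * (Δ * M) * Q := by
    have e2 : Qᵀ * (Δ * M) * Q = Qᵀ * (Δ * Pᵀ) * J * (P * Q) := by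
      rw [hM]; noncomm_ring
    rw [e2, hPQ, mul_one]
  have e3 : Qᵀ * (M * Δ') * Q = (Qᵀ * Pᵀ) * J * (P * Δ' * Q) := by
    rw [hM]; noncomm_ring
  rw [e1, h3, e3, h2, one_mul]

end

end Pool.Agent.H76T
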