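import Pool.Agent.Lib.H76T.TD1
import Pool.Agent.Lib.H49M.C3

/-!
# The closure of the powers of a diagonalisable matrix
-/

set_option autoImplicit false
set_option linter.unusedSectionVars false
namespace Pool.Agent.H76T
open Module Matrix Pool.Agent.H53Toric

variable {ι : Type*} [Fintype ι] [DecidableEq ι] {K : Type*} [Field K]
variable {P Q : Matrix ι ι K} {d : ι → K} {x : Matrix ι ι K}
  (hx : x = P * Matrix.diagonal d * Q) (hPQ : P * Q = 1) (hQP : Q * P = 1)
  {y : Matrix ι ι K} (hy : y ∈ zar {m | ∃ n : ℕ, m = x ^ n})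

theorem entry_poly (P Q : Matrix ι ι K) (i j : ι) : ∃ g : MvPolynomial (ι × ι) K,
    ∀ m : Matrix ι ι K, ev m g = (Q * m * P) i j := by
  refine ⟨∑ b, (∑ a, MvPolynomial.C (Q i a) * MvPolynomial.X (a, b)) * MvPolynomial.C (P b j),
    fun m ↦ ?_⟩
  rw [map_sum, Matrix.mul_apply]
  refine Finset.sum_congr rfl fun b _ ↦ ?_
  rw [map_mul, map_sum, ev_C, Matrix.mul_apply]
  congr 1
  refine Finset.sum_congr rfl fun a _ ↦ ?_
  rw [map_mul, ev_C, ev_X]

include hx hPQ hQP in
theorem diag_pow' (n : ℕ) : Q * x ^ n * P = (Matrix.diagonal d) ^ n := by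
  have h1 : x ^ n = P * (Matrix.diagonal d) ^ n * Q := by
    rw [hx]
    induction n with
    | zero => rw [pow_zero, pow_zero, mul_one, hPQ]
    | succ n ih =>
      rw [pow_succ, ih, pow_succ]
      calc P * Matrix.diagonal d ^ n * Q * (P * Matrix.diagonal d * Q) =
          P * Matrix.diagonal d ^ n * (Q * P) * Matrix.diagonal d * Q := by noncomm_ring
        _ = _ := by rw [hQP]; noncomm_ring
  rw [h1]
  calc Q * (P * (Matrix.diagonal d) ^ n * Q) * P =
      (Q * P) * (Matrix.diagonal d) ^ n * (Q * P) := by noncomm_ring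
    _ = _ := by rw [hQP, one_mul, mul_one]

include hx hPQ hQP hy in
theorem pow_off {i j : ι} (hij : i ≠ j) : (Q * y * P) i j = 0 := by
  obtain ⟨g, hg⟩ := entry_poly P Q i j
  rw [← hg]
  apply hy
  rintro _ ⟨n, rfl⟩
  rw [hg, diag_pow' hx hPQ hQP, Matrix.diagonal_pow, Matrix.diagonal_apply_ne _ hij]

include hx hPQ hQP hy in
theorem pow_mul_rel {m m' : ι → ℕ} (h : ∏ k, d k ^ m k = ∏ k, d k ^ m' k) :
    ∏ k, (Q * y * P) k k ^ m k = ∏ k, (Q * y * P) k k ^ m' k := by
  choose g hg using fun k => entry_poly P Q k k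
  have h1 : ev y (∏ k, g k ^ m k - ∏ k, g k ^ m' k) = 0 := by
    apply hy
    rintro _ ⟨n, rfl⟩
    rw [map_sub, map_prod, map_prod]
    simp only [map_pow, hg, diag_pow' hx hPQ hQP, Matrix.diagonal_pow,
      Matrix.diagonal_apply_eq, Pi.pow_apply]
    have h2 : ∀ m : ι → ℕ, ∏ k, (d k ^ n) ^ m k = (∏ k, d k ^ m k) ^ n := by
      intro m
      rw [← Finset.prod_pow]
      exact Finset.prod_congr rfl fun k _ => by rw [← pow_mul, ← pow_mul, mul_comm]
    rw [h2, h2, h, sub_self]
  rw [map_sub, map_prod, map_prod] at h1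
  simp only [map_pow, hg] at h1
  exact sub_eq_zero.1 h1

include hx hPQ hQP hy in
theorem pow_diag_eq {k l : ι} (h : d k = d l) : (Q * y * P) k k = (Q * y * P) l l := by
  have h1 := pow_mul_rel hx hPQ hQP hy (m := Pi.single k 1) (m' := Pi.single l 1) (by
    rw [Finset.prod_eq_single k, Finset.prod_eq_single l]
    · rw [Pi.single_eq_same, Pi.single_eq_same, pow_one, pow_one, h]
    · intro b _ hb
      rw [Pi.single_eq_of_ne hb, pow_zero]
    · intro hl
      exact absurd (Finset.mem_univ l) hl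
    · intro b _ hb
      rw [Pi.single_eq_of_ne hb, pow_zero]
    · intro hl
      exact absurd (Finset.mem_univ k) hl)
  rw [Finset.prod_eq_single k, Finset.prod_eq_single l] at h1
  · rwa [Pi.single_eq_same, Pi.single_eq_same, pow_one, pow_one] at h1
  · intro b _ hb
    rw [Pi.single_eq_of_ne hb, pow_zero]
  · intro hl
    exact absurd (Finset.mem_univ l) hl
  · intro b _ hb
    rw [Pi.single_eq_of_ne hb, pow_zero]
  · intro hl
    exact absurd (Finset.mem_univ k) hl

include hx hPQ hQP hy in
/-- the closure of the powers acts by scalars on the eigenspaces -/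
theorem pow_act {k : ι} {v : ι → K} (hv : x *ᵥ v = d k • v) :
    y *ᵥ v = (Q * y * P) k k • v := by
  classical
  have h1 := pj_eig hx hQP hPQ hv
  have h2 : y = P * (Q * y * P) * Q := by
    calc y = (P * Q) * y * (P * Q) := by rw [hPQ, one_mul, mul_one]
      _ = _ := by noncomm_ring
  have h3 : (Q * y * P) * Matrix.diagonal (fun j => if d j = d k then (1 : K) else 0) =
      (Q * y * P) k k • Matrix.diagonal (fun j => if d j = d k then (1 : K) else 0) := by
    ext i j
    rw [Matrix.mul_diagonal, Matrix.smul_apply, smul_eq_mul]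
    by_cases hij : i = j
    · subst hij
      rw [Matrix.diagonal_apply_eq]
      by_cases h4 : d i = d k
      · rw [pow_diag_eq hx hPQ hQP hy h4]
      · rw [if_neg h4, mul_zero, mul_zero]
    · rw [pow_off hx hPQ hQP hy hij, Matrix.diagonal_apply_ne _ hij, zero_mul, mul_zero]
  have h4 : y * pj P Q d (d k) = (Q * y * P) k k • pj P Q d (d k) := by
    nth_rw 1 [h2]
    rw [pj]
    calc P * (Q * y * P) * Q *
        (P * Matrix.diagonal (fun j => if d j = d k then (1 : K) else 0) * Q) =
        P * ((Q * y * P) * (Q * P) *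
          Matrix.diagonal (fun j => if d j = d k then (1 : K) else 0)) * Q := by noncomm_ring
      _ = _ := by rw [hQP, mul_one, h3, mul_smul_comm, smul_mul_assoc]
  rw [← h1, Matrix.mulVec_mulVec, h4, Matrix.smul_mulVec]

include hx hPQ hQP in
/-- an eigenvalue of an eigenvector is on the list -/
theorem eig_mem {v : ι → K} {a : K} (hv : x *ᵥ v = a • v) (hv0 : v ≠ 0) : ∃ k, d k = a := by
  classical
  by_contra hcon
  push Not at hcon
  have h1 := pj_eig hx hQP hPQ hv
  apply hv0
  have h2 : pj P Q d a = 0 := by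
    rw [pj]
    have : (fun k => if d k = a then (1 : K) else 0) = 0 := by
      ext k
      rw [if_neg (hcon k)]; rfl
    rw [this, Matrix.diagonal_zero', mul_zero, zero_mul]
  rw [← h1, h2, Matrix.zero_mulVec]

end Pool.Agent.H76T
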