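import Pool.Agent.Lib.H76T.TD2

/-!
# One parameter groups of rank two
-/

set_option autoImplicit false
set_option linter.unusedSectionVars false
namespace Pool.Agent.H76T
open Module Matrix Pool.Agent.H53Toric
open Pool.Agent.H76RM (Split)

variable {ι : Type*} [Fintype ι] [DecidableEq ι] {K : Type*} [Field K] [CharZero K]

theorem mat_ext {A B : Matrix ι ι K} (h : ∀ u, A *ᵥ u = B *ᵥ u) : A = B := by
  apply Matrix.toLin'.injective
  exact LinearMap.ext fun u ↦ by rw [Matrix.toLin'_apply, Matrix.toLin'_apply, h]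

/-- algebra of an element with `X ^ 3 = X` -/
theorem cube_isom {J X : Matrix ι ι K} (hXs : Xᵀ * J + J * X = 0) (hX3 : X * X * X = X) {t : K}
    (ht : t ≠ 0) :
    (1 + ((t - 1) / 2) • (X * X + X) + ((t⁻¹ - 1) / 2) • (X * X - X))ᵀ * J *
      (1 + ((t - 1) / 2) • (X * X + X) + ((t⁻¹ - 1) / 2) • (X * X - X)) = J := by
  have h1 : Xᵀ * J = -(J * X) := eq_neg_of_add_eq_zero_left hXs
  have h2 : (X * X)ᵀ * J = J * (X * X) := by
    rw [Matrix.transpose_mul, mul_assoc, h1, mul_neg, ← mul_assoc, h1]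
    noncomm_ring
  set a := (t - 1) / 2 with ha
  set b := (t⁻¹ - 1) / 2 with hb
  have e1 : (1 + a • (X * X + X) + b • (X * X - X))ᵀ * J =
      J * (1 + a • (X * X - X) + b • (X * X + X)) := by
    rw [Matrix.transpose_add, Matrix.transpose_add, Matrix.transpose_smul, Matrix.transpose_smul,
      Matrix.transpose_add, Matrix.transpose_sub, Matrix.transpose_one]
    simp only [add_mul, sub_mul, mul_add, mul_sub, smul_mul_assoc, mul_smul_comm, h1, h2,
      one_mul, mul_one]
    module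
  have hX4 : X * X * (X * X) = X * X := by
    calc X * X * (X * X) = (X * X * X) * X := by noncomm_ring
      _ = _ := by rw [hX3]
  have hX3' : X * (X * X) = X := by rw [← mul_assoc, hX3]
  have hX3'' : X * X * X = X := hX3
  have e2 : (1 + a • (X * X - X) + b • (X * X + X)) *
      (1 + a • (X * X + X) + b • (X * X - X)) = 1 := by
    have hab : a + b + 2 * a * b = 0 := by
      rw [ha, hb]
      field_simp
      ring
    have e3 : (1 + a • (X * X - X) + b • (X * X + X)) *
        (1 + a • (X * X + X) + b • (X * X - X)) = 1 + (2 * (a + b + 2 * a * b)) • (X * X) := by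
      simp only [add_mul, sub_mul, mul_add, mul_sub, smul_mul_assoc, mul_smul_comm, hX4, hX3',
        hX3'', one_mul, mul_one, smul_add, smul_sub, smul_smul]
      module
    rw [e3, hab, mul_zero, zero_smul, add_zero]
  rw [e1, mul_assoc, e2, mul_one]

section
variable {B : Type*} [Fintype B] [DecidableEq B] {J : Matrix ι ι K}
  {DD : Submodule K (Matrix ι ι K)} {e : B → Matrix ι ι K} (h : Split J DD e)
  (hJ : Jᵀ = -J) (hdet : IsUnit J.det) {x : Matrix ι ι K} {q : K} (hq : q ≠ 0)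
  (hsim : xᵀ * J * x = q • J) (hxD : ∀ d ∈ DD, x * d = d * x)
  (hlie : ∀ b u, e b *ᵥ u = u → ∃ X : Matrix ι ι K, Xᵀ * J + J * X = 0 ∧
    (∀ d ∈ DD, X * d = d * X) ∧ (∀ z, X *ᵥ (e b *ᵥ z) = om J z u • u) ∧ ∀ c, c ≠ b → X * e c = 0)

include hsim in
theorem eig_form {a a' : K} (haa : a * a' = q) (ha : a ≠ 0) {v : ι → K} (hv : x *ᵥ v = a • v)
    (z : ι → K) : om J (x *ᵥ z) v = a' * om J z v := by
  have h1 : om J (x *ᵥ z) (x *ᵥ v) = q * om J z v := by
    rw [om_mul, hsim, om_apply, om_apply, Matrix.smul_mulVec, dotProduct_smul, smul_eq_mul]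
  rw [hv, map_smul, smul_eq_mul, ← haa] at h1
  apply mul_left_cancel₀ ha
  rw [h1]
  ring

include h hJ hdet hq hsim hxD hlie in
/-- The one parameter group of rank two. -/
theorem one_par {b : B} {v w : ι → K} {a a' : K} (haa : a * a' = q) (ha : a ≠ 0) (ha' : a' ≠ 0)
    (hbv : e b *ᵥ v = v) (hbw : e b *ᵥ w = w) (hv : x *ᵥ v = a • v) (hw : x *ᵥ w = a' • w)
    (hvw : om J v w = 1) {t : K} (ht : t ≠ 0) :
    ∃ y : Matrix ι ι K, yᵀ * J * y = J ∧ (∀ d ∈ DD, y * d = d * y) ∧ y * x = x * y ∧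
      (∀ z, y *ᵥ (e b *ᵥ z) = e b *ᵥ z + ((t - 1) * om J z w) • v -
        ((t⁻¹ - 1) * om J z v) • w) ∧ ∀ c, c ≠ b → y * e c = e c := by
  obtain ⟨X₁, hs1, hD1, hX1, hc1⟩ := hlie b (v + w) (by rw [Matrix.mulVec_add, hbv, hbw])
  obtain ⟨X₂, hs2, hD2, hX2, hc2⟩ := hlie b v hbv
  obtain ⟨X₃, hs3, hD3, hX3, hc3⟩ := hlie b w hbw
  set X := X₁ - X₂ - X₃ with hX
  have hwv : om J w v = -1 := by rw [omega_antisymm (om_alt hJ), hvw]
  have halt : ∀ u, om J u u = 0 := om_alt hJ
  have hXs : Xᵀ * J + J * X = 0 := by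
    rw [hX, Matrix.transpose_sub, Matrix.transpose_sub]
    have : (X₁ᵀ - X₂ᵀ - X₃ᵀ) * J + J * (X₁ - X₂ - X₃) =
        (X₁ᵀ * J + J * X₁) - (X₂ᵀ * J + J * X₂) - (X₃ᵀ * J + J * X₃) := by noncomm_ring
    rw [this, hs1, hs2, hs3]
    simp
  have hXD : ∀ d ∈ DD, X * d = d * X := by
    intro d hd
    rw [hX, sub_mul, sub_mul, mul_sub, mul_sub, hD1 d hd, hD2 d hd, hD3 d hd]
  have hXc : ∀ c, c ≠ b → X * e c = 0 := by
    intro c hc
    rw [hX, sub_mul, sub_mul, hc1 c hc, hc2 c hc, hc3 c hc]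
    simp
  have hXb : ∀ z, X *ᵥ (e b *ᵥ z) = om J z w • v + om J z v • w := by
    intro z
    rw [hX, Matrix.sub_mulVec, Matrix.sub_mulVec, hX1, hX2, hX3, map_add]
    module
  have hXb' : ∀ z, e b *ᵥ z = z → X *ᵥ z = om J z w • v + om J z v • w := by
    intro z hz
    rw [← hXb z, hz]
  have hXv : X *ᵥ v = v := by
    rw [hXb' v hbv, hvw, halt, one_smul, zero_smul, add_zero]
  have hXw : X *ᵥ w = -w := by
    rw [hXb' w hbw, hwv, halt, zero_smul, neg_smul, one_smul, zero_add]
  have hX3 : X * X * X = X := by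
    apply h.ext_comm
    · intro d hd
      rw [mul_assoc, hXD d hd, ← mul_assoc, mul_assoc X X d, hXD d hd, ← mul_assoc, hXD d hd]
      noncomm_ring
    · exact hXD
    · intro c
      by_cases hc : c = b
      · subst hc
        apply mat_ext
        intro z
        rw [← Matrix.mulVec_mulVec, ← Matrix.mulVec_mulVec, ← Matrix.mulVec_mulVec,
          ← Matrix.mulVec_mulVec z X, hXb, Matrix.mulVec_add, Matrix.mulVec_smul,
          Matrix.mulVec_smul, hXv, hXw, Matrix.mulVec_add, Matrix.mulVec_smul,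
          Matrix.mulVec_smul, Matrix.mulVec_neg, hXv, hXw, neg_neg]
      · rw [mul_assoc, hXc c hc, mul_zero]
  have hxe : ∀ c, x * e c = e c * x := fun c => hxD _ (h.mem c)
  have hXx : X * x = x * X := by
    apply h.ext_comm
    · intro d hd
      rw [mul_assoc, hxD d hd, ← mul_assoc, hXD d hd, mul_assoc]
    · intro d hd
      rw [mul_assoc, hXD d hd, ← mul_assoc, hxD d hd, mul_assoc]
    · intro c
      by_cases hc : c = b
      · subst hc
        apply mat_ext
        intro z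
        have e1 : om J (x *ᵥ z) w = a * om J z w :=
          eig_form hsim (by rw [mul_comm]; exact haa) ha' hw z
        have e2 : om J (x *ᵥ z) v = a' * om J z v := eig_form hsim haa ha hv z
        rw [mul_assoc, hxe, ← mul_assoc, ← Matrix.mulVec_mulVec, ← Matrix.mulVec_mulVec, hXb,
          mul_assoc, ← Matrix.mulVec_mulVec, ← Matrix.mulVec_mulVec, hXb, Matrix.mulVec_add,
          Matrix.mulVec_smul, Matrix.mulVec_smul, hv, hw, e1, e2]
        module
      · rw [mul_assoc, hxe, ← mul_assoc, hXc c hc, zero_mul, mul_assoc, hXc c hc, mul_zero]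
  clear_value X
  refine ⟨1 + ((t - 1) / 2) • (X * X + X) + ((t⁻¹ - 1) / 2) • (X * X - X),
    cube_isom hXs hX3 ht, ?_, ?_, ?_, ?_⟩
  · intro d hd
    have e1 : X * X * d = d * (X * X) := by rw [mul_assoc, hXD d hd, ← mul_assoc, hXD d hd, mul_assoc]
    simp only [add_mul, sub_mul, mul_add, mul_sub, smul_mul_assoc, mul_smul_comm, e1, hXD d hd,
      one_mul, mul_one]
  · have e1 : X * X * x = x * (X * X) := by rw [mul_assoc, hXx, ← mul_assoc, hXx, mul_assoc]
    simp only [add_mul, sub_mul, mul_add, mul_sub, smul_mul_assoc, mul_smul_comm, e1, hXx,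
      one_mul, mul_one]
  · intro z
    have e1 : (X * X) *ᵥ (e b *ᵥ z) = om J z w • v - om J z v • w := by
      rw [← Matrix.mulVec_mulVec, hXb, Matrix.mulVec_add, Matrix.mulVec_smul, Matrix.mulVec_smul,
        hXv, hXw, smul_neg, sub_eq_add_neg]
    rw [Matrix.add_mulVec, Matrix.add_mulVec, Matrix.smul_mulVec, Matrix.smul_mulVec,
      Matrix.add_mulVec, Matrix.sub_mulVec, Matrix.one_mulVec, e1, hXb]
    module
  · intro c hc
    have e1 : X * X * e c = 0 := by rw [mul_assoc, hXc c hc, mul_zero]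
    simp only [add_mul, sub_mul, smul_mul_assoc, e1, hXc c hc, one_mul, sub_zero, add_zero,
      smul_zero]

end

end Pool.Agent.H76T
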