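import Pool.Agent.Lib.H76T.TD3

/-!
# Consequences of a maximal Frobenius torus
-/

set_option autoImplicit false
set_option linter.unusedSectionVars false
namespace Pool.Agent.H76T
open Module Matrix Pool.Agent.H53Toric
open Pool.Agent.H76RM (Split)

variable {ι : Type*} [Fintype ι] [DecidableEq ι] {K : Type*} [Field K] [CharZero K]
variable {B : Type*} [Fintype B] [DecidableEq B] {J : Matrix ι ι K}
  {DD : Submodule K (Matrix ι ι K)} {e : B → Matrix ι ι K} (h : Split J DD e)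
  (hJ : Jᵀ = -J) (hdet : IsUnit J.det) {x : Matrix ι ι K} {q : K} (hq : q ≠ 0)
  (hsim : xᵀ * J * x = q • J) (hxD : ∀ d ∈ DD, x * d = d * x)
  {P Q : Matrix ι ι K} {d : ι → K}
  (hx : x = P * Matrix.diagonal d * Q) (hPQ : P * Q = 1) (hQP : Q * P = 1)
  (hd : ∀ k, d k ≠ 0)

include h hxD hx hPQ hQP in
/-- some component contains an eigenvector -/
theorem eig_comp (k : ι) : ∃ b, ∃ z : ι → K, z ≠ 0 ∧ e b *ᵥ z = z ∧ x *ᵥ z = d k • z := by
  have hcomm : ∀ c ∈ DD, pj P Q d (d k) * c = c * pj P Q d (d k) := fun c hc =>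
    (pj_comm hx hQP hPQ (hxD c hc).symm (d k)).symm
  obtain ⟨b, hb⟩ : ∃ b, pj P Q d (d k) * e b ≠ 0 := by
    by_contra hcon
    push Not at hcon
    have h1 : pj P Q d (d k) = 0 := by
      apply h.ext_comm hcomm
      · intro d _
        rw [zero_mul, mul_zero]
      · intro b
        rw [hcon b, zero_mul]
    have h2 : x *ᵥ (P *ᵥ Pi.single k 1) = d k • (P *ᵥ Pi.single k 1) :=
      H49M.C3a_eig hQP hx k
    have h3 := pj_eig hx hQP hPQ h2
    rw [h1, Matrix.zero_mulVec] at h3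
    have h4 := congrArg (fun v => (Q *ᵥ v) k) h3
    simp only [Matrix.mulVec_zero, Matrix.mulVec_mulVec, hQP, Matrix.one_mulVec,
      Pi.single_eq_same, Pi.zero_apply] at h4
    exact zero_ne_one h4
  obtain ⟨u, hu⟩ : ∃ u, (pj P Q d (d k) * e b) *ᵥ u ≠ 0 := by
    by_contra hcon
    push Not at hcon
    apply hb
    apply mat_ext
    intro u
    rw [hcon, Matrix.zero_mulVec]
  refine ⟨b, _, hu, ?_, ?_⟩
  · rw [Matrix.mulVec_mulVec, ← mul_assoc, ← hcomm _ (h.mem b), mul_assoc, h.idem]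
  · rw [Matrix.mulVec_mulVec, ← mul_assoc, x_pj hx hQP, smul_mul_assoc, Matrix.smul_mulVec]

include h hdet hq hsim hxD hx hPQ hQP hd in
/-- a pair of dual eigenvectors in a component -/
theorem eig_pair (k : ι) : ∃ b, ∃ v w : ι → K, e b *ᵥ v = v ∧ e b *ᵥ w = w ∧
    x *ᵥ v = d k • v ∧ x *ᵥ w = (q / d k) • w ∧ om J v w = 1 := by
  obtain ⟨b, v, hv0, hbv, hv⟩ := eig_comp h hxD hx hPQ hQP k
  have haa : d k * (q / d k) = q := mul_div_cancel₀ q (hd k)
  have hadj := pj_adj hx hsim hQP hPQ hd haa (hd k)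
  obtain ⟨w₀, hw₀⟩ : ∃ w₀, om J v w₀ ≠ 0 := by
    by_contra hcon
    push Not at hcon
    apply hv0
    have h1 : ∀ w, om J v w = 0 := hcon
    have h2 : v ᵥ* J = 0 := by
      ext j
      have h3 := h1 (Pi.single j 1)
      rw [om_apply, Matrix.dotProduct_mulVec, dotProduct_single_one] at h3
      exact h3
    exact Matrix.eq_zero_of_vecMul_eq_zero hdet.ne_zero h2
  have hself : ∀ u z, om J (pj P Q d (d k) *ᵥ u) z = om J u (pj P Q d (q / d k) *ᵥ z) := by
    intro u z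
    rw [om_apply, om_apply, Matrix.mulVec_mulVec _ J _, ← hadj, ← Matrix.mulVec_mulVec _ _ J,
      Matrix.dotProduct_mulVec u, Matrix.vecMul_transpose]
  have h1 : om J v (e b *ᵥ (pj P Q d (q / d k) *ᵥ w₀)) = om J v w₀ := by
    rw [← h.self, hbv, ← hself, pj_eig hx hQP hPQ hv]
  refine ⟨b, v, (om J v w₀)⁻¹ • (e b *ᵥ (pj P Q d (q / d k) *ᵥ w₀)), hbv, ?_, hv, ?_, ?_⟩
  · rw [Matrix.mulVec_smul, Matrix.mulVec_mulVec _ (e b) (e b), h.idem]
  · rw [Matrix.mulVec_smul, smul_comm]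
    congr 1
    rw [Matrix.mulVec_mulVec, hxD _ (h.mem b), ← Matrix.mulVec_mulVec,
      Matrix.mulVec_mulVec w₀ x, x_pj hx hQP, Matrix.smul_mulVec, Matrix.mulVec_smul]
  · rw [map_smul, h1, smul_eq_mul, inv_mul_cancel₀ hw₀]

variable (hlie : ∀ b u, e b *ᵥ u = u → ∃ X : Matrix ι ι K, Xᵀ * J + J * X = 0 ∧
    (∀ d ∈ DD, X * d = d * X) ∧ (∀ z, X *ᵥ (e b *ᵥ z) = om J z u • u) ∧ ∀ c, c ≠ b → X * e c = 0)
  (htor : ∀ y : Matrix ι ι K, y.det ≠ 0 → (∀ d ∈ DD, y * d = d * y) →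
    (∃ c : K, yᵀ * J * y = c • J) → y * x = x * y → y ∈ zar {m | ∃ n : ℕ, m = x ^ n})

include h hJ hdet hq hsim hxD hx hPQ hQP hd hlie htor in
theorem torus_par {b : B} {v w : ι → K} {k₀ : ι}
    (hbv : e b *ᵥ v = v) (hbw : e b *ᵥ w = w) (hv : x *ᵥ v = d k₀ • v)
    (hw : x *ᵥ w = (q / d k₀) • w) (hvw : om J v w = 1) {t : K} (ht : t ≠ 0) :
    ∃ y : Matrix ι ι K, y ∈ zar {m | ∃ n : ℕ, m = x ^ n} ∧ (Q * y * P) k₀ k₀ = t ∧
      (∀ z, y *ᵥ (e b *ᵥ z) = e b *ᵥ z + ((t - 1) * om J z w) • v -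
        ((t⁻¹ - 1) * om J z v) • w) ∧ ∀ c, c ≠ b → y * e c = e c := by
  have haa : d k₀ * (q / d k₀) = q := mul_div_cancel₀ q (hd k₀)
  obtain ⟨y, hy1, hy2, hy3, hy4, hy5⟩ := one_par h hJ hdet hq hsim hxD hlie haa (hd k₀)
    (div_ne_zero hq (hd k₀)) hbv hbw hv hw hvw ht
  have hyd : y.det ≠ 0 := by
    intro h0
    have h1 := congrArg Matrix.det hy1
    rw [Matrix.det_mul, h0, mul_zero] at h1
    exact hdet.ne_zero h1.symm
  have hyz := htor y hyd hy2 ⟨1, by rw [hy1, one_smul]⟩ hy3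
  refine ⟨y, hyz, ?_, hy4, hy5⟩
  have h1 := pow_act hx hPQ hQP hyz hv
  have h2 := hy4 v
  have halt : om J v v = 0 := om_alt hJ v
  rw [hbv, hvw, halt, mul_zero, zero_smul, sub_zero, mul_one, h1] at h2
  have h3 : ((Q * y * P) k₀ k₀ - t) • v = 0 := by
    rw [sub_smul, h2]
    module
  have hv0 : v ≠ 0 := by
    rintro rfl
    rw [map_zero, LinearMap.zero_apply] at hvw
    exact zero_ne_one hvw
  exact sub_eq_zero.1 ((smul_eq_zero.1 h3).resolve_right hv0)

include h hJ hdet hq hsim hxD hx hPQ hQP hd hlie htor in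
/-- Eigenvalues are simple on one component and do not occur on the others. -/
theorem torus_simple {b : B} {v w : ι → K} {k₀ : ι}
    (hbv : e b *ᵥ v = v) (hbw : e b *ᵥ w = w) (hv : x *ᵥ v = d k₀ • v)
    (hw : x *ᵥ w = (q / d k₀) • w) (hvw : om J v w = 1) :
    (∀ c, c ≠ b → ∀ z, x *ᵥ z = d k₀ • z → e c *ᵥ z = 0) ∧
    (∀ z, x *ᵥ z = d k₀ • z → e b *ᵥ z = om J z w • v) ∧ d k₀ * d k₀ ≠ q := by
  have h2 : (2 : K) ≠ 0 := by norm_num
  have h3 : (3 : K) ≠ 0 := by norm_num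
  have hxe : ∀ c, x * e c = e c * x := fun c => hxD _ (h.mem c)
  have hez : ∀ c z, x *ᵥ z = d k₀ • z → x *ᵥ (e c *ᵥ z) = d k₀ • (e c *ᵥ z) := by
    intro c z hz
    rw [Matrix.mulVec_mulVec, hxe, ← Matrix.mulVec_mulVec, hz, Matrix.mulVec_smul]
  obtain ⟨y, hyz, hyt, hyb, hyc⟩ :=
    torus_par h hJ hdet hq hsim hxD hx hPQ hQP hd hlie htor hbv hbw hv hw hvw h2
  obtain ⟨y', hyz', hyt', hyb', hyc'⟩ :=
    torus_par h hJ hdet hq hsim hxD hx hPQ hQP hd hlie htor hbv hbw hv hw hvw h3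
  have hA : ∀ c, c ≠ b → ∀ z, x *ᵥ z = d k₀ • z → e c *ᵥ z = 0 := by
    intro c hc z hz
    have e1 := pow_act hx hPQ hQP hyz (hez c z hz)
    rw [Matrix.mulVec_mulVec, hyc c hc, hyt, two_smul] at e1
    exact add_eq_left.1 e1.symm
  have hw0 : w ≠ 0 := by
    rintro rfl
    rw [map_zero] at hvw
    exact zero_ne_one hvw
  have hB : ∀ z, x *ᵥ z = d k₀ • z → e b *ᵥ z = om J z w • v := by
    intro z hz
    have e1 := pow_act hx hPQ hQP hyz (hez b z hz)
    have e2 := pow_act hx hPQ hQP hyz' (hez b z hz)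
    rw [hyb, hyt] at e1
    rw [hyb', hyt'] at e2
    have e3 : e b *ᵥ z = om J z w • v + ((1 / 2 : K) * om J z v) • w := by
      have : (2 : K) • (e b *ᵥ z) - e b *ᵥ z = ((2 - 1 : K) * om J z w) • v -
          (((2 : K)⁻¹ - 1) * om J z v) • w := by
        rw [← e1]; abel
      have e5 : (2 : K) • (e b *ᵥ z) - e b *ᵥ z = e b *ᵥ z := by module
      rw [e5] at this
      rw [this]
      module
    have e4 : (2 : K) • (e b *ᵥ z) = (2 * om J z w) • v + ((2 / 3 : K) * om J z v) • w := by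
      have : (3 : K) • (e b *ᵥ z) - e b *ᵥ z = ((3 - 1 : K) * om J z w) • v -
          (((3 : K)⁻¹ - 1) * om J z v) • w := by
        rw [← e2]; abel
      have e5 : (3 : K) • (e b *ᵥ z) - e b *ᵥ z = (2 : K) • (e b *ᵥ z) := by module
      rw [e5] at this
      rw [this]
      module
    have e6 : ((1 / 3 : K) * om J z v) • w = 0 := by
      rw [e3] at e4
      have : ((1 / 3 : K) * om J z v) • w =
          (2 : K) • (om J z w • v + ((1 / 2 : K) * om J z v) • w) -
          ((2 * om J z w) • v + ((2 / 3 : K) * om J z v) • w) := by module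
      rw [this, e4, sub_self]
    have e7 : om J z v = 0 := by
      have := (smul_eq_zero.1 e6).resolve_right hw0
      exact (mul_eq_zero.1 this).resolve_left (by norm_num)
    rw [e3, e7, mul_zero, zero_smul, add_zero]
  refine ⟨hA, hB, ?_⟩
  intro hsq
  have e1 : q / d k₀ = d k₀ := by rw [← hsq, mul_div_assoc, div_self (hd k₀), mul_one]
  rw [e1] at hw
  have e2 := hB w hw
  have halt : om J w w = 0 := om_alt hJ w
  rw [hbw, halt, zero_smul] at e2
  exact hw0 e2

open Classical in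
include h hJ hdet hq hsim hxD hx hPQ hQP hd hlie htor in
/-- Multiplicative relations between the eigenvalues. -/
theorem torus_rel (k₀ : ι) (m : ι → ℤ) (hm : ∏ k, d k ^ m k = 1) :
    ∑ k, (if d k = d k₀ then m k else 0) = ∑ k, (if d k = q / d k₀ then m k else 0) := by
  obtain ⟨b, v, w, hbv, hbw, hv, hw, hvw⟩ := eig_pair h hdet hq hsim hxD hx hPQ hQP hd k₀
  obtain ⟨-, -, hne⟩ := torus_simple h hJ hdet hq hsim hxD hx hPQ hQP hd hlie htor hbv hbw hv hw
    hvw
  have h2 : (2 : K) ≠ 0 := by norm_num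
  obtain ⟨y, hyz, hyt, hyb, hyc⟩ :=
    torus_par h hJ hdet hq hsim hxD hx hPQ hQP hd hlie htor hbv hbw hv hw hvw h2
  have haa : d k₀ * (q / d k₀) = q := mul_div_cancel₀ q (hd k₀)
  have hne' : q / d k₀ ≠ d k₀ := by
    intro h0
    apply hne
    nth_rw 2 [← h0]
    exact haa
  have hwv : om J w v = -1 := by rw [omega_antisymm (om_alt hJ), hvw]
  have halt : ∀ u, om J u u = 0 := om_alt hJ
  have hw0 : w ≠ 0 := by
    rintro rfl
    rw [map_zero] at hvw
    exact zero_ne_one hvw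
  -- the diagonal of y
  have hc1 : ∀ k, d k = d k₀ → (Q * y * P) k k = 2 := fun k hk => by
    rw [pow_diag_eq hx hPQ hQP hyz hk, hyt]
  have hc2 : ∀ k, d k = q / d k₀ → (Q * y * P) k k = 2⁻¹ := by
    intro k hk
    have e1 : x *ᵥ w = d k • w := by rw [hk]; exact hw
    have e2 := pow_act hx hPQ hQP hyz e1
    have e3 := hyb w
    rw [hbw, halt, mul_zero, zero_smul, add_zero, hwv, e2] at e3
    have e4 : ((Q * y * P) k k - 2⁻¹) • w = 0 := by
      rw [sub_smul, e3]
      module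
    exact sub_eq_zero.1 ((smul_eq_zero.1 e4).resolve_right hw0)
  have hc3 : ∀ k, d k ≠ d k₀ → d k ≠ q / d k₀ → (Q * y * P) k k = 1 := by
    intro k hk1 hk2
    obtain ⟨c, z, hz0, hcz, hz⟩ := eig_comp h hxD hx hPQ hQP k
    have e2 := pow_act hx hPQ hQP hyz hz
    have e3 : y *ᵥ z = z := by
      by_cases hc : c = b
      · subst hc
        have e4 : ∀ {u : ι → K} {a : K}, x *ᵥ u = a • u → d k * a ≠ q → om J z u = 0 := by
          intro u a hu hne
          have e5 : om J (x *ᵥ z) (x *ᵥ u) = q * om J z u := by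
            rw [om_mul, hsim, om_apply, om_apply, Matrix.smul_mulVec, dotProduct_smul,
              smul_eq_mul]
          rw [hz, hu, map_smul, map_smul, LinearMap.smul_apply, smul_eq_mul, smul_eq_mul] at e5
          have e6 : (d k * a - q) * om J z u = 0 := by linear_combination e5
          exact (mul_eq_zero.1 e6).resolve_left (sub_ne_zero.2 hne)
        have e5 := hyb z
        rw [hcz, e4 hw (fun h0 => hk1 (mul_right_cancel₀ (div_ne_zero hq (hd k₀))
          (h0.trans haa.symm))), e4 hv (fun h0 => hk2 (by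
            rw [← h0, mul_div_assoc, div_self (hd k₀), mul_one]))] at e5
        rw [e5, mul_zero, mul_zero, zero_smul, zero_smul, add_zero, sub_zero]
      · have e4 := congrArg (fun X => X *ᵥ z) (hyc c hc)
        simp only [← Matrix.mulVec_mulVec, hcz] at e4
        exact e4
    rw [e3] at e2
    have e4 : (1 - (Q * y * P) k k) • z = 0 := by
      rw [sub_smul, one_smul, ← e2, sub_self]
    exact (sub_eq_zero.1 ((smul_eq_zero.1 e4).resolve_right hz0)).symm
  have hc : ∀ k, (Q * y * P) k k = (2 : K) ^ ((if d k = d k₀ then (1 : ℤ) else 0) -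
      (if d k = q / d k₀ then (1 : ℤ) else 0)) := by
    intro k
    by_cases h4 : d k = d k₀
    · have h5 : d k ≠ q / d k₀ := fun h6 => hne' (h6.symm.trans h4)
      rw [hc1 k h4, if_pos h4, if_neg h5, sub_zero, zpow_one]
    · by_cases h5 : d k = q / d k₀
      · rw [hc2 k h5, if_neg h4, if_pos h5, zero_sub, _root_.zpow_neg, zpow_one]
      · rw [hc3 k h4 h5, if_neg h4, if_neg h5, sub_zero, _root_.zpow_zero]
  -- the relation
  have hcne : ∀ k, (Q * y * P) k k ≠ 0 := fun k => by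
    rw [hc]
    exact zpow_ne_zero _ h2
  have h5 := (H49M.C3b_zpow hd m).1 hm
  have h6 := pow_mul_rel hx hPQ hQP hyz h5
  have h7 := (H49M.C3b_zpow hcne m).2 h6
  have h8 : ∏ k, (Q * y * P) k k ^ m k =
      (2 : K) ^ (∑ k, ((if d k = d k₀ then (1 : ℤ) else 0) -
      (if d k = q / d k₀ then (1 : ℤ) else 0)) * m k) := by
    have : ∀ T : Finset ι, ∏ k ∈ T, (Q * y * P) k k ^ m k =
        (2 : K) ^ (∑ k ∈ T, ((if d k = d k₀ then (1 : ℤ) else 0) -
        (if d k = q / d k₀ then (1 : ℤ) else 0)) * m k) := by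
      intro T
      induction T using Finset.induction_on with
      | empty => simp
      | insert k T hk ih =>
        rw [Finset.prod_insert hk, Finset.sum_insert hk, ih, zpow_add₀ h2, hc k,
          ← _root_.zpow_mul]
    exact this _
  rw [h8] at h7
  have h9 : ∑ k, ((if d k = d k₀ then (1 : ℤ) else 0) -
      (if d k = q / d k₀ then (1 : ℤ) else 0)) * m k = 0 := by
    have h10 : ((2 : ℚ) ^ (∑ k, ((if d k = d k₀ then (1 : ℤ) else 0) -
      (if d k = q / d k₀ then (1 : ℤ) else 0)) * m k)) = 1 := by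
      have h11 : algebraMap ℚ K ((2 : ℚ) ^ (∑ k, ((if d k = d k₀ then (1 : ℤ) else 0) -
          (if d k = q / d k₀ then (1 : ℤ) else 0)) * m k)) = algebraMap ℚ K 1 := by
        rw [map_zpow₀, map_one, map_ofNat]
        exact h7
      exact (algebraMap ℚ K).injective h11
    exact (zpow_eq_one_iff_right₀ (by norm_num) (by norm_num)).1 h10
  simp only [sub_mul, ite_mul, one_mul, zero_mul, Finset.sum_sub_distrib] at h9
  exact sub_eq_zero.1 h9

end Pool.Agent.H76T
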