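import Pool.Agent.Lib.H76T.TD5

/-!
# Roots of a rational polynomial in different fields
-/

set_option autoImplicit false
set_option linter.unusedSectionVars false
namespace Pool.Agent.H76T
open Module Matrix Polynomial Pool.Agent.H53Toric
open Pool.Agent.H76RM (Split)

/-- The group generated by `q` and the roots of `F` other than `α` and `q / α`. -/
def others (F : ℚ[X]) (q : ℚ) {K : Type*} [Field K] [Algebra ℚ K] (α : Kˣ) : Subgroup Kˣ :=
  Subgroup.closure {u : Kˣ | (u : K) = algebraMap ℚ K q ∨
    (aeval (u : K) F = 0 ∧ u ≠ α ∧ (u : K) * α ≠ algebraMap ℚ K q)}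

/-- All roots of `F` are independent, relative to `q`. -/
def AllIndep (F : ℚ[X]) (q : ℚ) (K : Type*) [Field K] [Algebra ℚ K] : Prop :=
  ∀ α : Kˣ, aeval (α : K) F = 0 → (α : K) * α ≠ algebraMap ℚ K q ∧
    ∀ n : ℤ, n ≠ 0 → α ^ n ∉ others F q α

open Classical in
/-- The number of different roots. -/
noncomputable def nroots (F : ℚ[X]) (K : Type*) [Field K] [Algebra ℚ K] : ℕ :=
  (F.map (algebraMap ℚ K)).roots.toFinset.card

variable {ι : Type*} [Fintype ι] [DecidableEq ι] {K : Type*} [Field K] [CharZero K]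

theorem alg_rat : Algebra.IsAlgebraic ℚ (AlgebraicClosure ℚ) := by
  have e : (DivisionRing.toRatAlgebra : Algebra ℚ (AlgebraicClosure ℚ)) =
    AlgebraicClosure.instAlgebra ℚ := Subsingleton.elim _ _
  rw [e]
  exact AlgebraicClosure.isAlgebraic ℚ

/-- an embedding of the algebraic numbers -/
noncomputable def embQ (K : Type*) [Field K] [CharZero K] [IsAlgClosed K] :
    AlgebraicClosure ℚ →ₐ[ℚ] K :=
  have := alg_rat
  IsAlgClosed.lift

section
variable [IsAlgClosed K] {F : ℚ[X]} {d : ι → K}
  (hchar : F.map (algebraMap ℚ K) = ∏ k, (X - C (d k)))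
include hchar

theorem roots_eq : (F.map (algebraMap ℚ K)).roots = Finset.univ.val.map d := by
  rw [hchar]
  have := Polynomial.roots_multiset_prod_X_sub_C (Finset.univ.val.map d)
  rw [Multiset.map_map] at this
  exact this

theorem F_ne : F ≠ 0 := by
  rintro rfl
  rw [Polynomial.map_zero] at hchar
  exact Finset.prod_ne_zero_iff.2 (fun k _ ↦ X_sub_C_ne_zero (d k)) hchar.symm

theorem root_iff {a : K} : aeval a F = 0 ↔ ∃ k, d k = a := by
  have hF := F_ne hchar
  have h1 : a ∈ (F.map (algebraMap ℚ K)).roots ↔ aeval a F = 0 := by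
    rw [Polynomial.mem_roots', Polynomial.IsRoot, Polynomial.eval_map, aeval_def]
    constructor
    · exact fun h => h.2
    · intro h
      exact ⟨(Polynomial.map_ne_zero_iff (algebraMap ℚ K).injective).2 hF, h⟩
  rw [← h1, roots_eq hchar, Multiset.mem_map]
  simp

omit hchar in
theorem aeval_emb (β : AlgebraicClosure ℚ) : aeval (embQ K β) F = 0 ↔ aeval β F = 0 := by
  rw [Polynomial.aeval_algHom_apply]
  exact map_eq_zero_iff (embQ K) (embQ K).toRingHom.injective

theorem root_lift (k : ι) : ∃ β : AlgebraicClosure ℚ, embQ K β = d k ∧ aeval β F = 0 := by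
  have hmap : (F.map (algebraMap ℚ (AlgebraicClosure ℚ))).map (embQ K).toRingHom =
      F.map (algebraMap ℚ K) := by
    rw [Polynomial.map_map]
    congr 1
    exact Subsingleton.elim _ _
  have hk : d k ∈ (F.map (algebraMap ℚ K)).roots := by
    rw [roots_eq hchar]
    exact Multiset.mem_map_of_mem _ (Finset.mem_univ k)
  rw [← hmap, (IsAlgClosed.splits (F.map (algebraMap ℚ
    (AlgebraicClosure ℚ)))).roots_map] at hk
  obtain ⟨β, hβ, hβk⟩ := Multiset.mem_map.1 hk
  have hβk' : embQ K β = d k := hβk
  refine ⟨β, hβk', ?_⟩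
  rw [← aeval_emb (K := K), hβk', root_iff hchar]
  exact ⟨k, rfl⟩

open Classical in
theorem nroots_eq : (Finset.univ.image d).card = nroots F (AlgebraicClosure ℚ) := by
  have hF := F_ne hchar
  have h1 : Finset.univ.image d =
      ((F.map (algebraMap ℚ (AlgebraicClosure ℚ))).roots.toFinset).image (embQ K) := by
    ext a
    rw [Finset.mem_image, Finset.mem_image]
    constructor
    · rintro ⟨k, -, rfl⟩
      obtain ⟨β, hβ, hβF⟩ := root_lift hchar k
      refine ⟨β, ?_, hβ⟩
      rw [Multiset.mem_toFinset, Polynomial.mem_roots', Polynomial.IsRoot, Polynomial.eval_map]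
      exact ⟨(Polynomial.map_ne_zero_iff (algebraMap ℚ _).injective).2 hF, hβF⟩
    · rintro ⟨β, hβ, rfl⟩
      rw [Multiset.mem_toFinset, Polynomial.mem_roots', Polynomial.IsRoot,
        Polynomial.eval_map] at hβ
      have h2 : aeval β F = 0 := hβ.2
      rw [← aeval_emb (K := K), root_iff hchar] at h2
      obtain ⟨k, hk⟩ := h2
      exact ⟨k, Finset.mem_univ k, hk⟩
  have hinj : Function.Injective (embQ K) := (embQ K).toRingHom.injective
  rw [h1, Finset.card_image_of_injective _ hinj]
  rfl

end

/-- Independence in the algebraic numbers implies independence in `K`. -/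
theorem AllIndep.to [IsAlgClosed K] {F : ℚ[X]} {d : ι → K}
    (hchar : F.map (algebraMap ℚ K) = ∏ k, (X - C (d k))) (hd : ∀ k, d k ≠ 0) {q : ℚ}
    (h : AllIndep F q (AlgebraicClosure ℚ)) : AllIndep F q K := by
  intro a ha
  obtain ⟨k, hk⟩ := (root_iff hchar).1 ha
  obtain ⟨β, hβ, hβF⟩ := root_lift hchar k
  have hβ0 : β ≠ 0 := by
    rintro rfl
    rw [map_zero] at hβ
    exact hd k hβ.symm
  let fu : (AlgebraicClosure ℚ)ˣ →* Kˣ := Units.map (embQ K : AlgebraicClosure ℚ →* K)
  have hfu : ∀ u : (AlgebraicClosure ℚ)ˣ, (fu u : K) = embQ K u := fun u => rfl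
  have hfuinj : Function.Injective fu := by
    intro u v huv
    apply Units.ext
    apply (embQ K).toRingHom.injective
    change embQ K u = embQ K v
    rw [← hfu, ← hfu, huv]
  set α : (AlgebraicClosure ℚ)ˣ := Units.mk0 β hβ0 with hα
  have hαa : fu α = a := by
    apply Units.ext
    rw [hfu, ← hk, ← hβ]
    rfl
  obtain ⟨h1, h2⟩ := h α hβF
  constructor
  · intro h3
    apply h1
    apply (embQ K).toRingHom.injective
    change embQ K _ = embQ K _
    rw [map_mul, AlgHom.commutes, ← h3, ← hαa, hfu]
  · intro n hn h3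
    apply h2 n hn
    have h4 : others F q a ≤ (others F q α).map fu := by
      rw [others, Subgroup.closure_le]
      rintro u (hu | ⟨hu1, hu2, hu3⟩)
      · have hq0 : algebraMap ℚ (AlgebraicClosure ℚ) q ≠ 0 := by
          intro h5
          have h6 := congrArg (embQ K) h5
          rw [AlgHom.commutes, map_zero, ← hu] at h6
          exact u.ne_zero h6
        refine ⟨Units.mk0 _ hq0, Subgroup.subset_closure (Or.inl rfl), ?_⟩
        apply Units.ext
        rw [hfu, Units.val_mk0, AlgHom.commutes, hu]
      · obtain ⟨k', hk'⟩ := (root_iff hchar).1 hu1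
        obtain ⟨β', hβ', hβF'⟩ := root_lift hchar k'
        have hβ0' : β' ≠ 0 := by
          rintro rfl
          rw [map_zero] at hβ'
          exact hd k' hβ'.symm
        have hfu' : fu (Units.mk0 β' hβ0') = u := by
          apply Units.ext
          rw [hfu, Units.val_mk0, hβ', hk']
        refine ⟨Units.mk0 β' hβ0', Subgroup.subset_closure (Or.inr ⟨hβF', ?_, ?_⟩), hfu'⟩
        · intro h5
          apply hu2
          rw [← hfu', h5, hαa]
        · intro h5
          apply hu3
          have h6 := congrArg (embQ K) h5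
          rw [map_mul, AlgHom.commutes] at h6
          rw [← h6, ← hfu', ← hαa]
          rfl
    obtain ⟨u, hu, hun⟩ := h4 h3
    have h5 : u = α ^ n := by
      apply hfuinj
      rw [hun, map_zpow, hαa]
    rwa [← h5]

end Pool.Agent.H76T
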