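import Pool.Agent.Lib.H76T.TD7
import Pool.Agent.Lib.H76F.Small

/-!
# Seeds from semisimple elements of rank two
-/

set_option autoImplicit false
set_option linter.unusedSectionVars false
namespace Pool.Agent.H76T
open Module Pool.Agent.H53Toric Pool.Agent.H76RM

variable {K : Type*} [Field K] {V : Type*} [AddCommGroup V] [Module K V]
variable {B : Type*} [Fintype B] [DecidableEq B] {Γ : Type*} [Group Γ]
variable {ω : V →ₗ[K] V →ₗ[K] K} {e : B → Module.End K V}
    {g : Submodule K (Module.End K V)} {r : Γ →* Module.End K V}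

theorem seed_root [IsAlgClosed K] [CharZero K] [FiniteDimensional K V] (h : Setup ω e g r)
    {p p' : Module.End K V}
    (hY : p - p' ∈ g) (hpp : p * p = p) (hpp' : p' * p' = p') (h12 : p * p' = 0)
    (h21 : p' * p = 0) (hadj : ∀ v w, ω (p v) w = ω v (p' w))
    {b : B} {u : V} (hu0 : u ≠ 0) (hbu : e b u = u) (hpu : p u = u)
    (hline : ∀ z, ∃ c : K, p (e b z) = c • u)
    (hsurj : ∀ f : V →ₗ[K] K, ∃ a, ∀ z, f z = ω z a) : Seed ω e g b := by
  -- the dual vector
  have hfun : ∃ f : V →ₗ[K] K, ∀ z, p (e b z) = f z • u := by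
    obtain ⟨φ, hφ⟩ : ∃ φ : V →ₗ[K] K, φ u ≠ 0 := by
      obtain ⟨φ₀, hφ₀, -⟩ := Submodule.exists_le_ker_of_notMem (p := (⊥ : Submodule K V))
        (v := u) (by rw [Submodule.mem_bot]; exact hu0)
      exact ⟨φ₀, hφ₀⟩
    refine ⟨(φ u)⁻¹ • (φ ∘ₗ p ∘ₗ e b), fun z => ?_⟩
    obtain ⟨c, hc⟩ := hline z
    have : ((φ u)⁻¹ • (φ ∘ₗ p ∘ₗ e b)) z = c := by
      change (φ u)⁻¹ * φ (p (e b z)) = c
      rw [hc, map_smul, smul_eq_mul]
      field_simp
    rw [hc, this]
  obtain ⟨f, hf⟩ := hfun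
  obtain ⟨a, ha⟩ := hsurj f
  set u' := e b a with hu'
  have hbu' : e b u' = u' := h.idem' b a
  have hfu' : ∀ z, e b z = z → p z = ω z u' • u := by
    intro z hz
    have h1 := hf z
    rw [hz] at h1
    rw [h1, ha, hu', ← h.self, hz]
  have huu' : ω u u' = 1 := by
    have h1 := hfu' u hbu
    rw [hpu] at h1
    have h2 : (1 - ω u u') • u = 0 := by rw [sub_smul, one_smul, ← h1, sub_self]
    exact (sub_eq_zero.1 ((smul_eq_zero.1 h2).resolve_right hu0)).symm
  have hu'0 : u' ≠ 0 := by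
    intro h0
    rw [h0, map_zero] at huu'
    exact zero_ne_one huu'
  -- a generic group element
  have hex : ∀ v, e b v = v → v ≠ 0 → ∃ x, ω u (r x v) ≠ 0 := by
    intro v hv hv0
    by_contra hcon
    push Not at hcon
    rcases h.falt u v (h.fsum hbu) (h.fsum hv) hcon b with h1 | h1
    · rw [hv] at h1
      exact hv0 h1
    · rw [hbu] at h1
      exact hu0 h1
  obtain ⟨γ, hγ1, hγ2, -⟩ := h.gen u u' u u u u (hex u' hbu' hu'0) (hex u hbu hu0) (hex u hbu hu0)
  obtain ⟨c, hc0, hc⟩ := h.sim γ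
  set Z := r γ * (p - p') * r γ⁻¹ with hZ
  have hZg : Z ∈ g := h.conj γ _ hY
  have hrr : ∀ v, r γ (r γ⁻¹ v) = v := h.rr γ
  have hinv : ∀ v w, ω (r γ⁻¹ v) w = c⁻¹ * ω v (r γ w) := by
    intro v w
    have h1 := hc (r γ⁻¹ v) w
    rw [hrr] at h1
    rw [h1, ← mul_assoc, inv_mul_cancel₀ hc0, one_mul]
  set N := p' * Z * p with hN
  have hNg : N ∈ g := by
    set E : Fin 3 → Module.End K V := ![p, 1 - p - p', p'] with hE
    have hsum : E 0 + E 1 + E 2 = 1 := by
      change p + (1 - p - p') + p' = 1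
      abel
    have hmul : ∀ i j, E i * E j = if i = j then E i else 0 := by
      intro i j
      fin_cases i <;> fin_cases j <;>
        simp [hE, mul_sub, sub_mul, hpp, hpp', h12, h21]
    exact (three_mem h.lie hsum hmul hY hZg).2.1
  have hN2 : N * N = 0 := by
    rw [hN]
    calc p' * Z * p * (p' * Z * p) = p' * Z * (p * p') * Z * p := by noncomm_ring
      _ = 0 := by rw [h12]; simp
  have hru : e b (r γ⁻¹ u) = r γ⁻¹ u := h.fixr γ⁻¹ hbu
  have hNu : ω u (N u) = 2 * c⁻¹ * ω u (r γ u') * ω u (r γ u) := by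
    have h1 : N u = p' (r γ (p (r γ⁻¹ u)) - r γ (p' (r γ⁻¹ u))) := by
      change p' (r γ ((p - p') (r γ⁻¹ (p u)))) = _
      rw [hpu]
      rw [LinearMap.sub_apply, map_sub (r γ)]
    rw [h1, ← hadj, hpu, map_sub]
    have h2 : ω u (r γ (p (r γ⁻¹ u))) = c⁻¹ * ω u (r γ u') * ω u (r γ u) := by
      rw [hfu' _ hru, map_smul, map_smul, smul_eq_mul, hinv]
    have h3 : ω u (r γ (p' (r γ⁻¹ u))) = -(c⁻¹ * ω u (r γ u') * ω u (r γ u)) := by
      have h5 : ω u (r γ (p' (r γ⁻¹ u))) = c * ω (r γ⁻¹ u) (p' (r γ⁻¹ u)) := by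
        rw [← hc, hrr]
      have h6 : ω u (r γ⁻¹ u) = -(c⁻¹ * ω u (r γ u)) := by
        rw [h.anti, hinv]
      rw [h5, ← hadj, hfu' _ hru, map_smul, LinearMap.smul_apply, smul_eq_mul, hinv, h6]
      field_simp
    rw [h2, h3]
    ring
  have hNe : N * e b ≠ 0 := by
    intro h0
    have h1 : (N * e b) u = 0 := by rw [h0]; rfl
    change N (e b u) = 0 at h1
    rw [hbu] at h1
    rw [h1, map_zero] at hNu
    have h2 : (2 : K) * c⁻¹ ≠ 0 := mul_ne_zero (by norm_num) (inv_ne_zero hc0)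
    exact (mul_ne_zero (mul_ne_zero h2 hγ1) hγ2) hNu.symm
  have hr : finrank K (LinearMap.range (N * e b)) ≤ 2 := by
    have h1 : finrank K (LinearMap.range (N * e b)) ≤ 1 := by
      apply Pool.Agent.H76F.finrank_range_le_of_line (d := N u)
      intro z
      obtain ⟨c, hc⟩ := hline z
      refine ⟨c, ?_⟩
      change p' (Z (p (e b z))) = c • p' (Z (p u))
      rw [hc, hpu, map_smul, map_smul]
    omega
  exact h.seed_of_small hNg hN2 hNe hr

end Pool.Agent.H76T
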