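import Pool.Agent.Lib.H76T.TE1

/-!
# The other primes
-/

set_option autoImplicit false
set_option linter.unusedSectionVars false
namespace Pool.Agent.H76T
open Module Matrix Polynomial Pool.Agent.H53Toric
open Pool.Agent.H76U (IsSplitting split4_of Split4)
open Pool.Agent.H76RM (van spanK similD Seed Setup Split comm_span)

variable {ι : Type*} [Fintype ι] [DecidableEq ι]
variable {L : Type*} [Field L] {K : Type*} [Field K] [Algebra L K] {G : Type*} [Group G]

theorem om_surj [CharZero K] {J : Matrix ι ι K} (hdet : IsUnit J.det) (f : (ι → K) →ₗ[K] K) :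
    ∃ a, ∀ z, f z = om J z a := by
  refine ⟨J⁻¹ *ᵥ (fun i => f (Pi.single i 1)), fun z => ?_⟩
  rw [om_apply, Matrix.mulVec_mulVec, Matrix.mul_nonsing_inv _ hdet, Matrix.one_mulVec]
  have h1 : z = ∑ i, z i • (Pi.single i (1 : K) : ι → K) := by
    ext j
    rw [Finset.sum_apply, Finset.sum_eq_single j]
    · simp
    · intro i _ hij
      rw [Pi.smul_apply, Pi.single_eq_of_ne hij.symm, smul_zero]
    · intro hj
      exact absurd (Finset.mem_univ j) hj
  nth_rw 1 [h1]
  rw [map_sum]
  simp only [map_smul, smul_eq_mul]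
  rfl

theorem diag_pow_gen {P Q : Matrix ι ι K} {d : ι → K} (hPQ : P * Q = 1) (hQP : Q * P = 1)
    (n : ℕ) : (P * Matrix.diagonal d * Q) ^ n = P * Matrix.diagonal (fun k => d k ^ n) * Q := by
  induction n with
  | zero =>
    simp [hPQ]
  | succ n ih =>
    rw [pow_succ, ih]
    calc P * Matrix.diagonal (fun k => d k ^ n) * Q * (P * Matrix.diagonal d * Q) =
        P * (Matrix.diagonal (fun k => d k ^ n) * (Q * P) * Matrix.diagonal d) * Q := by
          noncomm_ring
      _ = _ := by
        rw [hQP, mul_one, Matrix.diagonal_mul_diagonal]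
        simp only [pow_succ]

/-- the element of rank two of the Lie algebra -/
theorem pj_zlie [CharZero K] {S : Set (Matrix ι ι K)} (hS : ∀ a ∈ S, ∀ b ∈ S, a * b ∈ S)
    {x P Q : Matrix ι ι K} {d : ι → K} (hx : x = P * Matrix.diagonal d * Q)
    (hPQ : P * Q = 1) (hQP : Q * P = 1) (hd : ∀ k, d k ≠ 0) {r : ℕ} (hr : r ≠ 0)
    (hpow : ∀ n : ℕ, x ^ (r * n) ∈ S) {q : ℚ} {F : ℚ[X]} {a : K} (ha0 : a ≠ 0)
    (hroots : ∀ k, aeval (d k) F = 0) (haq : a * a ≠ algebraMap ℚ K q)
    (ha : ∀ n : ℤ, n ≠ 0 → (Units.mk0 a ha0) ^ n ∉ others F q (Units.mk0 a ha0)) :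
    pj P Q d a - pj P Q d (algebraMap ℚ K q / a) ∈ zlie S := by
  classical
  set A : Kˣ := Units.mk0 a ha0 with hA
  set B := others F q A with hB
  set a' := algebraMap ℚ K q / a with ha'
  have haa : a * a' = algebraMap ℚ K q := mul_div_cancel₀ _ ha0
  have hne : a' ≠ a := by
    intro h
    apply haq
    nth_rw 2 [← h]
    exact haa
  let ε : ι → ℤ := fun k => if d k = a then 1 else if d k = a' then -1 else 0
  let D : ι → Kˣ := fun k => Units.mk0 (d k) (hd k)
  have hDd : ∀ k, ((D k : Kˣ) : K) = d k := fun k => rfl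
  have h1 : P * Matrix.diagonal (fun k => (ε k : K)) * Q ∈ zlie S := by
    refine torus_zlie hQP hPQ (d := fun k => D k ^ r) hS ?_ (B := B) (a := A ^ r) ?_ ?_
    · intro n
      have e1 : P * Matrix.diagonal (fun k => ((D k ^ r : Kˣ) : K)) * Q = x ^ r := by
        rw [hx, diag_pow_gen hPQ hQP]
        congr 2
      rw [e1, ← pow_mul]
      exact hpow n
    · intro n hn h2
      rw [← zpow_natCast, ← _root_.zpow_mul] at h2
      exact ha _ (mul_ne_zero (by exact_mod_cast hr) hn) h2
    · intro k
      by_cases h2 : d k = a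
      · have e1 : D k = A := Units.ext h2
        have e2 : ε k = 1 := if_pos h2
        rw [e1, e2, zpow_one, mul_inv_cancel]
        exact B.one_mem
      · by_cases h3 : d k = a'
        · have e2 : ε k = -1 := by
            change (if d k = a then (1 : ℤ) else if d k = a' then -1 else 0) = -1
            rw [if_neg h2, if_pos h3]
          rw [e2, _root_.zpow_neg, zpow_one, inv_inv, ← _root_.mul_pow]
          apply B.pow_mem
          apply Subgroup.subset_closure
          left
          rw [Units.val_mul, hDd, h3, mul_comm]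
          exact haa
        · have e2 : ε k = 0 := by
            change (if d k = a then (1 : ℤ) else if d k = a' then -1 else 0) = 0
            rw [if_neg h2, if_neg h3]
          rw [e2, _root_.zpow_zero, inv_one, mul_one]
          apply B.pow_mem
          apply Subgroup.subset_closure
          right
          refine ⟨hroots k, fun h4 => h2 (congrArg (fun u : Kˣ => (u : K)) h4), fun h4 => h3 ?_⟩
          rw [ha', eq_div_iff ha0]
          exact h4
  have h2 : P * Matrix.diagonal (fun k => (ε k : K)) * Q = pj P Q d a - pj P Q d a' := by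
    have e1 : Matrix.diagonal (fun k => (ε k : K)) =
        Matrix.diagonal (fun k => if d k = a then (1 : K) else 0) -
        Matrix.diagonal (fun k => if d k = a' then (1 : K) else 0) := by
      rw [Matrix.diagonal_sub]
      congr 1
      ext k
      change (((if d k = a then (1 : ℤ) else if d k = a' then -1 else 0) : ℤ) : K) = _
      by_cases h2 : d k = a
      · have h3 : d k ≠ a' := fun h3 => hne (h3.symm.trans h2)
        rw [if_pos h2, if_pos h2, if_neg h3]
        simp
      · by_cases h3 : d k = a'
        · rw [if_neg h2, if_neg h2, if_pos h3, if_pos h3]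
          simp
        · rw [if_neg h2, if_neg h2, if_neg h3, if_neg h3]
          simp
    rw [e1, pj, pj]
    noncomm_ring
  rw [← h2]
  exact h1

end Pool.Agent.H76T
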