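import Pool.Agent.Lib.H76T.TE2
import Pool.Agent.Lib.H53Toric.Weil

/-!
# The monodromy group from independent roots
-/

set_option autoImplicit false
set_option linter.unusedSectionVars false
namespace Pool.Agent.H76T
open Module Matrix Polynomial Pool.Agent.H53Toric
open Pool.Agent.H76U (IsSplitting)
open Pool.Agent.H76RM (van spanK similD Seed Setup Split comm_span split_of)

variable {ι : Type*} [Fintype ι] [DecidableEq ι]
variable {L : Type*} [Field L] {K : Type*} [Field K] [Algebra L K] {G : Type*} [Group G]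

/-- the eigenvalues of an element with rational characteristic polynomial -/
theorem diag_data [CharZero L] [CharZero K] (ρ : G →* Matrix.GeneralLinearGroup ι L) {σ : G}
    {F : ℚ[X]} (hF : (ρ σ).1.charpoly = F.map (algebraMap ℚ L))
    (hss : Diagonalisable ((ρ σ).1.map (algebraMap L K))) :
    ∃ (P Q : Matrix ι ι K) (d : ι → K), P * Q = 1 ∧ Q * P = 1 ∧
      (ρ σ).1.map (algebraMap L K) = P * Matrix.diagonal d * Q ∧ (∀ k, d k ≠ 0) ∧
      F.map (algebraMap ℚ K) = ∏ k, (X - C (d k)) := by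
  obtain ⟨P, Q, d₀, hPQ, hQP, hσ⟩ := hss
  refine ⟨P, Q, d₀, hPQ, hQP, hσ, ?_, ?_⟩
  · intro k hk
    set x := (ρ σ).1.map (algebraMap L K) with hx
    have h1 : x * (ρ σ⁻¹).1.map (algebraMap L K) = 1 := img_inv ρ σ
    have h2 : Matrix.diagonal d₀ * (Q * (ρ σ⁻¹).1.map (algebraMap L K) * P) = 1 := by
      calc Matrix.diagonal d₀ * (Q * (ρ σ⁻¹).1.map (algebraMap L K) * P) =
          (Q * P) * Matrix.diagonal d₀ * (Q * (ρ σ⁻¹).1.map (algebraMap L K) * P) := by
            rw [hQP, one_mul]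
        _ = Q * ((P * Matrix.diagonal d₀ * Q) * (ρ σ⁻¹).1.map (algebraMap L K)) * P := by
            noncomm_ring
        _ = 1 := by rw [← hσ, h1, mul_one, hQP]
    have h3 := congrArg (fun m => m k k) h2
    simp only [Matrix.diagonal_mul, hk, zero_mul, Matrix.one_apply_eq] at h3
    exact zero_ne_one h3
  · have h1 : ((ρ σ).1.map (algebraMap L K)).charpoly = F.map (algebraMap ℚ K) := by
      rw [Matrix.charpoly_map, hF, Polynomial.map_map]
      congr 1
      exact Subsingleton.elim _ _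
    rw [← h1, hσ, Matrix.charpoly_mul_comm, ← mul_assoc, hQP, one_mul, Matrix.charpoly_diagonal]

/-- **Fullness from independent roots.** -/
theorem full_other [CharZero L] [CharZero K] [IsAlgClosed K] {ψ : Matrix ι ι ℚ}
    (hψ : ψᵀ = -ψ) (hψ0 : ψ.det ≠ 0) (D : Subalgebra ℚ (Matrix ι ι ℚ))
    (ρ : G →* Matrix.GeneralLinearGroup ι L)
    (lin : ∀ σ : G, ∀ d ∈ D, (ρ σ).1 * d.map (algebraMap ℚ L) =
      d.map (algebraMap ℚ L) * (ρ σ).1)
    (sim : ∀ σ : G, ∃ c : L, (ρ σ).1ᵀ * ψ.map (algebraMap ℚ L) * (ρ σ).1 =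
      c • ψ.map (algebraMap ℚ L))
    (semis : ∀ H : Subgroup G, H.FiniteIndex → ∀ W : Submodule K (ι → K),
      (∀ s ∈ img K ρ H, ∀ w ∈ W, s *ᵥ w ∈ W) →
      ∃ W' : Submodule K (ι → K), (∀ s ∈ img K ρ H, ∀ w ∈ W', s *ᵥ w ∈ W') ∧ IsCompl W W')
    (commt : ∀ H : Subgroup G, H.FiniteIndex → ∀ y : Matrix ι ι K,
      (∀ s ∈ img K ρ H, y * s = s * y) → y ∈ spanK K D)
    {m : ℕ} {e : Fin m → Matrix ι ι K} (hspl : IsSplitting D ψ id e)
    {σ : G} {q : ℚ} (hq0 : q ≠ 0) (hq : ∀ n : ℕ, n ≠ 0 → q ^ n ≠ 1)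
    (hmult : (ρ σ).1ᵀ * ψ.map (algebraMap ℚ L) * (ρ σ).1 =
      algebraMap ℚ L q • ψ.map (algebraMap ℚ L))
    {F : ℚ[X]} (hchar : (ρ σ).1.charpoly = F.map (algebraMap ℚ L))
    (hss : Diagonalisable ((ρ σ).1.map (algebraMap L K)))
    (hind : AllIndep F q (AlgebraicClosure ℚ))
    (hcard : nroots F (AlgebraicClosure ℚ) = ∑ b, (e b).rank)
    (H : Subgroup G) (hH : H.FiniteIndex) : monodromy K ρ H = similD K ψ D := by
  classical
  obtain ⟨hJ, hdet⟩ := gram_basic hψ hψ0 K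
  obtain ⟨P, Q, d, hPQ, hQP, hx, hd, hF⟩ := diag_data ρ hchar hss
  have hsplR : H76RM.IsSplitting D ψ e :=
    ⟨hspl.mem, hspl.idem, hspl.adj, hspl.corner, hspl.orth, hspl.full⟩
  have hspl' := split_of hsplR
  have cyc : ∃ σ : G, ∃ c : L, (ρ σ).1ᵀ * ψ.map (algebraMap ℚ L) * (ρ σ).1 =
      c • ψ.map (algebraMap ℚ L) ∧ ∀ n : ℕ, n ≠ 0 → c ^ n ≠ 1 := by
    refine ⟨σ, algebraMap ℚ L q, hmult, fun n hn h1 => hq n hn ?_⟩
    apply (algebraMap ℚ L).injective
    rw [map_pow, h1, map_one]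
  refine monodromy_seed hψ hψ0 D ρ lin sim cyc semis commt hsplR ?_ H hH
  intro H₀ hfin hprime hsetup b
  set J : Matrix ι ι K := ψ.map (algebraMap ℚ K) with hJdef
  set x := (ρ σ).1.map (algebraMap L K) with hxdef
  have hlinK : ∀ d ∈ D, x * d.map (algebraMap ℚ K) = d.map (algebraMap ℚ K) * x := by
    intro d hd
    have h1 := congrArg (fun m : Matrix ι ι L => m.map (algebraMap L K)) (lin σ d hd)
    have h2 : (d.map (algebraMap ℚ L)).map (algebraMap L K) = d.map (algebraMap ℚ K) := by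
      ext i j
      simp
    simp only [Matrix.map_mul] at h1
    rw [h2] at h1
    exact h1
  have hxD : ∀ d ∈ spanK K D, x * d = d * x := comm_span hlinK
  have hsim : xᵀ * J * x = algebraMap ℚ K q • J := by
    have := sim_map (K := K) hmult
    rwa [show algebraMap L K (algebraMap ℚ L q) = algebraMap ℚ K q by simp] at this
  obtain ⟨r, hr0, -, hr⟩ := Subgroup.exists_pow_mem_of_index_ne_zero
    (H := H₀) (Subgroup.FiniteIndex.index_ne_zero) σ
  have hpow : ∀ n : ℕ, x ^ (r * n) ∈ img K ρ H₀ := by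
    intro n
    refine ⟨(σ ^ r) ^ n, H₀.pow_mem hr n, ?_⟩
    rw [← pow_mul, img_pow]
  -- an eigenvalue on the component
  have hc : ∀ a, pj P Q d a * e b = e b * pj P Q d a := fun a =>
    (pj_comm hx hQP hPQ (hxD _ (hspl'.mem b)).symm a).symm
  have hk : ∃ k, pj P Q d (d k) * e b ≠ 0 := by
    by_contra hcon
    push Not at hcon
    apply hspl.ne_zero b
    calc e b = (∑ a ∈ Finset.univ.image d, pj P Q d a) * e b := by rw [pj_sum hPQ, one_mul]
      _ = 0 := by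
        rw [Finset.sum_mul]
        refine Finset.sum_eq_zero fun a ha => ?_
        obtain ⟨k, -, rfl⟩ := Finset.mem_image.1 ha
        exact hcon k
  obtain ⟨k, hk⟩ := hk
  have hone := mult_one_of_card hspl' hxD hx hPQ hQP
    ((nroots_eq hF).trans hcard) k
  have hrank : (pj P Q d (d k) * e b).rank ≤ 1 := by
    rw [← hone]
    exact Finset.single_le_sum (f := fun b => (pj P Q d (d k) * e b).rank)
      (fun _ _ => Nat.zero_le _) (Finset.mem_univ b)
  set a := d k with ha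
  obtain ⟨z₀, hz₀⟩ : ∃ z, (pj P Q d a * e b) *ᵥ z ≠ 0 := by
    by_contra hcon
    push Not at hcon
    apply hk
    apply mat_ext
    intro z
    rw [hcon z, Matrix.zero_mulVec]
  set u := (pj P Q d a * e b) *ᵥ z₀ with hu
  have hpu : pj P Q d a *ᵥ u = u := by
    rw [hu, Matrix.mulVec_mulVec, ← mul_assoc, pj_mul hQP]
  have hbu : e b *ᵥ u = u := by
    rw [hu, Matrix.mulVec_mulVec, hc, ← mul_assoc, hspl'.idem b]
  have hline : ∀ z, ∃ c : K, pj P Q d a *ᵥ (e b *ᵥ z) = c • u := by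
    intro z
    have h1 := (finrank_le_one_iff (K := K)
      (V := LinearMap.range (pj P Q d a * e b).mulVecLin)).1 hrank
    obtain ⟨⟨v, y, hy⟩, hv⟩ := h1
    obtain ⟨c1, hc1⟩ := hv ⟨u, z₀, rfl⟩
    obtain ⟨c2, hc2⟩ := hv ⟨_, z, rfl⟩
    have hc1' : c1 • v = u := congrArg Subtype.val hc1
    have hc2' : c2 • v = (pj P Q d a * e b) *ᵥ z := congrArg Subtype.val hc2
    have hc10 : c1 ≠ 0 := by
      rintro rfl
      rw [zero_smul] at hc1'
      exact hz₀ hc1'.symm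
    refine ⟨c2 * c1⁻¹, ?_⟩
    rw [← hc1', Matrix.mulVec_mulVec, ← hc2', smul_smul, mul_assoc, inv_mul_cancel₀ hc10, mul_one]
  have hak : aeval a F = 0 := (root_iff hF).2 ⟨k, rfl⟩
  have hall := AllIndep.to hF hd hind
  obtain ⟨hne, hnn⟩ := hall (Units.mk0 a (hd k)) hak
  have ha0 : a ≠ 0 := hd k
  set a' := algebraMap ℚ K q / a with ha'
  have haa : a * a' = algebraMap ℚ K q := mul_div_cancel₀ _ ha0
  have hq0K : algebraMap ℚ K q ≠ 0 := by
    rw [Ne, map_eq_zero]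
    exact hq0
  have ha'0 : a' ≠ 0 := div_ne_zero hq0K ha0
  have hne' : a ≠ a' := by
    intro h0
    apply hne
    rw [Units.val_mk0, ← haa, ← h0]
  have hz : pj P Q d a - pj P Q d a' ∈ zlie (img K ρ H₀) :=
    pj_zlie (img_mul ρ H₀) hx hPQ hQP hd hr0.ne' hpow ha0
      (fun k => (root_iff hF).2 ⟨k, rfl⟩) hne hnn
  have hadj1 : (pj P Q d a)ᵀ * J = J * pj P Q d a' :=
    pj_adj hx hsim hQP hPQ hd haa ha0
  have hadj2 : (pj P Q d a')ᵀ * J = J * pj P Q d a :=
    pj_adj hx hsim hQP hPQ hd (by rw [mul_comm]; exact haa) ha'0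
  have homadj : ∀ v w, om J (pj P Q d a *ᵥ v) w = om J v (pj P Q d a' *ᵥ w) := by
    intro v w
    rw [om_apply, om_apply, Matrix.mulVec_mulVec, ← hadj1, ← Matrix.mulVec_mulVec,
      Matrix.mulVec_transpose, dotProduct_comm v, ← Matrix.dotProduct_mulVec, dotProduct_comm]
  refine seed_root hsetup (p := phi (pj P Q d a)) (p' := phi (pj P Q d a')) ?_ ?_ ?_ ?_ ?_ ?_
    (u := u) hz₀ ?_ ?_ ?_ ?_
  · rw [← map_sub, mem_lieE, skew_iff hdet]
    refine ⟨hz, ?_⟩
    rw [Matrix.transpose_sub, sub_mul, hadj1, hadj2, mul_sub]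
    abel
  · rw [← map_mul, pj_mul hQP]
  · rw [← map_mul, pj_mul hQP]
  · rw [← map_mul, pj_mul_ne hQP hne', map_zero]
  · rw [← map_mul, pj_mul_ne hQP hne'.symm, map_zero]
  · intro v w
    rw [phi_apply, phi_apply]
    exact homadj v w
  · rw [phi_apply]; exact hbu
  · rw [phi_apply]; exact hpu
  · intro z
    obtain ⟨c, hc⟩ := hline z
    exact ⟨c, by rw [phi_apply, phi_apply]; exact hc⟩
  · exact om_surj hdet

end Pool.Agent.H76T
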