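import Pool.Agent.Lib.H76T.TE4

/-!
# The final theorem
-/

set_option autoImplicit false
set_option linter.unusedSectionVars false
namespace Pool.Agent.H76T
open Module Matrix Polynomial Pool.Agent.H53Toric
open Pool.Agent.H76U (IsSplitting rank_idem_map)
open Pool.Agent.H76RM (spanK similD)
open Pool.Agent.H49M (idc TorusCond)

variable {ι : Type*} [Fintype ι] [DecidableEq ι]
variable {L : Type*} [Field L] {K : Type*} [Field K] [Algebra L K] {G : Type*} [Group G]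

/-- The one parameter groups `1 + (t - 1) y`, `t ≠ 0`, for all conjugates `y` of `h` under the
image of `ρ` and the automorphisms of `K` over `L₁`. -/
def cocharConj (L₁ K : Type*) [Field L₁] [Field K] [Algebra L K] [Algebra L₁ K]
    (ρ : G →* Matrix.GeneralLinearGroup ι L) (h : Matrix ι ι K) : Set (Matrix ι ι K) :=
  {x | ∃ (s : G) (τ : K ≃ₐ[L₁] K) (t : K), t ≠ 0 ∧ x = 1 + (t - 1) •
    ((ρ s).1.map (algebraMap L K) * h.map τ * (ρ s⁻¹).1.map (algebraMap L K))}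

/-- The numerical conditions for the rank `n` of a component, cut out by `p`. -/
structure NumCond (L₁ K : Type*) [Field L₁] [Field K] [Algebra L K] [Algebra L₁ K]
    (ρ : G →* Matrix.GeneralLinearGroup ι L) (h p : Matrix ι ι K) (n : ℕ) : Prop where
  power : ∀ a k : ℕ, 3 ≤ k → Odd k → n = a ^ k →
    ((∀ H : Subgroup G, H.FiniteIndex → img K ρ ⊤ ⊆ zar (img K ρ H)) ∧
      ∃ Φ : Subgroup (K ≃ₐ[L₁] K), ¬ k ∣ Φ.index ∧
        ∀ τ ∈ Φ, ∃ γ ∈ idc K ρ, h.map τ * γ = γ * h) ∨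
    ∃ N : Matrix ι ι K, N * N = 0 ∧ 1 + N ∈ zar (img K ρ ⊤) ∧ ¬ a ^ (k - 1) ∣ (N * p).rank
  two : ∀ m : ℕ, 5 ≤ m → (m % 4 = 1 ∨ m % 4 = 2) → n = 2 ^ m →
    ∃ N : Matrix ι ι K, N * N = 0 ∧ 1 + N ∈ zar (img K ρ ⊤) ∧ N * p ≠ 0 ∧
      4 * (N * p).rank ≠ n ∧ 2 * (N * p).rank ≠ n
  binom : ∀ k : ℕ, 3 ≤ k → Odd k → n = k.centralBinom →
    ∃ N : Matrix ι ι K, N * N = 0 ∧ 1 + N ∈ zar (img K ρ ⊤) ∧ N * p ≠ 0 ∧
      (N * p).rank ≠ (k - 1).centralBinom

/-- the base change of a representation -/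
noncomputable def bcr (L₁ : Type*) [Field L₁] [Algebra L L₁]
    (ρ : G →* Matrix.GeneralLinearGroup ι L) : G →* Matrix.GeneralLinearGroup ι L₁ :=
  (Matrix.GeneralLinearGroup.map (algebraMap L L₁)).comp ρ

section
variable {L₁ : Type*} [Field L₁] [Algebra L L₁] [Algebra L₁ K] [IsScalarTower L L₁ K]
  (ρ : G →* Matrix.GeneralLinearGroup ι L)

theorem bcr_apply (s : G) : (bcr L₁ ρ s).1 = (ρ s).1.map (algebraMap L L₁) := rfl

theorem map_tower {m n : Type*} (A : Matrix m n L) :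
    (A.map (algebraMap L L₁)).map (algebraMap L₁ K) = A.map (algebraMap L K) := by
  ext i j
  exact (IsScalarTower.algebraMap_apply L L₁ K (A i j)).symm

theorem bcr_map (s : G) : (bcr L₁ ρ s).1.map (algebraMap L₁ K) =
    (ρ s).1.map (algebraMap L K) := by
  rw [bcr_apply, map_tower]

theorem img_bcr (H : Subgroup G) : img K (bcr L₁ ρ) H = img K ρ H := by
  ext x
  constructor
  · rintro ⟨s, hs, rfl⟩
    exact ⟨s, hs, bcr_map ρ s⟩
  · rintro ⟨s, hs, rfl⟩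
    exact ⟨s, hs, (bcr_map ρ s).symm⟩

theorem idc_bcr : idc K (bcr L₁ ρ) = idc K ρ := by
  ext x
  constructor
  · rintro ⟨h1, h2⟩
    exact ⟨h1, fun H hH => by rw [← img_bcr (L₁ := L₁)]; exact h2 H hH⟩
  · rintro ⟨h1, h2⟩
    exact ⟨h1, fun H hH => by rw [img_bcr (L₁ := L₁)]; exact h2 H hH⟩

theorem NumCond.numK {h p : Matrix ι ι K} {n : ℕ} (hn : NumCond L₁ K ρ h p n) :
    NumK K (bcr L₁ ρ) h p n where
  num0 := by
    simp only [img_bcr, idc_bcr]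
    exact hn.power
  num1 := by
    simp only [img_bcr]
    exact hn.two
  num2 := by
    simp only [img_bcr]
    exact hn.binom

end

/-- **The theorem at one prime.** -/
theorem at_one [CharZero L] [CharZero K] [IsAlgClosed K] {ψ : Matrix ι ι ℚ}
    (hψ : ψᵀ = -ψ) (hψ0 : ψ.det ≠ 0) (D : Subalgebra ℚ (Matrix ι ι ℚ))
    (ρ : G →* Matrix.GeneralLinearGroup ι L)
    (lin : ∀ σ : G, ∀ d ∈ D, (ρ σ).1 * d.map (algebraMap ℚ L) =
      d.map (algebraMap ℚ L) * (ρ σ).1)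
    (sim : ∀ σ : G, ∃ c : L, (ρ σ).1ᵀ * ψ.map (algebraMap ℚ L) * (ρ σ).1 =
      c • ψ.map (algebraMap ℚ L))
    (semis : ∀ H : Subgroup G, H.FiniteIndex → ∀ W : Submodule K (ι → K),
      (∀ s ∈ img K ρ H, ∀ w ∈ W, s *ᵥ w ∈ W) →
      ∃ W' : Submodule K (ι → K), (∀ s ∈ img K ρ H, ∀ w ∈ W', s *ᵥ w ∈ W') ∧ IsCompl W W')
    (commt : ∀ H : Subgroup G, H.FiniteIndex → ∀ y : Matrix ι ι K,
      (∀ s ∈ img K ρ H, y * s = s * y) → y ∈ spanK K D)
    {L₁ : Type*} [Field L₁] [CharZero L₁] [Algebra L L₁] [Algebra L₁ K] [IsScalarTower L L₁ K]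
    {m : ℕ} {e : Fin m → Matrix ι ι L₁} (hspl : IsSplitting D ψ id e)
    {h₀ : Matrix ι ι K} (hh : h₀ ∈ hodgeProj (img K ρ ⊤)) (h0 : h₀ ≠ 0) (h1 : h₀ ≠ 1)
    {H' : Subgroup G} (hH' : H'.FiniteIndex)
    (hgen : img K ρ H' ⊆ zar (Submonoid.closure (cocharConj L₁ K ρ h₀) : Set (Matrix ι ι K)))
    (num : ∀ b, NumCond L₁ K ρ h₀ ((e b).map (algebraMap L₁ K)) (e b).rank)
    {σ : G} {q : ℚ} (hq : ∀ n : ℕ, n ≠ 0 → q ^ n ≠ 1)
    (hmult : (ρ σ).1ᵀ * ψ.map (algebraMap ℚ L) * (ρ σ).1 =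
      algebraMap ℚ L q • ψ.map (algebraMap ℚ L))
    {F : ℚ[X]} (hchar : (ρ σ).1.charpoly = F.map (algebraMap ℚ L))
    (hss : Diagonalisable ((ρ σ).1.map (algebraMap L K))) (torus : TorusCond K ρ σ) :
    q ≠ 0 ∧ AllIndep F q (AlgebraicClosure ℚ) ∧
      nroots F (AlgebraicClosure ℚ) = ∑ b, (e b).rank := by
  classical
  obtain ⟨hJ, hdet⟩ := gram_basic hψ hψ0 K
  have hι : Nonempty ι := by
    by_contra hemp
    rw [not_nonempty_iff] at hemp
    apply h0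
    ext i
    exact (hemp.false i).elim
  have hq0 : q ≠ 0 := by
    rintro rfl
    rw [map_zero, zero_smul] at hmult
    have h2 := congrArg Matrix.det hmult
    rw [Matrix.det_mul, Matrix.det_mul, Matrix.det_transpose, Matrix.det_zero] at h2
    have h3 : (ρ σ).1.det ≠ 0 :=
      ((Matrix.isUnit_iff_isUnit_det _).1 (ρ σ).isUnit).ne_zero
    have h4 : (ψ.map (algebraMap ℚ L)).det ≠ 0 := (gram_basic hψ hψ0 L).2.ne_zero
    exact mul_ne_zero (mul_ne_zero h3 h4) h3 h2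
  refine ⟨hq0, ?_⟩
  set ρ' := bcr L₁ ρ with hρ'
  have hmapQ : ∀ A : Matrix ι ι ℚ, (A.map (algebraMap ℚ L)).map (algebraMap L L₁) =
      A.map (algebraMap ℚ L₁) := by
    intro A
    ext i j
    simp
  have lin' : ∀ σ : G, ∀ d ∈ D, (ρ' σ).1 * d.map (algebraMap ℚ L₁) =
      d.map (algebraMap ℚ L₁) * (ρ' σ).1 := by
    intro σ d hd
    have h2 := congrArg (fun m : Matrix ι ι L => m.map (algebraMap L L₁)) (lin σ d hd)
    simp only [Matrix.map_mul, hmapQ] at h2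
    exact h2
  have sim' : ∀ σ : G, ∃ c : L₁, (ρ' σ).1ᵀ * ψ.map (algebraMap ℚ L₁) * (ρ' σ).1 =
      c • ψ.map (algebraMap ℚ L₁) := by
    intro σ
    obtain ⟨c, hc⟩ := sim σ
    exact ⟨algebraMap L L₁ c, sim_map hc⟩
  have semis' : ∀ H : Subgroup G, H.FiniteIndex → ∀ W : Submodule K (ι → K),
      (∀ s ∈ img K ρ' H, ∀ w ∈ W, s *ᵥ w ∈ W) →
      ∃ W' : Submodule K (ι → K), (∀ s ∈ img K ρ' H, ∀ w ∈ W', s *ᵥ w ∈ W') ∧
        IsCompl W W' := by
    intro H hH W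
    rw [hρ', img_bcr]
    exact semis H hH W
  have commt' : ∀ H : Subgroup G, H.FiniteIndex → ∀ y : Matrix ι ι K,
      (∀ s ∈ img K ρ' H, y * s = s * y) → y ∈ spanK K D := by
    intro H hH y
    rw [hρ', img_bcr]
    exact commt H hH y
  have hh' : h₀ ∈ hodgeProj (img K ρ' ⊤) := by
    rw [hρ', img_bcr]
    exact hh
  have hgen' : img K ρ' H' ⊆ zar (Submonoid.closure {m | ∃ s : G, ∃ τ ∈ fixT L₁ K, ∃ t : K,
      t ≠ 0 ∧ m = 1 + (t - 1) • (rK K ρ' s * h₀.map τ * rK K ρ' s⁻¹)} :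
        Set (Matrix ι ι K)) := by
    rw [hρ', img_bcr]
    refine hgen.trans (zar_mono ?_)
    apply Submonoid.closure_mono
    rintro _ ⟨s, τ, t, ht, rfl⟩
    refine ⟨s, τ.toRingEquiv, fun a => τ.commutes a, t, ht, ?_⟩
    rw [rK_apply, rK_apply, bcr_map, bcr_map]
    rfl
  have hsplK : IsSplitting D ψ id (fun b => (e b).map (algebraMap L₁ K)) :=
    hspl.map (algebraMap L₁ K)
  have num' : ∀ b, NumK K ρ' h₀ ((e b).map (algebraMap L₁ K)) (e b).rank :=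
    fun b => (num b).numK
  have hrank : ∀ b, ((e b).map (algebraMap L₁ K)).rank = (e b).rank :=
    fun b => rank_idem_map (hspl.idem b) _
  have cyc' : ∃ σ : G, ∃ c : L₁, (ρ' σ).1ᵀ * ψ.map (algebraMap ℚ L₁) * (ρ' σ).1 =
      c • ψ.map (algebraMap ℚ L₁) ∧ ∀ n : ℕ, n ≠ 0 → c ^ n ≠ 1 := by
    refine ⟨σ, algebraMap L L₁ (algebraMap ℚ L q), sim_map hmult, fun n hn h2 => hq n hn ?_⟩
    apply (algebraMap ℚ L).injective
    apply (algebraMap L L₁).injective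
    rw [map_pow, map_pow, h2, map_one, map_one]
  have hmon : ∀ H : Subgroup G, H.FiniteIndex → monodromy K ρ H = similD K ψ D := by
    intro H hH
    have h2 := full_one hψ hψ0 D ρ' lin' sim' cyc' semis' commt' hspl hh' h0 h1 hH' hgen' num'
      H hH
    rw [monodromy, hρ', img_bcr] at h2
    exact h2
  have hlie := lie_seed hψ hψ0 D ρ lin sim semis commt hsplK (by
    intro H₀ hfin hprime b
    have h2 := seed_one hψ hψ0 D ρ' lin' sim' semis' commt' hspl hh' h0 h1 hH' hgen' num' H₀ hfin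
      (by rw [hρ', img_bcr]; exact hprime) b
    rw [hρ', img_bcr] at h2
    exact h2)
  obtain ⟨h2, h3⟩ := indep_one hψ hψ0 D ρ lin hsplK hlie hmon hq0 hmult hchar hss torus
  refine ⟨h2, ?_⟩
  rw [h3]
  exact Finset.sum_congr rfl fun b _ => hrank b

end Pool.Agent.H76T
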